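import Pool.Agent.Mg.F06f5ada.G648793

section

/-!
Transfer of goodness, second part.
-/

namespace Pool.Agent.MP_06f5ad_nt.Q2

open Filter Topology

theorem Next_prod (P Q : QF) (hr : res P.toTr Q.toTr = 1) :
    |Q.A * P.ev Q.a| * |Q.A * P.ev Q.b| = 1 := by
  have h := Q.res_eq P.toTr
  rw [res_symm, hr] at h
  rw [← abs_mul, ← h]
  simp

theorem Next_evb (P Q : QF) :
    |Q.A * P.ev Q.b| = Q.A * P.A * (|P.a - Q.b| * |P.b - Q.b|) := by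
  rw [P.ev_eq, abs_mul, abs_mul, abs_mul, abs_of_pos Q.Apos, abs_of_pos P.Apos,
    abs_sub_comm Q.b P.a, abs_sub_comm Q.b P.b]
  ring

theorem Next_unit (Q : QF) {U v : ℤ} (hU : U ^ 2 - Q.n * v ^ 2 = 1) (hv : v ≠ 0) :
    ∃ U' v' : ℤ, U' ^ 2 - Q.n * v' ^ 2 = 1 ∧ |(v : ℝ)| * |Q.r| ≤ U' + v' * Q.r ∧
      U' + v' * Q.r ≤ 3 * (|(v : ℝ)| * |Q.r|) := by
  obtain ⟨v', h1, h2⟩ : ∃ v' : ℤ, v' ^ 2 = v ^ 2 ∧ (v' : ℝ) * Q.r = |(v : ℝ)| * |Q.r| := by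
    rcases le_total 0 ((v : ℝ) * Q.r) with h | h
    · exact ⟨v, rfl, by rw [← abs_mul, abs_of_nonneg h]⟩
    · exact ⟨-v, by ring, by rw [← abs_mul, abs_of_nonpos h]; push_cast; ring⟩
  have hU' : ((U : ℝ)) ^ 2 - Q.n * (v : ℝ) ^ 2 = 1 := by exact_mod_cast hU
  have hv1 : (1 : ℝ) ≤ (v : ℝ) ^ 2 := by
    have : 0 < v ^ 2 := by positivity
    exact_mod_cast this
  have hn := Q.one_le_n
  have hm : (|(v : ℝ)| * |Q.r|) ^ 2 = Q.n * (v : ℝ) ^ 2 := by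
    rw [mul_pow, sq_abs, sq_abs, Q.r_sq]; ring
  have h1' : (1 : ℝ) ≤ Q.n * (v : ℝ) ^ 2 := by nlinarith
  have h3 : |(U : ℝ)| ≤ 2 * (|(v : ℝ)| * |Q.r|) := by
    apply abs_le_of_sq_le_sq' _ (by positivity) |>.2
    rw [sq_abs, mul_pow, hm]
    nlinarith
  refine ⟨|U|, v', by rw [sq_abs, h1]; exact hU, ?_, ?_⟩
  · rw [h2]; push_cast; linarith [abs_nonneg (U : ℝ)]
  · rw [h2]; push_cast; linarith

/-- The small unit of the new quadratic. -/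
theorem gd_w (P Q : QF) (hr : res P.toTr Q.toTr = 1) {U v : ℤ} (hU : U ^ 2 - Q.n * v ^ 2 = 1)
    (hv : v ≠ 0) : ∃ σ : ℝ, 0 < σ ∧
      2 * (|(v : ℝ)| * P.A * (|P.a - Q.b| * |P.b - Q.b|)) ≤ σ * |Q.a - Q.b| ∧
      σ * |Q.a - Q.b| ≤ 6 * (|(v : ℝ)| * P.A * (|P.a - Q.b| * |P.b - Q.b|)) ∧
      ∀ (W : ℝ) (l : ℕ), Gd W l Q.a Q.b σ → Gd W l Q.b Q.a (Q.n : ℝ)⁻¹ := by
  obtain ⟨U', v', hU', hlo, hhi⟩ := Next_unit Q hU hv
  obtain ⟨T, hT⟩ : ∃ T : ℝ, T = U' + v' * Q.r := ⟨_, rfl⟩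
  rw [← hT] at hlo hhi
  have hr0 : 0 < |Q.r| := abs_pos.2 Q.r_ne
  have hv0 : 0 < |(v : ℝ)| := abs_pos.2 (by exact_mod_cast hv)
  have hT0 : 0 < T := lt_of_lt_of_le (by positivity) hlo
  have hTi : (U' - v' * Q.r) * T = 1 := by
    have : ((U' : ℝ)) ^ 2 - Q.n * (v' : ℝ) ^ 2 = 1 := by exact_mod_cast hU'
    rw [hT, ← Q.r_sq] at *
    linear_combination this
  have hTi' : (U' : ℝ) - v' * Q.r = T⁻¹ := eq_inv_of_mul_eq_one_left hTi
  have hp := Next_prod P Q hr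
  obtain ⟨x, hx⟩ : ∃ x : ℝ, x = |Q.A * P.ev Q.a| := ⟨_, rfl⟩
  obtain ⟨y, hy⟩ : ∃ y : ℝ, y = |Q.A * P.ev Q.b| := ⟨_, rfl⟩
  rw [← hx, ← hy] at hp
  have hx0 : 0 < x := by
    rcases (hx ▸ abs_nonneg _ : 0 ≤ x).eq_or_lt with h | h
    · rw [← h] at hp; simp at hp
    · exact h
  have hy0 : 0 < y := by
    rcases (hy ▸ abs_nonneg _ : 0 ≤ y).eq_or_lt with h | h
    · rw [← h] at hp; simp at hp
    · exact h
  have hn0 : (0 : ℝ) < Q.n := lt_of_lt_of_le one_pos Q.one_le_n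
  have hnr : (Q.n : ℝ) = |Q.r| ^ 2 := by rw [sq_abs, Q.r_sq]
  have hab : Q.A * |Q.a - Q.b| = 2 * |Q.r| := by
    unfold QF.r
    rw [abs_div, abs_mul, abs_of_pos Q.Apos, abs_two]
    ring
  obtain ⟨D, hD⟩ : ∃ D : ℝ, D = P.A * (|P.a - Q.b| * |P.b - Q.b|) := ⟨_, rfl⟩
  have hD0 : 0 ≤ D := by rw [hD]; have := P.Apos; positivity
  have hyD : y = Q.A * D := by rw [hy, Next_evb, hD]; ring
  have key : T * y / Q.n * |Q.a - Q.b| = 2 * (T / |Q.r|) * D := by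
    rw [hyD, hnr]
    field_simp
    linear_combination D * hab
  have hq1 : |(v : ℝ)| ≤ T / |Q.r| := by rw [le_div_iff₀ hr0]; exact hlo
  have hq2 : T / |Q.r| ≤ 3 * |(v : ℝ)| := by rw [div_le_iff₀ hr0]; linarith
  refine ⟨T * y / Q.n, by positivity, ?_, ?_, fun W l hg => ?_⟩
  · rw [key, mul_assoc |(v : ℝ)|, ← hD]; nlinarith
  · rw [key, mul_assoc |(v : ℝ)|, ← hD]; nlinarith
  · have e : T * y / Q.n * (x / T) = (Q.n : ℝ)⁻¹ := by
      field_simp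
      linear_combination hp
    rw [← e]
    refine gd_swap (by positivity) (by positivity) (fun q p h => ?_) hg
    obtain ⟨q1, p1, h1, e1, e2⟩ := Q.refl (O := P.toTr) (by rw [res_symm]; exact hr) h
    obtain ⟨q2, p2, h2, e3, e4⟩ := Q.unit (U := U') (V := -v') (by rw [neg_sq]; exact hU') h1
    refine ⟨q2, p2, h2, ?_, ?_⟩
    · have : (U' : ℝ) + ((-v' : ℤ) : ℝ) * Q.r = T⁻¹ := by rw [← hTi']; push_cast; ring
      rw [e3, this, e1, abs_mul, abs_mul, ← hx, abs_of_pos (inv_pos.2 hT0)]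
      field_simp
    · have : (U' : ℝ) - ((-v' : ℤ) : ℝ) * Q.r = T := by rw [hT]; push_cast; ring
      rw [e4, this, e2, abs_mul, abs_mul, ← hy, abs_of_pos hT0]
      field_simp
      linear_combination |q * Q.a + p| * hp

/-- The distance of the first roots. -/
theorem eta_eq (P Q : QF) (hr : res P.toTr Q.toTr = 1) :
    (P.A : ℝ) ^ 2 * (Q.A : ℝ) ^ 2 * (|P.a - Q.a| * |P.a - Q.b| * |P.b - Q.a| * |P.b - Q.b|) = 1 := by
  have h := P.res_eq Q.toTr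
  rw [hr, Q.ev_eq, Q.ev_eq] at h
  have h2 : (P.A : ℝ) ^ 2 * (Q.A : ℝ) ^ 2 *
      ((P.a - Q.a) * (P.a - Q.b) * (P.b - Q.a) * (P.b - Q.b)) = 1 := by
    push_cast at h
    linear_combination -h
  have h3 := congrArg abs h2
  rw [abs_mul, abs_mul, abs_mul, abs_mul, abs_mul, abs_one, abs_of_nonneg (sq_nonneg _),
    abs_of_nonneg (sq_nonneg _)] at h3
  exact h3

theorem Next_cmp {w x y z : ℝ} (hw : 0 < w) (hx : 1 / 2 ≤ w * x) (hx' : w * x ≤ 10)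
    (hy : 1 / 2 ≤ w * y) (hy' : w * y ≤ 10) (hz : 1 / 2 ≤ w * z) (hz' : w * z ≤ 10) :
    x ^ 2 ≤ 400 * (y * z) ∧ y * z ≤ 400 * x ^ 2 := by
  have hw2 : 0 < w ^ 2 := by positivity
  have a1 : (w * x) ^ 2 ≤ 100 := by nlinarith
  have a2 : 1 / 4 ≤ (w * x) ^ 2 := by nlinarith
  have a3 : 1 / 4 ≤ (w * y) * (w * z) := by nlinarith
  have a4 : (w * y) * (w * z) ≤ 100 := by nlinarith
  constructor
  · refine le_of_mul_le_mul_left ?_ hw2
    nlinarith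
  · refine le_of_mul_le_mul_left ?_ hw2
    nlinarith

theorem Next_pos {w x : ℝ} (hw : 0 < w) (h : 1 / 2 ≤ w * x) : 0 < x := by
  by_contra hc
  push Not at hc
  nlinarith

theorem Next_br1 {W A ν d2 d3 d5 x y q : ℝ} (hW : 2 ^ 100 ≤ W) (hA : W ^ 600 ≤ A)
    (hν : ν = A ^ 2 * (d3 * d5)) (h2 : 1 / 2 ≤ W ^ 20 * d2) (h3 : 1 / 2 ≤ W ^ 20 * d3)
    (h5 : 1 / 2 ≤ W ^ 20 * d5) (hx : 0 ≤ x) (hq : 0 ≤ q) (hd : 1 / A ^ 2 ≤ x * q ^ 3)
    (hy : q * d2 / 2 ≤ y) : W ^ 25 ≤ W ^ 3 * (ν⁻¹ * x) * (y / ν⁻¹) ^ 3 := by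
  have hW1 : (1024 : ℝ) ≤ W := le_trans (by norm_num) hW
  have hW0 : 0 < W := by linarith
  have hA0 : 0 < A := lt_of_lt_of_le (by positivity) hA
  have hw : 0 < W ^ 20 := by positivity
  have p2 : 0 < d2 := Next_pos hw h2
  have p3 : 0 < d3 := Next_pos hw h3
  have p5 : 0 < d5 := Next_pos hw h5
  have hν0 : 0 < ν := by rw [hν]; positivity
  have e : W ^ 3 * (ν⁻¹ * x) * (y / ν⁻¹) ^ 3 = W ^ 3 * ν ^ 2 * (x * y ^ 3) := by
    field_simp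
  rw [e]
  have b1 : (q * d2 / 2) ^ 3 ≤ y ^ 3 := pow_le_pow_left₀ (by positivity) hy 3
  have b2 : 1 / A ^ 2 * (d2 ^ 3 / 8) ≤ x * y ^ 3 := by
    calc 1 / A ^ 2 * (d2 ^ 3 / 8) ≤ x * q ^ 3 * (d2 ^ 3 / 8) := by gcongr
      _ = x * (q * d2 / 2) ^ 3 := by ring
      _ ≤ x * y ^ 3 := by gcongr
  have b3 : (1 / 2) ^ 3 * ((1 / 2) ^ 2 * (1 / 2) ^ 2) ≤
      (W ^ 20 * d2) ^ 3 * ((W ^ 20 * d3) ^ 2 * (W ^ 20 * d5) ^ 2) := by gcongr
  have b4 : W ^ 1200 ≤ A ^ 2 := by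
    calc W ^ 1200 = (W ^ 600) ^ 2 := by ring
      _ ≤ A ^ 2 := by gcongr
  have b5 : 1024 * W ^ 162 ≤ W ^ 1200 := by
    calc 1024 * W ^ 162 ≤ W * W ^ 162 := by gcongr
      _ = W ^ 163 := by ring
      _ ≤ W ^ 1200 := pow_le_pow_right₀ (by linarith) (by norm_num)
  have hw' : 0 < W ^ 140 := by positivity
  calc W ^ 25 ≤ W ^ 3 * ν ^ 2 * (1 / A ^ 2 * (d2 ^ 3 / 8)) := by
        refine le_of_mul_le_mul_left ?_ hw'
        have e2 : W ^ 140 * (W ^ 3 * ν ^ 2 * (1 / A ^ 2 * (d2 ^ 3 / 8))) = W ^ 3 * A ^ 2 / 8 *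
            ((W ^ 20 * d2) ^ 3 * ((W ^ 20 * d3) ^ 2 * (W ^ 20 * d5) ^ 2)) := by
          rw [hν]; field_simp
        rw [e2]
        calc W ^ 140 * W ^ 25 = W ^ 3 * (1024 * W ^ 162) / 8 *
              ((1 / 2) ^ 3 * ((1 / 2) ^ 2 * (1 / 2) ^ 2)) := by ring
          _ ≤ _ := by
            have := b5.trans b4
            gcongr
    _ ≤ _ := by gcongr

theorem Next_err {W A A' ν η d2 d3 d4 d5 x q : ℝ} (hW : 2 ^ 100 ≤ W) (hA : 1 ≤ A)
    (hAQ : A ^ 2 * W ^ 200 ≤ A') (hν : ν = A ^ 2 * (d3 * d5)) (h2 : 1 / 2 ≤ W ^ 20 * d2)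
    (h3 : 1 / 2 ≤ W ^ 20 * d3) (h3' : W ^ 20 * d3 ≤ 10) (h4 : 1 / 2 ≤ W ^ 20 * d4)
    (h5 : 1 / 2 ≤ W ^ 20 * d5) (h5' : W ^ 20 * d5 ≤ 10) (hη : 0 ≤ η) (hq : 0 ≤ q)
    (he : A ^ 2 * A' ^ 2 * (η * d3 * d4 * d5) = 1) (hx : q * d2 / 2 ≤ x)
    (hX : W ^ 3 * (ν⁻¹ * x) ≤ W ^ 85) : W ^ 25 * (ν * (q * η)) ≤ 1 := by
  have hW1 : (2 : ℝ) ^ 20 ≤ W := le_trans (by norm_num) hW
  have hW0 : 0 < W := lt_of_lt_of_le (by norm_num) hW1
  have hW2 : 1 ≤ W := le_trans (by norm_num) hW1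
  have hA0 : 0 < A := by linarith
  have hw : 0 < W ^ 20 := by positivity
  have p2 : 0 < d2 := Next_pos hw h2
  have p3 : 0 < d3 := Next_pos hw h3
  have p4 : 0 < d4 := Next_pos hw h4
  have p5 : 0 < d5 := Next_pos hw h5
  have hν0 : 0 < ν := by rw [hν]; positivity
  have c1 : x ≤ ν * W ^ 82 := by
    have : W ^ 3 * (ν⁻¹ * x) ≤ W ^ 3 * W ^ 82 := by rw [← pow_add]; exact hX
    have := le_of_mul_le_mul_left this (by positivity)
    rwa [inv_mul_le_iff₀ hν0] at this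
  have c2 : q ≤ 4 * ν * W ^ 102 := by
    calc q = 2 * q * (1 / 2) := by ring
      _ ≤ 2 * q * (W ^ 20 * d2) := by gcongr
      _ = 4 * W ^ 20 * (q * d2 / 2) := by ring
      _ ≤ 4 * W ^ 20 * (ν * W ^ 82) := by gcongr; exact hx.trans c1
      _ = _ := by ring
  have c3 : W ^ 40 * ν ≤ 100 * A ^ 2 := by
    calc W ^ 40 * ν = A ^ 2 * ((W ^ 20 * d3) * (W ^ 20 * d5)) := by rw [hν]; ring
      _ ≤ A ^ 2 * (10 * 10) := by gcongr
      _ = _ := by ring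
  have c4 : A ^ 4 * W ^ 400 * η ≤ 8 * W ^ 60 := by
    have hA2 : 1 ≤ A ^ 2 := one_le_pow₀ hA
    calc A ^ 4 * W ^ 400 * η = 8 * (1 * (A ^ 2 * W ^ 200) ^ 2 * (η * (1 / 2) * (1 / 2) * (1 / 2))) := by
          ring
      _ ≤ 8 * (A ^ 2 * A' ^ 2 * (η * (W ^ 20 * d3) * (W ^ 20 * d4) * (W ^ 20 * d5))) := by gcongr
      _ = 8 * W ^ 60 * (A ^ 2 * A' ^ 2 * (η * d3 * d4 * d5)) := by ring
      _ = _ := by rw [he, mul_one]
  have hw' : 0 < W ^ 480 := by positivity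
  refine le_of_mul_le_mul_left ?_ hw'
  calc W ^ 480 * (W ^ 25 * (ν * (q * η))) ≤ W ^ 480 * (W ^ 25 * (ν * (4 * ν * W ^ 102 * η))) := by
        gcongr
    _ = 4 * W ^ 127 * ((W ^ 40 * ν) ^ 2 * (W ^ 400 * η)) := by
        have e : W ^ 480 = W ^ 80 * W ^ 400 := by rw [← pow_add]
        rw [e]
        generalize W ^ 400 = Z
        ring
    _ ≤ 4 * W ^ 127 * ((100 * A ^ 2) ^ 2 * (W ^ 400 * η)) :=
        mul_le_mul_of_nonneg_left (mul_le_mul_of_nonneg_right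
          (pow_le_pow_left₀ (mul_pos (pow_pos hW0 _) hν0).le c3 2)
          (mul_nonneg (pow_pos hW0 _).le hη)) (mul_pos four_pos (pow_pos hW0 _)).le
    _ = 40000 * W ^ 127 * (A ^ 4 * W ^ 400 * η) := by ring
    _ ≤ 40000 * W ^ 127 * (8 * W ^ 60) := by gcongr
    _ = 320000 * W ^ 187 := by ring
    _ ≤ W * W ^ 187 := by gcongr; exact le_trans (by norm_num) hW1
    _ = W ^ 188 := by ring
    _ ≤ W ^ 480 := pow_le_pow_right₀ hW2 (by norm_num)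
    _ = _ := by ring

theorem Next_tri (q p x y : ℝ) : |q * x + p| ≤ |q * y + p| + |q| * |x - y| := by
  rw [← abs_mul]
  have : q * x + p = (q * y + p) + q * (x - y) := by ring
  rw [this]
  exact abs_add_le _ _

theorem Next_first (P Q : QF) {W : ℝ} (hW : 2 ^ 100 ≤ W) (hr : res P.toTr Q.toTr = 1)
    (hs : Shape W P Q) (hA : W ^ 600 ≤ P.A) (hAQ : (P.A : ℝ) ^ 2 * W ^ 200 ≤ Q.A)
    (hd : Dio Q.b (1 / (P.A : ℝ) ^ 2)) (hg : Gd W 2 P.b P.a (P.n : ℝ)⁻¹) {ν : ℝ}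
    (hν : ν = (P.A : ℝ) ^ 2 * (|P.a - Q.b| * |P.b - Q.b|)) (hν0 : 0 < ν) :
    Gd W 3 Q.b Q.a ν⁻¹ := by
  intro q p h hX
  have hW0 : 0 < W := lt_of_lt_of_le (by norm_num) hW
  have hw : 0 < W ^ 20 := by positivity
  have hn0 : (0 : ℝ) < P.n := lt_of_lt_of_le one_pos P.one_le_n
  have hA2 : (0 : ℝ) < (P.A : ℝ) ^ 2 := by have := P.Apos; positivity
  by_cases hc : |q * Q.b + p| < |(q : ℝ)| * |Q.a - Q.b| / 2
  · left
    have hq : q ≠ 0 := by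
      rintro rfl
      simp at hc
      linarith [abs_nonneg (p : ℝ)]
    refine Next_br1 hW hA hν hs.l2 hs.l3 hs.l5 (abs_nonneg _) (abs_nonneg _) (hd q p hq) ?_
    have e : (q : ℝ) * (Q.a - Q.b) = (q * Q.a + p) - (q * Q.b + p) := by ring
    have := abs_sub (q * Q.a + p : ℝ) (q * Q.b + p)
    rw [← e, abs_mul] at this
    linarith
  · push Not at hc
    obtain ⟨c1, c2⟩ := Next_cmp hw hs.l1 hs.u1 hs.l3 hs.u3 hs.l5 hs.u5
    have hn : (P.n : ℝ) = P.A ^ 2 * |P.a - P.b| ^ 2 / 4 := by rw [sq_abs]; exact P.n_eq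
    have n1 : (P.n : ℝ) ≤ 100 * ν := by rw [hn, hν]; nlinarith
    have n2 : ν ≤ 1600 * P.n := by rw [hn, hν]; nlinarith
    have er := Next_err hW P.one_le_A hAQ hν hs.l2 hs.l3 hs.u3 hs.l4 hs.l5 hs.u5 (abs_nonneg _)
      (abs_nonneg (q : ℝ)) (eta_eq P Q hr) hc hX
    have d5 : |P.b - Q.b| ≤ 20 * |Q.a - Q.b| := by
      refine le_of_mul_le_mul_left ?_ hw
      have := hs.u5
      have := hs.l2
      nlinarith
    have t1 : |q * P.b + p| ≤ 41 * |q * Q.b + p| := by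
      have := Next_tri q p P.b Q.b
      have h2 : |(q : ℝ)| * |P.b - Q.b| ≤ |(q : ℝ)| * (20 * |Q.a - Q.b|) := by gcongr
      linarith
    have t2 := Next_tri q p P.a Q.a
    have t3 := Next_tri q p Q.a P.a
    rw [abs_sub_comm Q.a P.a] at t3
    have hW25 : 0 < W ^ 25 := by positivity
    refine ok_trans (l := 2) hW (by positivity) (by positivity) (by positivity) (by positivity)
      (hg q p h) ?_ ?_ ?_ hX
    · have i1 : (P.n : ℝ)⁻¹ ≤ 1600 * ν⁻¹ := by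
        rw [← div_eq_mul_inv, inv_eq_one_div, div_le_div_iff₀ hn0 hν0]; linarith
      calc (P.n : ℝ)⁻¹ * |q * P.b + p| ≤ (1600 * ν⁻¹) * (41 * |q * Q.b + p|) := by gcongr
        _ = 65600 * (ν⁻¹ * |q * Q.b + p|) := by ring
        _ ≤ _ := by gcongr; norm_num
    · rw [div_inv_eq_mul, div_inv_eq_mul]
      have hb : 0 ≤ W ^ 25 * (|q * Q.a + p| * ν) := by positivity
      calc W ^ 25 * (|q * P.a + p| * P.n)
          ≤ W ^ 25 * ((|q * Q.a + p| + |(q : ℝ)| * |P.a - Q.a|) * (100 * ν)) := by gcongr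
        _ = 100 * (W ^ 25 * (|q * Q.a + p| * ν) + W ^ 25 * (ν * (|(q : ℝ)| * |P.a - Q.a|))) := by
          ring
        _ ≤ _ := by linarith
    · rw [div_inv_eq_mul, div_inv_eq_mul]
      have hb : 0 ≤ W ^ 25 * (|q * P.a + p| * P.n) := by positivity
      have hb2 : W ^ 25 * (|q * P.a + p| * ν) ≤ W ^ 25 * (|q * P.a + p| * (1600 * P.n)) := by
        gcongr
      calc W ^ 25 * (|q * Q.a + p| * ν)
          ≤ W ^ 25 * ((|q * P.a + p| + |(q : ℝ)| * |P.a - Q.a|) * ν) := by gcongr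
        _ = W ^ 25 * (|q * P.a + p| * ν) + W ^ 25 * (ν * (|(q : ℝ)| * |P.a - Q.a|)) := by ring
        _ ≤ _ := by linarith

/-- From one quadratic to the next pair. -/
theorem gd_next (P Q : QF) {W : ℝ} (hW : 2 ^ 100 ≤ W) (hr : res P.toTr Q.toTr = 1)
    (hs : Shape W P Q) (hA : W ^ 600 ≤ P.A) (hAQ : (P.A : ℝ) ^ 2 * W ^ 200 ≤ Q.A)
    (hd : Dio Q.b (1 / (P.A : ℝ) ^ 2)) (hg : Gd W 2 P.b P.a (P.n : ℝ)⁻¹) :
    Gd W 3 Q.a Q.b ((Q.A : ℝ) / P.A) := by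
  have hp := Next_prod P Q hr
  have hb := Next_evb P Q
  have hP := P.Apos
  have hQ := Q.Apos
  obtain ⟨D, hD⟩ : ∃ D : ℝ, D = |P.a - Q.b| * |P.b - Q.b| := ⟨_, rfl⟩
  have hD0 : 0 < D := by
    rcases (by rw [hD]; positivity : 0 ≤ D).eq_or_lt with h | h
    · rw [hb, ← hD, ← h] at hp; simp at hp
    · exact h
  have h1 := Next_first P Q hW hr hs hA hAQ hd hg (ν := (P.A : ℝ) ^ 2 * D) (by rw [hD])
    (by positivity)
  rw [← hD] at hb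
  have e : ((P.A : ℝ) ^ 2 * D)⁻¹ * (Q.A * P.A * D) = (Q.A : ℝ) / P.A := by field_simp
  rw [← e]
  refine gd_swap (by positivity) (by positivity) (fun q p h => ?_) h1
  obtain ⟨q1, p1, h1, e1, e2⟩ := Q.refl (O := P.toTr) (by rw [res_symm]; exact hr) h
  refine ⟨q1, p1, h1, ?_, ?_⟩
  · rw [e2, abs_mul, hb]
  · rw [e1, abs_mul, ← hb]
    linear_combination |q * Q.b + p| * hp

end Pool.Agent.MP_06f5ad_nt.Q2

end

section

/-!
The inductive step and the start.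
-/

namespace Pool.Agent.MP_06f5ad_nt.Q2

open Filter Topology

theorem Step_near {x : ℕ → ℝ} {x₀ : ℝ} (h : Tendsto x atTop (𝓝 x₀)) (c : ℝ) {e : ℝ} (he : 0 < e) :
    ∀ᶠ k in atTop, c * |x k - x₀| ≤ e := by
  have h1 : Tendsto (fun k => c * |x k - x₀|) atTop (𝓝 (c * |x₀ - x₀|)) :=
    ((h.sub_const x₀).abs).const_mul c
  rw [sub_self, abs_zero, mul_zero] at h1
  exact h1.eventually (ge_mem_nhds he)

theorem Step_bd (P : QF) (ha : |P.a| ≤ 1) (hb : |P.b| ≤ 1) : P.Bd P.A := by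
  have hA := P.Apos
  refine ⟨(abs_of_pos hA).le, ?_, ?_⟩
  · rw [P.B_eq, abs_div, abs_neg, abs_mul, abs_of_pos hA, abs_two]
    have := abs_add_le P.a P.b
    nlinarith
  · rw [P.C_eq, abs_mul, abs_of_pos hA, abs_mul]
    have : |P.a| * |P.b| ≤ 1 := mul_le_one₀ ha (abs_nonneg _) hb
    nlinarith

theorem Step_sgn {s : ℝ} (hs : s = 1 ∨ s = -1) (x : ℝ) : |s * x| = |x| := by
  rcases hs with rfl | rfl <;> simp

/-- Distances from a point close to the target. -/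
theorem Step_pos {W s a b x y e : ℝ} (hW : 2 ^ 100 ≤ W) (hs : s = 1 ∨ s = -1)
    (ht : |W ^ 20 * (s * (x - a)) - 3| ≤ 1 / W) (hb : s * (b - a) ≤ 0)
    (hy : W ^ 250 * |y - x| ≤ e) (he : e ≤ 1) :
    2.5 ≤ W ^ 20 * |y - a| ∧ W ^ 20 * |y - a| ≤ 3.5 ∧ 2.5 ≤ W ^ 20 * |y - b| := by
  have hW1 : (1 : ℝ) ≤ W := le_trans (by norm_num) hW
  have hW0 : (0 : ℝ) < W := by linarith
  have h1 : 1 / W ≤ 1 / 4 := one_div_le_one_div_of_le (by norm_num) (le_trans (by norm_num) hW)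
  have h2 : W ^ 20 * |y - x| ≤ 1 / 4 := by
    have h3 : (4 : ℝ) ≤ W ^ 230 := le_trans (le_trans (by norm_num) hW) (le_self_pow₀ hW1 (by norm_num))
    have h4 : W ^ 250 * |y - x| = W ^ 230 * (W ^ 20 * |y - x|) := by ring
    have h5 : 0 ≤ W ^ 20 * |y - x| := by positivity
    nlinarith
  have hp : (0 : ℝ) < W ^ 20 := by positivity
  have h3 : |W ^ 20 * (s * (y - x))| ≤ 1 / 4 := by
    rwa [abs_mul, abs_of_pos hp, Step_sgn hs]
  have h4 : W ^ 20 * |y - a| = |W ^ 20 * (s * (y - a))| := by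
    rw [abs_mul, abs_of_pos hp, Step_sgn hs]
  have h5 : W ^ 20 * |y - b| = |W ^ 20 * (s * (y - b))| := by
    rw [abs_mul, abs_of_pos hp, Step_sgn hs]
  have h6 : W ^ 20 * (s * (b - a)) ≤ 0 := mul_nonpos_of_nonneg_of_nonpos hp.le hb
  rw [abs_le] at ht h3
  rw [h4, h5]
  refine ⟨le_trans ?_ (le_abs_self _), abs_le.2 ⟨?_, ?_⟩, le_trans ?_ (le_abs_self _)⟩ <;> nlinarith

/-- The auxiliary family. -/
theorem Step_aux (P : QF) {O : Tr} (hO : O.NS) (hr : res P.toTr O = 1) {W : ℕ}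
    (hW : (2 : ℝ) ^ 100 ≤ W) {s : ℝ} (hs : s = 1 ∨ s = -1) (hb : s * (P.b - P.a) ≤ 0)
    (hπ : 1 ≤ (W : ℝ) ^ 42 * |O.ev P.b|) (hab : |P.a - P.b| ≤ 1 / 2) :
    ∃ (j u : ℤ) (φ y : ℝ) (F : ℕ → QF) (T : ℕ → ℝ),
      |(W : ℝ) ^ 20 * (s * ((1 + W * j) / (W : ℝ) ^ 22 - P.a)) - 3| ≤ 1 / (W : ℝ) ∧
      φ = O.A * P.b + O.B + u / (((W : ℤ) ^ 300 : ℤ) : ℝ) ∧ φ ≠ 0 ∧ y = P.b - O.ev P.b / φ ∧
      (W : ℝ) ^ 250 * |y - (1 + W * j) / (W : ℝ) ^ 22| ≤ 1 / 8 ∧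
      |φ - O.ev P.b / (P.b - (1 + W * j) / (W : ℝ) ^ 22)| ≤ 1 ∧
      Conv T (fun k => (F k).a) P.a ∧ Conv T (fun k => (F k).b) y ∧
      Tendsto (fun k => ((F k).A : ℝ)) atTop atTop ∧
      ∀ᶠ k in atTop, res P.toTr (F k).toTr = 1 := by
  have hW1 : (1 : ℝ) ≤ W := le_trans (by norm_num) hW
  obtain ⟨j, hj⟩ := target hW P.a hs
  set x : ℝ := (1 + W * j) / (W : ℝ) ^ 22 with hx
  obtain ⟨-, p2, p3⟩ := Step_pos (y := x) (e := 0) hW hs hj hb (by simp) zero_le_one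
  have h20 : (8 : ℝ) ≤ (W : ℝ) ^ 20 :=
    le_trans (le_trans (by norm_num) hW) (le_self_pow₀ hW1 (by norm_num))
  have h1 : |P.b - x| ≤ 1 := by
    have := abs_sub_le P.b P.a x
    rw [abs_sub_comm P.b P.a, abs_sub_comm P.a x] at this
    nlinarith [abs_nonneg (x - P.a)]
  have h2 : P.b ≠ x := by
    intro e
    rw [e, sub_self, abs_zero, mul_zero] at p3
    norm_num at p3
  obtain ⟨u, u1, u2, u3⟩ := choose_mu hW (O.A * P.b + O.B) hπ h1 h2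
  have hv : ((W : ℤ) ^ 300 : ℤ) ≠ 0 := by
    have : (W : ℤ) ≠ 0 := by exact_mod_cast (by linarith : (W : ℝ) ≠ 0)
    exact pow_ne_zero _ this
  obtain ⟨q1, -, -⟩ := Step_pos hW hs hj hb u2 (by norm_num)
  obtain ⟨F, T, c1, c2, c3, c4⟩ := gs P hO hr (u := u) hv rfl u1 rfl (by
    intro e
    rw [e, sub_self, abs_zero, mul_zero] at q1
    norm_num at q1)
  exact ⟨j, u, _, _, F, T, hj, rfl, u1, rfl, u2, u3, c1, c2, c3, c4.mono fun k h => h.1⟩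

theorem Step_scale {W A V ρ T σ d d1 d2 : ℝ} (hW : 0 < W) (hA : 0 < A) (hV : 0 ≤ V) (hρ : 0 < ρ)
    (hσ : 0 < σ) (t1 : T ≤ 4 * (V * ρ)) (t2 : 2 * (V * ρ) ≤ T)
    (s1 : 2 * (V * A * (d1 * d2)) ≤ σ * d) (s2 : σ * d ≤ 6 * (V * A * (d1 * d2)))
    (l : 1 / 2 ≤ W ^ 20 * d) (u : W ^ 20 * d ≤ 10) (l1 : 1 / 2 ≤ W ^ 20 * d1)
    (u1 : W ^ 20 * d1 ≤ 10) (l2 : 1 / 2 ≤ W ^ 20 * d2) (u2 : W ^ 20 * d2 ≤ 10) :
    A * T / (W ^ 20 * ρ) ≤ 1000 * σ ∧ σ ≤ 1000 * (A * T / (W ^ 20 * ρ)) := by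
  have hp : 0 < W ^ 20 := by positivity
  set w := W ^ 20
  have hVA : 0 ≤ V * A := by positivity
  have m1 : 1 / 4 ≤ (w * d1) * (w * d2) := by nlinarith
  have m2 : (w * d1) * (w * d2) ≤ 100 := by nlinarith
  have a1 : V * A / 2 ≤ σ * w * 10 := by
    have := mul_le_mul_of_nonneg_left s1 (show 0 ≤ w * w by positivity)
    have h2 := mul_le_mul_of_nonneg_left m1 hVA
    have h3 := mul_le_mul_of_nonneg_left u (show 0 ≤ σ * w by positivity)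
    nlinarith
  have a2 : σ * w / 2 ≤ 600 * (V * A) := by
    have := mul_le_mul_of_nonneg_left s2 (show 0 ≤ w * w by positivity)
    have h2 := mul_le_mul_of_nonneg_left m2 hVA
    have h3 := mul_le_mul_of_nonneg_left l (show 0 ≤ σ * w by positivity)
    nlinarith
  constructor
  · rw [div_le_iff₀ (by positivity)]
    have h1 := mul_le_mul_of_nonneg_left t1 hA.le
    have h2 := mul_le_mul_of_nonneg_right a1 hρ.le
    have h3 : 0 ≤ σ * w * ρ := by positivity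
    nlinarith
  · rw [← mul_div_assoc, le_div_iff₀ (by positivity)]
    have h1 := mul_le_mul_of_nonneg_left t2 hA.le
    have h2 := mul_le_mul_of_nonneg_right a2 hρ.le
    have h3 : 0 ≤ V * A * ρ := by positivity
    nlinarith

theorem Step_main {W N : ℕ} (hN : N = W + 1) {s : ℝ} {P : QF} {O : Tr} (h : Inv W s P O) {E : ℝ}
    (hE : 0 < E) : ∃ Q : QF, Inv N (-s) Q P.toTr ∧ |P.a - Q.a| ≤ E ∧ Gd W 2 Q.b Q.a (Q.n : ℝ)⁻¹ ∧
      Dio Q.b (1 / (P.A : ℝ) ^ 2) := by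
  have hW := h.big
  have hW1 : (1 : ℝ) ≤ W := le_trans (by norm_num) hW
  have hW0 : (0 : ℝ) < W := by linarith
  have hc : (N : ℝ) = W + 1 := by rw [hN]; push_cast; ring
  have hW' : (2 : ℝ) ^ 100 ≤ (N : ℝ) := by rw [hc]; linarith
  have hs' : -s = 1 ∨ -s = -1 := by rcases h.sgn with e | e <;> simp [e]
  have hp : (0 : ℝ) < (W : ℝ) ^ 20 := by positivity
  have h20 : (100 : ℝ) ≤ (W : ℝ) ^ 20 :=
    le_trans (le_trans (by norm_num) hW) (le_self_pow₀ hW1 (by norm_num))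
  have hpw : ∀ k ≤ 1000, (N : ℝ) ^ k ≤ 2 * (W : ℝ) ^ k := fun k hk =>
    (pow_le_pow_left₀ (by linarith) (by linarith) k).trans (succ_pow hW hk)
  have hpw' : ∀ k, (W : ℝ) ^ k ≤ (N : ℝ) ^ k := fun k =>
    pow_le_pow_left₀ hW0.le (by linarith) k
  have hsb : 0 ≤ s * (P.b - P.a) := by
    by_contra hn
    have := mul_neg_of_pos_of_neg hp (not_le.1 hn)
    linarith [h.dlo]
  have hd : |P.a - P.b| = s * (P.b - P.a) := by
    rw [abs_sub_comm, ← Step_sgn h.sgn, abs_of_nonneg hsb]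
  have d1 : 2 ≤ (W : ℝ) ^ 20 * |P.a - P.b| := by rw [hd]; exact h.dlo
  have d2 : (W : ℝ) ^ 20 * |P.a - P.b| ≤ 4 := by rw [hd]; exact h.dhi
  have hab : |P.a - P.b| ≤ 1 / 25 := by nlinarith [abs_nonneg (P.a - P.b)]
  have ha : |P.a| ≤ 1 / 3 := by
    have := h.loc
    have : 0 < 1 / (W : ℝ) := by positivity
    linarith
  have hb : |P.b| ≤ 1 / 2 := by
    have := abs_sub_abs_le_abs_sub P.b P.a
    rw [abs_sub_comm] at this
    linarith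
  have hA := P.Apos
  have hA2 : (0 : ℝ) < (P.A : ℝ) ^ 2 := by positivity
  obtain ⟨j, u, φ, y, F, T, tg, e1, e2, e3, r1, r2, c1, c2, c3, c4⟩ :=
    Step_aux P h.nsO h.res1 hW' hs' (by linarith) (by
      have h1 := h.evO
      have h2 : (W : ℝ) ^ 41 ≤ (N : ℝ) ^ 42 := by
        exact (pow_le_pow_right₀ hW1 (by norm_num)).trans (hpw' 42)
      exact h1.trans (mul_le_mul_of_nonneg_right h2 (abs_nonneg _))) (by linarith)
  set x : ℝ := (1 + N * j) / (N : ℝ) ^ 22 with hx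
  have pos : ∀ z, (N : ℝ) ^ 250 * |z - x| ≤ 1 →
      2.5 ≤ (N : ℝ) ^ 20 * |z - P.a| ∧ (N : ℝ) ^ 20 * |z - P.a| ≤ 3.5 ∧
        2.5 ≤ (N : ℝ) ^ 20 * |z - P.b| := fun z hz =>
    Step_pos hW' hs' tg (by linarith) hz le_rfl
  have hdy : Dio y (8 / (P.A : ℝ) ^ 2) := by
    obtain ⟨H, H1, H2, H3⟩ := h.ht
    refine dio_y P h.nsO hW' e1 e2 e3 H1 H2 ?_ (by linarith) hb ?_ ?_ r2
    · have := mul_le_mul_of_nonneg_left (hpw 700 (by norm_num)) (sq_nonneg H)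
      linarith
    · have h1 := (pos y (by linarith)).2.1
      have h2 := abs_sub_abs_le_abs_sub y P.a
      have h3 := hpw' 20
      nlinarith [abs_nonneg (y - P.a)]
    · have := (pos x (by simp)).2.2
      rw [abs_sub_comm]
      linarith
  obtain ⟨k₁, k1, k2, k3⟩ := (c4.and ((Step_near c2.tendsto ((N : ℝ) ^ 250)
    (e := 1 / 8) (by norm_num)).and (c2.dio hdy (κ' := 4 / (P.A : ℝ) ^ 2)
      (div_lt_div_of_pos_right (by norm_num) hA2)))).exists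
  set Q := F k₁ with hQ
  obtain ⟨ε₁, U₁, V₁, hε₁, p₁⟩ := pell P one_ne_zero
  obtain ⟨ε₂, U₂, V₂, hε₂, p₂⟩ := pell Q one_ne_zero
  obtain ⟨b1, b2⟩ := bfam P Q k1 hε₂ fun k => ⟨(p₂ k).1, (p₂ k).2.2⟩
  have hρ : 0 < |Q.r| := abs_pos.2 Q.r_ne
  have hind : ∀ l k : ℕ, 0 < k → ε₁ ^ l ≠ ε₂ ^ k := by
    intro l k hk e
    have h0 := indep P Q k1 (p₁ l).1 (p₂ k).1 (by rw [(p₁ l).2.2, (p₂ k).2.2, e])
    have h1 := (p₂ k).1
    have h2 := (p₂ k).2.2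
    rw [h0] at h1 h2
    have h3 : (U₂ k : ℝ) ^ 2 = 1 := by exact_mod_cast (by simpa using h1 : U₂ k ^ 2 = 1)
    have h4 : 1 < ε₂ ^ k := one_lt_pow₀ hε₂ hk.ne'
    have h5 : (U₂ k : ℝ) = ε₂ ^ k := by simpa using h2
    nlinarith
  set c : ℝ := (W : ℝ) ^ 56 * (P.A / ((W : ℝ) ^ 20 * |Q.r|)) with hcdef
  have hc0 : 0 < c := by positivity
  have hbig : ∀ᶠ k in atTop, (W : ℝ) ^ 200 ≤ c * ε₂ ^ k :=
    ((tendsto_pow_atTop_atTop_of_one_lt hε₂).const_mul_atTop hc0).eventually_ge_atTop _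
  obtain ⟨i, ⟨l, al1, al2⟩, ⟨v0, f0, t1, t2⟩, i2, i3, i4⟩ :=
    ((align hε₁ hε₂ hind hc0).and_eventually (b2.and
      ((Step_near b1.tendsto ((N : ℝ) ^ 250) (e := 1 / 8) (by norm_num)).and
      ((b1.dio k3 (κ' := 2 / (P.A : ℝ) ^ 2) (div_lt_div_of_pos_right (by norm_num) hA2)).and
      hbig)))).exists
  set y₂ : ℝ := P.b - Q.ev P.b / (Q.A * P.b + Q.B + ((-U₂ i : ℤ) : ℝ) / V₂ i) with hy₂
  have r3 : (N : ℝ) ^ 250 * |y₂ - x| ≤ 1 / 2 := by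
    have h1 : |y₂ - x| ≤ |y₂ - Q.b| + |Q.b - y| + |y - x| := by
      have := abs_sub_le y₂ Q.b y
      have := abs_sub_le y₂ y x
      linarith
    have := mul_le_mul_of_nonneg_left h1 (show 0 ≤ (N : ℝ) ^ 250 by positivity)
    linarith
  obtain ⟨g1, g2, g3⟩ := pos y₂ (by linarith)
  have hya : y₂ ≠ P.a := by
    intro e
    rw [e, sub_self, abs_zero, mul_zero] at g1
    norm_num at g1
  set σ : ℝ := P.A * ε₂ ^ i / ((W : ℝ) ^ 20 * |Q.r|) with hσ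
  have hε0 : 0 < ε₂ ^ i := by positivity
  have hσ0 : 0 < σ := by positivity
  have ht0 : 0 < ε₁ ^ l := by positivity
  have hcσ : c * ε₂ ^ i = (W : ℝ) ^ 56 * σ := by rw [hcdef, hσ]; ring
  have hG1 : Gd W 1 P.a y₂ σ := by
    obtain ⟨j₀, hj₀⟩ := h.rat
    have h5 : (W : ℝ) ^ 56 ≤ ε₁ ^ l / σ := by rw [le_div_iff₀ hσ0]; linarith
    have h6 : ε₁ ^ l / σ ≤ 2 * (W : ℝ) ^ 56 := by rw [div_le_iff₀ hσ0]; linarith
    have h7 := gd_align P (y := y₂) hW (p₁ l).1 (p₁ l).2.2.symm (div_pos ht0 hσ0) h6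
      (i4.trans al1) ?_ ?_ (fresh hW d1 d2 hj₀ h.dio h5 h6)
    · rwa [div_div_cancel₀ ht0.ne'] at h7
    · have := mul_le_mul_of_nonneg_right (hpw 20 (by norm_num)) (abs_nonneg (y₂ - P.a))
      refine le_of_mul_le_mul_left ?_ hp
      linarith
    · have := mul_le_mul_of_nonneg_right (hpw' 20) (abs_nonneg (y₂ - P.a))
      refine le_of_mul_le_mul_left ?_ hp
      linarith
  obtain ⟨G, T', m1, m2, m3, m4⟩ := gs P Q.ns k1 (u := -U₂ i) v0 rfl f0 hy₂ hya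
  have hinv := inv_ev P (κ := 1 / (W : ℝ)) hW' hs' P.one_le_A
    (Step_bd P (by linarith) (by linarith))
    (by
      have := h.loc
      have h2 : 1 / (N : ℝ) < 1 / (W : ℝ) :=
        one_div_lt_one_div_of_lt hW0 (by rw [hc]; linarith)
      linarith) h.dio (one_div_lt_one_div_of_lt hW0 (by rw [hc]; linarith)) m1 m2.tendsto m3
    (m4.mono fun k h => h.1) r3 tg (by linarith)
  obtain ⟨k, ⟨n1, n2⟩, n3, n4, n5, n6, n7⟩ := (m4.and (hinv.and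
    ((Step_near m1.tendsto 1 hE).and ((Step_near m1.tendsto ((W : ℝ) ^ 20) (e := 1 / 4)
      (by norm_num)).and ((m2.dio i3 (κ' := 1 / (P.A : ℝ) ^ 2)
        (div_lt_div_of_pos_right (by norm_num) hA2)).and
        (gd_limit hW m1 m2.tendsto hya.symm hσ0 hG1)))))).exists
  refine ⟨G k, n3, by rw [abs_sub_comm]; linarith, ?_, n6⟩
  obtain ⟨U', hU'⟩ := n2 (by rw [neg_sq]; exact (p₂ i).1)
  obtain ⟨σ₁, s0, s1, s2, s3⟩ := gd_w P (G k) n1 hU' v0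
  have sh := shape hW0.le le_rfl (hc ▸ hpw 20 (by norm_num)) h (hN ▸ n3) (by rwa [abs_sub_comm])
  obtain ⟨w1, w2⟩ := Step_scale hW0 hA (abs_nonneg _) hρ s0 t1 t2 s1 s2 sh.l2 sh.u2 sh.l3 sh.u3
    sh.l5 sh.u5
  exact s3 W 2 (n7 σ₁ w1 w2)

theorem step {W : ℕ} {s : ℝ} {P : QF} {O : Tr} (h : Inv W s P O) {E : ℝ} (hE : 0 < E) :
    ∃ Q : QF, Inv (W + 1) (-s) Q P.toTr ∧ |P.a - Q.a| ≤ E ∧ Gd W 2 Q.b Q.a (Q.n : ℝ)⁻¹ ∧
      Dio Q.b (1 / (P.A : ℝ) ^ 2) :=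
  Step_main rfl h hE

/-- The first quadratic `7 x ^ 2 + 6 x + 1`. -/
noncomputable def Step_P : QF where
  A := 7
  B := 3
  C := 1
  a := (-3 + √2) / 7
  b := (-3 - √2) / 7
  pos := by norm_num
  sum := by push_cast; ring
  prod := by
    have := Real.sq_sqrt (show (0 : ℝ) ≤ 2 by norm_num)
    push_cast; nlinarith
  ns := by unfold Tr.NS Tr.n; norm_num

theorem init : ∃ (W : ℕ) (P : QF) (O : Tr), Inv W 1 P O := by
  obtain ⟨κ, hκ, hd⟩ := Step_P.ba_a.dio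
  obtain ⟨W, hW'⟩ := exists_nat_gt (max (2 ^ 100) (1 / κ))
  have hW : (2 : ℝ) ^ 100 ≤ W := (le_max_left _ _).trans hW'.le
  have hW1 : (100 : ℝ) ≤ W := le_trans (by norm_num) hW
  have hκ' : 1 / (W : ℝ) < κ := by
    rw [one_div_lt (by linarith) hκ]; exact (le_max_right _ _).trans_lt hW'
  have s2 := Real.sq_sqrt (show (0 : ℝ) ≤ 2 by norm_num)
  have s0 := Real.sqrt_nonneg 2
  have s1 : 1.4 ≤ √2 := by nlinarith
  have s3 : √2 ≤ 1.5 := by nlinarith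
  have ea : Step_P.a = (-3 + √2) / 7 := rfl
  have eb : Step_P.b = (-3 - √2) / 7 := rfl
  have hb : (1 : ℝ) * (Step_P.b - Step_P.a) ≤ 0 := by rw [ea, eb]; linarith
  have ha : |Step_P.a| ≤ 1 / 4 := by rw [ea, abs_le]; constructor <;> linarith
  have hb1 : |Step_P.b| ≤ 1 := by rw [eb, abs_le]; constructor <;> linarith
  obtain ⟨j, u, φ, y, F, T, tg, -, -, -, r1, -, c1, c2, c3, c4⟩ :=
    Step_aux Step_P (O := ⟨6, 3, 1⟩) (by unfold Tr.NS Tr.n; norm_num)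
      (by unfold res Step_P; norm_num) hW (Or.inl rfl) hb (by
        have h1 : (⟨6, 3, 1⟩ : Tr).ev Step_P.b ≤ -1 / 10 := by
          unfold Tr.ev; rw [eb]; push_cast; nlinarith
        have h2 : 1 / 10 ≤ |(⟨6, 3, 1⟩ : Tr).ev Step_P.b| := le_trans (by linarith) (neg_le_abs _)
        have h3 : (W : ℝ) ≤ (W : ℝ) ^ 42 := le_self_pow₀ (by linarith) (by norm_num)
        nlinarith) (by rw [ea, eb, abs_le]; constructor <;> linarith)
  obtain ⟨k, hk⟩ := (inv_ev Step_P hW (Or.inl rfl) Step_P.one_le_A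
    (Step_bd _ (by linarith) hb1) (by
      have : 1 / (W : ℝ) ≤ 1 / 100 := one_div_le_one_div_of_le (by norm_num) hW1
      linarith) hd hκ' c1 c2.tendsto c3 c4 (by linarith) tg (by
      have := (Step_pos hW (Or.inl rfl) tg hb r1 (by norm_num)).2.2
      linarith)).exists
  exact ⟨W, _, _, hk⟩

end Pool.Agent.MP_06f5ad_nt.Q2

end

section

/-!
Cubics near a pair.
-/

namespace Pool.Agent.MP_06f5ad_nt.Q2

open Filter Topology

lemma pair_mul {a b X Y : ℝ} (ha : |a| ≤ X) (hb : |b| ≤ Y) : |a * b| ≤ X * Y := by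
  rw [abs_mul]
  exact mul_le_mul ha hb (abs_nonneg _) ((abs_nonneg _).trans ha)

lemma pair_lip {a b c d X x y : ℝ} (ha : |a| ≤ X) (hb : |b| ≤ X) (hc : |c| ≤ X) (hx : |x| ≤ 1)
    (hy : |y| ≤ 1) (h : a * x ^ 3 + b * x ^ 2 + c * x + d = 0) :
    |a * y ^ 3 + b * y ^ 2 + c * y + d| ≤ 6 * X * |y - x| := by
  have e : a * y ^ 3 + b * y ^ 2 + c * y + d =
      (a * (y * y) + a * (x * y) + a * (x * x) + b * x + b * y + c) * (y - x) := by
    linear_combination h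
  rw [e]
  refine pair_mul (abs_le.mpr ?_) le_rfl
  have h1 := abs_le.mp (pair_mul ha (pair_mul hy hy))
  have h2 := abs_le.mp (pair_mul ha (pair_mul hx hy))
  have h3 := abs_le.mp (pair_mul ha (pair_mul hx hx))
  have h4 := abs_le.mp (pair_mul hb hx)
  have h5 := abs_le.mp (pair_mul hb hy)
  have h6 := abs_le.mp hc
  constructor <;> linarith

lemma pair_a {u d d' z h w : ℝ} (hd : 0 < d) (hz : z ≤ d') (hu : 0 ≤ u) (hh : 0 ≤ h)
    (H : d * d' * u ≤ 6 * h * w) (hw : w ≤ 3 / 2 * d) : u * z ≤ 9 * h := by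
  have h1 : d * (d' * u) ≤ d * (9 * h) := by nlinarith [mul_le_mul_of_nonneg_left hw hh]
  have h2 := le_of_mul_le_mul_left h1 hd
  nlinarith [mul_le_mul_of_nonneg_left hz hu]

lemma pair_b {W z s A h η e d3 d4 d5 ux vx : ℝ} (hz : 0 ≤ z) (hs : 0 ≤ s) (he : 0 ≤ e)
    (hux : 0 ≤ ux) (l3 : 0 ≤ d3) (u3 : d3 ≤ 20 * z) (l5 : 0 ≤ d5) (u5 : d5 ≤ 20 * z)
    (hη : A ^ 2 * (s * A) ^ 2 * (η * d3 * d4 * d5) = 1) (hK : e * (h * (s * A)) ^ 4 ≤ W)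
    (H : η * d4 * vx ≤ 84 * (s * e * z * ux)) : s * vx * h ^ 4 ≤ 33600 * (W * z ^ 3 * ux) := by
  have h1 : d3 * d5 ≤ 20 * z * (20 * z) := mul_le_mul u3 u5 l5 (by positivity)
  calc s * vx * h ^ 4 = s ^ 3 * A ^ 4 * h ^ 4 * (d3 * d5 * (η * d4 * vx)) := by
        linear_combination (-(s * vx * h ^ 4)) * hη
    _ ≤ s ^ 3 * A ^ 4 * h ^ 4 * (20 * z * (20 * z) * (84 * (s * e * z * ux))) := by
        refine mul_le_mul_of_nonneg_left ?_ (by positivity)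
        exact (mul_le_mul_of_nonneg_left H (by positivity)).trans
          (mul_le_mul_of_nonneg_right h1 (by positivity))
    _ = 33600 * (e * (h * (s * A)) ^ 4 * z ^ 3 * ux) := by ring
    _ ≤ 33600 * (W * z ^ 3 * ux) := by gcongr

lemma pair_c {W z s A h e ux vx vb Y k : ℝ} (hz : 0 < z) (hs : 0 ≤ s) (hh : 0 ≤ h) (he : 0 ≤ e)
    (hvb : 0 ≤ vb) (hez : e ≤ z / 2) (h1 : vb ≤ vx + k * e) (h2 : k * z ≤ vb + Y * s)
    (hY : Y * z ≤ 126 * h) (hA : 1 ≤ s ^ 2 * A ^ 4 * z ^ 5) (hK : e * (h * (s * A)) ^ 4 ≤ W)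
    (H : s * vx * h ^ 4 ≤ 33600 * (W * z ^ 3 * ux)) :
    s * vb * h ^ 4 ≤ 67200 * (W * z ^ 3 * ux) + 252 * (W * z ^ 3 * h) := by
  have a1 : vb * z ≤ 2 * (vx * z) + 2 * (e * (Y * s)) := by
    nlinarith [mul_le_mul_of_nonneg_right h1 hz.le, mul_le_mul_of_nonneg_left h2 he,
      mul_le_mul_of_nonneg_left hez hvb]
  have a2 : e * s ^ 2 * h ^ 4 ≤ W * z ^ 5 :=
    calc e * s ^ 2 * h ^ 4 ≤ e * s ^ 2 * h ^ 4 * (s ^ 2 * A ^ 4 * z ^ 5) :=
          le_mul_of_one_le_right (by positivity) hA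
      _ = e * (h * (s * A)) ^ 4 * z ^ 5 := by ring
      _ ≤ W * z ^ 5 := by gcongr
  refine le_of_mul_le_mul_right ?_ (pow_pos hz 2)
  calc s * vb * h ^ 4 * z ^ 2 = vb * z * (s * h ^ 4 * z) := by ring
    _ ≤ (2 * (vx * z) + 2 * (e * (Y * s))) * (s * h ^ 4 * z) := by gcongr
    _ = 2 * (s * vx * h ^ 4) * z ^ 2 + 2 * (e * s ^ 2 * h ^ 4) * (Y * z) := by ring
    _ ≤ 2 * (33600 * (W * z ^ 3 * ux)) * z ^ 2 + 2 * (e * s ^ 2 * h ^ 4) * (126 * h) := by gcongr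
    _ ≤ 2 * (33600 * (W * z ^ 3 * ux)) * z ^ 2 + 2 * (W * z ^ 5) * (126 * h) := by gcongr
    _ = _ := by ring

lemma pair_d {W z h ux T : ℝ} (hW : 0 ≤ W) (hz1 : z ≤ 1) (hh : 0 < h)
    (hu : ux * z ≤ 36 * h) (H : T * h ^ 4 ≤ 67200 * (W * z ^ 3 * ux) + 252 * (W * z ^ 3 * h)) :
    T * h ^ 3 ≤ 2500000 * (W * z ^ 2) := by
  refine le_of_mul_le_mul_right ?_ hh
  have a1 : W * z ^ 2 * (ux * z) ≤ W * z ^ 2 * (36 * h) := by gcongr
  have a2 : W * z ^ 2 * h * z ≤ W * z ^ 2 * h * 1 := by gcongr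
  have a3 : 0 ≤ W * z ^ 2 * h := by positivity
  nlinarith

lemma pair_e {W z h T : ℝ} (hW : 2 ^ 100 ≤ W) (hz : 0 < z) (hWz : 2 * W ^ 20 * z = 1) (hT : 0 ≤ T)
    (hh : z ^ 2 ≤ 18 * h) (H : T * h ^ 3 ≤ 2500000 * (W * z ^ 2)) : T ≤ W ^ 82 := by
  have hW0 : 0 ≤ W := le_trans (by norm_num) hW
  have a1 : T * z ^ 4 ≤ 18 ^ 3 * 2500000 * W := by
    refine le_of_mul_le_mul_right ?_ (pow_pos hz 2)
    calc T * z ^ 4 * z ^ 2 = T * (z ^ 2) ^ 3 := by ring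
      _ ≤ T * (18 * h) ^ 3 := by gcongr
      _ = 18 ^ 3 * (T * h ^ 3) := by ring
      _ ≤ 18 ^ 3 * (2500000 * (W * z ^ 2)) := by gcongr
      _ = _ := by ring
  calc T = T * (2 * W ^ 20 * z) ^ 4 := by rw [hWz]; ring
    _ = T * z ^ 4 * (16 * W ^ 80) := by ring
    _ ≤ 18 ^ 3 * 2500000 * W * (16 * W ^ 80) := by gcongr
    _ = 18 ^ 3 * 2500000 * 16 * W ^ 81 := by ring
    _ ≤ W * W ^ 81 := mul_le_mul_of_nonneg_right (le_trans (by norm_num) hW) (by positivity)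
    _ = _ := by ring

lemma pair_f {W z h T Y : ℝ} (hW : 2 ^ 100 ≤ W) (hz : 0 < z) (hWz : 2 * W ^ 20 * z = 1)
    (hT : 0 ≤ T) (hY0 : 0 ≤ Y) (hY : Y * z ≤ 126 * h) (H : T * h ^ 3 ≤ 2500000 * (W * z ^ 2)) :
    W ^ 3 * T * Y ^ 3 < W ^ 25 := by
  have hW0 : 0 < W := lt_of_lt_of_le (by norm_num) hW
  have a1 : T * Y ^ 3 * z ≤ 126 ^ 3 * 2500000 * W := by
    refine le_of_mul_le_mul_right ?_ (pow_pos hz 2)
    calc T * Y ^ 3 * z * z ^ 2 = T * (Y * z) ^ 3 := by ring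
      _ ≤ T * (126 * h) ^ 3 := by gcongr
      _ = 126 ^ 3 * (T * h ^ 3) := by ring
      _ ≤ 126 ^ 3 * (2500000 * (W * z ^ 2)) := by gcongr
      _ = _ := by ring
  calc W ^ 3 * T * Y ^ 3 = W ^ 3 * T * Y ^ 3 * (2 * W ^ 20 * z) := by rw [hWz, mul_one]
    _ = T * Y ^ 3 * z * (2 * W ^ 23) := by ring
    _ ≤ 126 ^ 3 * 2500000 * W * (2 * W ^ 23) := by gcongr
    _ = 126 ^ 3 * 2500000 * 2 * W ^ 24 := by ring
    _ < W * W ^ 24 := mul_lt_mul_of_pos_right (lt_of_lt_of_le (by norm_num) hW) (by positivity)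
    _ = _ := by ring

lemma pair_g {W z s vb Y k : ℝ} (hW : 2 ^ 100 ≤ W) (hWz : 2 * W ^ 20 * z = 1) (hs : W ^ 200 ≤ s)
    (hY0 : 0 ≤ Y) (hT : s * vb ≤ W ^ 82) (hY : W ^ 24 * Y ≤ W ^ 3) (hk : k * z ≤ vb + Y * s) :
    Y * s + k * (3 / 2) ≤ s / 50 := by
  have hW0 : 0 < W := lt_of_lt_of_le (by norm_num) hW
  have hW1 : 1 ≤ W := le_trans (by norm_num) hW
  have hs0 : 0 < s := lt_of_lt_of_le (by positivity) hs
  have a1 : 800 * (W ^ 20 * Y) ≤ 1 := by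
    refine le_of_mul_le_mul_left ?_ (pow_pos hW0 3)
    calc W ^ 3 * (800 * (W ^ 20 * Y)) = 800 * (W ^ 23 * Y) := by ring
      _ ≤ W * (W ^ 23 * Y) :=
        mul_le_mul_of_nonneg_right (le_trans (by norm_num) hW) (by positivity)
      _ = W ^ 24 * Y := by ring
      _ ≤ W ^ 3 * 1 := by rwa [mul_one]
  have a2 : 800 * (W ^ 20 * vb) ≤ s := by
    refine le_of_mul_le_mul_left ?_ hs0
    calc s * (800 * (W ^ 20 * vb)) = 800 * W ^ 20 * (s * vb) := by ring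
      _ ≤ W * W ^ 20 * W ^ 82 := by
        refine (mul_le_mul_of_nonneg_left hT (by positivity)).trans ?_
        gcongr
        exact le_trans (by norm_num) hW
      _ = W ^ 103 := by ring
      _ ≤ W ^ 400 := pow_le_pow_right₀ hW1 (by norm_num)
      _ = W ^ 200 * W ^ 200 := by ring
      _ ≤ s * s := by gcongr
  have a3 : k ≤ 2 * (W ^ 20 * vb) + 2 * (W ^ 20 * Y * s) :=
    calc k = k * (2 * W ^ 20 * z) := by rw [hWz, mul_one]
      _ = 2 * W ^ 20 * (k * z) := by ring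
      _ ≤ 2 * W ^ 20 * (vb + Y * s) := by gcongr
      _ = _ := by ring
  have a4 : 800 * (W ^ 20 * Y) * s ≤ 1 * s := by gcongr
  have a5 : 1 * (Y * s) ≤ W ^ 20 * (Y * s) :=
    mul_le_mul_of_nonneg_right (one_le_pow₀ hW1) (by positivity)
  nlinarith

lemma pair_h {W z h ux T : ℝ} (hW : 2 ^ 100 ≤ W) (hz : 0 < z) (hWz : 2 * W ^ 20 * z = 1)
    (hT : 0 ≤ T) (hh : 1 / 20 ≤ h) (hu : ux ≤ 20 * h)
    (H : T * h ^ 4 ≤ 67200 * (W * z ^ 3 * ux) + 252 * (W * z ^ 3 * h)) : W ^ 58 * T < 1 := by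
  have hW0 : 0 < W := lt_of_lt_of_le (by norm_num) hW
  have hh0 : 0 < h := lt_of_lt_of_le (by norm_num) hh
  have a1 : T * h ^ 3 ≤ 1344252 * (W * z ^ 3) := by
    refine le_of_mul_le_mul_right ?_ hh0
    have : W * z ^ 3 * ux ≤ W * z ^ 3 * (20 * h) := by gcongr
    nlinarith
  have a2 : T * (1 / 20) ^ 3 ≤ T * h ^ 3 := by gcongr
  refine lt_of_mul_lt_mul_left ?_ hW0.le
  calc W * (W ^ 58 * T) = W ^ 59 * T := by ring
    _ ≤ W ^ 59 * (8000 * 1344252 * (W * z ^ 3)) := by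
      refine mul_le_mul_of_nonneg_left ?_ (by positivity)
      linarith
    _ = 1000 * 1344252 * (2 * W ^ 20 * z) ^ 3 := by ring
    _ < W * 1 := by
      rw [hWz, mul_one]
      exact lt_of_lt_of_le (by norm_num) hW

lemma pair_lin (q p x y : ℝ) : |q * y + p| ≤ |q * x + p| + |q| * |y - x| := by
  rw [← abs_mul, show q * y + p = q * x + p + q * (y - x) by ring]
  exact abs_add_le _ _

lemma pair_dif (q p x y : ℝ) : |q| * |x - y| ≤ |q * x + p| + |q * y + p| := by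
  rw [← abs_mul, show q * (x - y) = q * x + p - (q * y + p) by ring]
  exact abs_sub _ _

lemma pair_i {q p a b c x z h : ℝ} (hz : 0 < z) (hz1 : z ≤ 1) (l1 : z ≤ |a - b|)
    (hx : |x - a| ≤ 3 / 2 * z) (f1 : |q * b + p| * z ≤ 9 * h) (f1' : |q * a + p| * z ≤ 9 * h)
    (h0 : 1 ≤ |q| ∨ 1 ≤ |q * c + p| ∧ q = 0) : |q * x + p| * z ≤ 36 * h ∧ z ^ 2 ≤ 18 * h := by
  have f2 : |q| * z * z ≤ 18 * h := by
    have := (mul_le_mul_of_nonneg_left l1 (abs_nonneg _)).trans (pair_dif q p a b)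
    nlinarith
  constructor
  · have a1 := pair_lin q p a x
    have a2 := mul_le_mul_of_nonneg_left hx (abs_nonneg q)
    nlinarith
  · rcases h0 with h0 | ⟨h0, rfl⟩
    · nlinarith [mul_pos hz hz]
    · rw [zero_mul] at h0 f1
      nlinarith

lemma pair_j {q p x M : ℝ} (hx : |x| ≤ 1) (h1 : |q * 1 + p| ≤ M) (h2 : |q * (-1) + p| ≤ M) :
    |q * x + p| ≤ M := by
  obtain ⟨a1, a2⟩ := abs_le.mp h1
  obtain ⟨a3, a4⟩ := abs_le.mp h2
  obtain ⟨a5, a6⟩ := abs_le.mp hx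
  exact abs_le.mpr ⟨by nlinarith, by nlinarith⟩

lemma pair_k {a b c d X y : ℝ} (ha : |a| ≤ X) (hb : |b| ≤ X) (hc : |c| ≤ X) (hd : |d| ≤ X)
    (hy : |y| ≤ 1) : |a * y ^ 3 + b * y ^ 2 + c * y + d| ≤ 4 * X := by
  have a3 := abs_le.mp (pair_mul ha (pair_mul hy (pair_mul hy hy)))
  have a2 := abs_le.mp (pair_mul hb (pair_mul hy hy))
  have a1 := abs_le.mp (pair_mul hc hy)
  have a0 := abs_le.mp hd
  rw [pow_three, sq]
  exact abs_le.mpr ⟨by linarith, by linarith⟩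

lemma pair_z {W s A z : ℝ} (hW : 2 ^ 100 ≤ W) (hz : 0 < z) (hWz : 2 * W ^ 20 * z = 1)
    (hs : 1 ≤ s) (hA : W ^ 600 ≤ A) : z ≤ 1 ∧ 1 ≤ s ^ 2 * A ^ 4 * z ^ 5 := by
  have hW1 : 1 ≤ W := le_trans (by norm_num) hW
  refine ⟨by nlinarith [one_le_pow₀ (n := 20) hW1], ?_⟩
  calc (1 : ℝ) = (2 * W ^ 20 * z) ^ 5 := by rw [hWz, one_pow]
    _ = 1 * (32 * W ^ 100) * z ^ 5 := by ring
    _ ≤ s ^ 2 * A ^ 4 * z ^ 5 := by
      gcongr
      · exact one_le_pow₀ hs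
      · calc 32 * W ^ 100 ≤ W * W ^ 100 :=
            mul_le_mul_of_nonneg_right (le_trans (by norm_num) hW) (by positivity)
          _ = W ^ 101 := by ring
          _ ≤ W ^ 600 := pow_le_pow_right₀ hW1 (by norm_num)
          _ ≤ A := hA
          _ ≤ A ^ 4 := le_self_pow₀ ((one_le_pow₀ hW1).trans hA) (by norm_num)

lemma pair_tri (a x y : ℝ) : |y - x| ≤ |y - a| + |x - a| ∧ |y - a| - |x - a| ≤ |x - y| :=
  ⟨by linarith [abs_sub_le y a x, abs_sub_comm a x],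
    by linarith [abs_sub_le y x a, abs_sub_comm y x]⟩

lemma pair_end {A s h y a b a' b' L L' R : ℝ} (hA : 0 < A) (hs : 0 < s) (hy : |y| = 1)
    (ha : |a| ≤ 1 / 2) (hb : |b| ≤ 1 / 2) (ha' : |a'| ≤ 1 / 2) (hb' : |b'| ≤ 1 / 2)
    (hR : |R| ≤ 4 * (h * (s * A))) (hL : |L| ≤ s / 50)
    (e : R = A * (y - a) * (y - b) * L + s * A * (y - a') * (y - b') * L') :
    |L'| ≤ 16 * h + 1 / 5 := by
  have u : ∀ c : ℝ, |c| ≤ 1 / 2 → |y - c| ≤ 3 / 2 := fun c hc => by linarith [abs_sub y c]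
  have l : ∀ c : ℝ, |c| ≤ 1 / 2 → 1 / 2 ≤ |y - c| := fun c hc => by
    linarith [abs_sub_abs_le_abs_sub y c]
  have h1 := pair_mul (pair_mul (pair_mul (abs_of_pos hA).le (u a ha)) (u b hb)) hL
  have h2 : |s * A * (y - a') * (y - b') * L'| ≤ |R| + |A * (y - a) * (y - b) * L| := by
    rw [show s * A * (y - a') * (y - b') * L' = R - A * (y - a) * (y - b) * L by rw [e]; ring]
    exact abs_sub _ _
  have h3 : s * A * (1 / 2) * (1 / 2) * |L'| ≤ |s * A * (y - a') * (y - b') * L'| := by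
    rw [abs_mul, abs_mul, abs_mul, abs_of_pos (mul_pos hs hA)]
    have := l a' ha'
    have := l b' hb'
    gcongr
  refine le_of_mul_le_mul_left ?_ (mul_pos hs hA)
  nlinarith [mul_pos hs hA]

theorem pair (P Q : QF) {W : ℝ} (hW : 2 ^ 100 ≤ W) (hr : res P.toTr Q.toTr = 1)
    (hs : Shape W P Q) (hA : W ^ 600 ≤ P.A) (hAQ : (P.A : ℝ) ^ 2 * W ^ 200 ≤ Q.A)
    (hg : Gd W 3 Q.a Q.b ((Q.A : ℝ) / P.A)) : PairOK W P Q := by
  intro c X x hX hc hx he hK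
  obtain ⟨q, p, q', p', e3, e2, e1, e0⟩ := sylvester hr c
  by_cases h0' : q' = 0 ∧ p' = 0
  · obtain ⟨rfl, rfl⟩ := h0'
    exact Or.inl ⟨q, p, by simpa using e3, by simpa using e2, by simpa using e1, by simpa using e0⟩
  by_cases h0 : q = 0 ∧ p = 0
  · obtain ⟨rfl, rfl⟩ := h0
    exact Or.inr ⟨q', p', by simpa using e3, by simpa using e2, by simpa using e1,
      by simpa using e0⟩
  exfalso
  have hok := hg q p (not_and_or.mp h0)
  have hη := eta_eq P Q hr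
  have hW0 : 0 < W := lt_of_lt_of_le (by norm_num) hW
  have hW1 : 1 ≤ W := le_trans (by norm_num) hW
  have hA0 := P.Apos
  have hA1 := P.one_le_A
  obtain ⟨s, hsA⟩ : ∃ s : ℝ, (Q.A : ℝ) = s * P.A := ⟨_, (div_mul_cancel₀ _ hA0.ne').symm⟩
  obtain ⟨h, rfl⟩ : ∃ h : ℝ, X = h * Q.A := ⟨_, (div_mul_cancel₀ _ Q.Apos.ne').symm⟩
  obtain ⟨z, hz, hWz⟩ : ∃ z : ℝ, 0 < z ∧ 2 * W ^ 20 * z = 1 :=
    ⟨_, by positivity, mul_inv_cancel₀ (by positivity)⟩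
  have hh : 0 < h := (mul_pos_iff_of_pos_right Q.Apos).mp hX
  have hR : ∀ y : ℝ, (c 3 : ℝ) * y ^ 3 + c 2 * y ^ 2 + c 1 * y + c 0 =
      P.A * (y - P.a) * (y - P.b) * (q * y + p) +
        s * P.A * (y - Q.a) * (y - Q.b) * (q' * y + p') := fun y => by
    rw [← hsA, ← P.ev_eq, ← Q.ev_eq, e3, e2, e1, e0, Tr.ev, Tr.ev]
    push_cast
    ring
  rw [hsA, mul_div_cancel_right₀ _ hA0.ne'] at hok
  rw [hsA] at hη hK hc hAQ
  have hs1 : W ^ 200 ≤ s := by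
    refine le_of_mul_le_mul_right (le_trans ?_ hAQ) hA0
    rw [mul_comm]
    gcongr
    exact le_self_pow₀ hA1 two_ne_zero
  have hs2 : 1 ≤ s := (one_le_pow₀ hW1).trans hs1
  have hs0 : 0 < s := one_pos.trans_le hs2
  have lo : ∀ {d : ℝ}, 1 / 2 ≤ W ^ 20 * d → z ≤ d := fun {d} hd =>
    le_of_mul_le_mul_left (by linarith only [hd, hWz] : W ^ 20 * z ≤ W ^ 20 * d) (by positivity)
  have up : ∀ {d : ℝ}, W ^ 20 * d ≤ 10 → d ≤ 20 * z := fun {d} hd =>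
    le_of_mul_le_mul_left (by linarith only [hd, hWz] : W ^ 20 * d ≤ W ^ 20 * (20 * z)) (by positivity)
  obtain ⟨hz1, hz5⟩ := pair_z hW hz hWz hs2 hA
  have l1 := lo hs.l1
  have l2 := lo hs.l2
  have l3 := lo hs.l3
  have l4 := lo hs.l4
  have l5 := lo hs.l5
  have u2 := up hs.u2
  have hη0 : 0 < |P.a - Q.a| := lt_of_le_of_ne (abs_nonneg _) fun e => by
    rw [← e] at hη
    simp at hη
  have hηz : |P.a - Q.a| ≤ z :=
    calc |P.a - Q.a| ≤ |P.a - Q.a| * (s ^ 2 * (P.A : ℝ) ^ 4 * z ^ 5) :=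
          le_mul_of_one_le_right hη0.le hz5
      _ = (P.A : ℝ) ^ 2 * (s * P.A) ^ 2 * (|P.a - Q.a| * z * z * z) * z * z := by ring
      _ ≤ (P.A : ℝ) ^ 2 * (s * P.A) ^ 2 *
          (|P.a - Q.a| * |P.a - Q.b| * |P.b - Q.a| * |P.b - Q.b|) * 1 * z := by gcongr
      _ = z := by rw [hη]; ring
  have hx1 : |x| ≤ 1 := by
    linarith only [abs_sub_abs_le_abs_sub x Q.a, hs.qa, he, hηz, hz1]
  have lip : ∀ y : ℝ, |y| ≤ 1 / 2 → |P.A * (y - P.a) * (y - P.b) * (q * y + p) +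
      s * P.A * (y - Q.a) * (y - Q.b) * (q' * y + p')| ≤ 6 * (h * (s * P.A)) * |y - x| :=
    fun y hy => hR y ▸ pair_lip (hc 3) (hc 2) (hc 1) hx1 (by linarith only [hy]) hx
  have tri := pair_tri Q.a x
  have root : ∀ y : ℝ, |y| ≤ 1 / 2 → (y - P.a) * (y - P.b) = 0 →
      |y - Q.a| * |y - Q.b| * |q' * y + p'| ≤ 6 * h * |y - x| := fun y hy e => by
    have := lip y hy
    rw [mul_assoc (P.A : ℝ), e, mul_zero, zero_mul, zero_add, abs_mul, abs_mul, abs_mul,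
      abs_of_pos (mul_pos hs0 hA0)] at this
    exact le_of_mul_le_mul_left (by linarith only [this]) (mul_pos hs0 hA0)
  have f1 := pair_a (hz.trans_le l4) l5 (abs_nonneg _) hh.le (root _ hs.pb (by ring))
    (by linarith only [(tri P.b).1, he, hηz, l4])
  have f1' := pair_a hη0 l3 (abs_nonneg _) hh.le (root _ hs.pa (by ring))
    (by linarith only [(tri P.a).1, he])
  obtain ⟨f3, f4⟩ := pair_i (x := x) (c := 0) hz hz1 l1
    (by linarith only [(tri P.a).1, abs_sub_comm x P.a, he, hηz]) f1 f1' (by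
      by_cases hq : q' = 0
      · refine Or.inr ⟨?_, by exact_mod_cast hq⟩
        rw [mul_zero, zero_add]
        exact_mod_cast Int.one_le_abs fun e => h0' ⟨hq, e⟩
      · exact Or.inl (by exact_mod_cast Int.one_le_abs hq))
  obtain ⟨Y, hY, hY0⟩ : ∃ Y : ℝ, |q * Q.b + p| = Y * s ∧ 0 ≤ Y :=
    ⟨_, (div_mul_cancel₀ _ hs0.ne').symm, by positivity⟩
  rw [hY, mul_div_cancel_right₀ _ hs0.ne'] at hok
  have xb : |Q.b - x| ≤ 21 * z := by
    linarith only [(tri Q.b).1, abs_sub_comm Q.a Q.b, he, hηz, u2, hz]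
  have f5 : Y * z ≤ 126 * h := by
    have a1 := lip _ hs.qb
    rw [sub_self, mul_zero, zero_mul, add_zero, abs_mul, abs_mul, abs_mul, abs_of_pos hA0, hY,
      abs_sub_comm Q.b, abs_sub_comm Q.b] at a1
    refine le_of_mul_le_mul_left ?_ (mul_pos (mul_pos hs0 hA0) hz)
    calc s * P.A * z * (Y * z) = P.A * z * z * (Y * s) := by ring
      _ ≤ P.A * |P.a - Q.b| * |P.b - Q.b| * (Y * s) := by gcongr
      _ ≤ 6 * (h * (s * P.A)) * (21 * z) := a1.trans (by gcongr)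
      _ = _ := by ring
  have f6 : |P.a - Q.a| * |P.b - Q.a| * |q * x + p| ≤
      84 * (s * |x - Q.a| * z * |q' * x + p'|) := by
    have a1 := congrArg abs (eq_neg_of_add_eq_zero_left ((hR x).symm.trans hx))
    simp only [abs_neg, abs_mul, abs_of_pos hA0, abs_of_pos hs0] at a1
    have a2 : |P.a - Q.a| ≤ 2 * |x - P.a| := by linarith only [(tri P.a).2, he]
    have a3 : |P.b - Q.a| ≤ 2 * |x - P.b| := by linarith only [(tri P.b).2, he, hηz, l4]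
    rw [abs_sub_comm] at xb
    refine le_of_mul_le_mul_left ?_ hA0
    calc P.A * (|P.a - Q.a| * |P.b - Q.a| * |q * x + p|)
        ≤ P.A * (2 * |x - P.a| * (2 * |x - P.b|) * |q * x + p|) := by gcongr
      _ = 4 * (s * P.A * |x - Q.a| * |x - Q.b| * |q' * x + p'|) := by rw [← a1]; ring
      _ ≤ 4 * (s * P.A * |x - Q.a| * (21 * z) * |q' * x + p'|) := by gcongr
      _ = _ := by ring
  have hk : |(q : ℝ)| * z ≤ |q * Q.a + p| + Y * s :=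
    hY ▸ (mul_le_mul_of_nonneg_left l2 (abs_nonneg _)).trans (pair_dif q p Q.a Q.b)
  have f7 := pair_c hz hs0.le hh.le (abs_nonneg _) (abs_nonneg _) (by linarith only [he, hηz])
    (abs_sub_comm Q.a x ▸ pair_lin q p x Q.a) hk f5 hz5 hK
    (pair_b hz.le hs0.le (abs_nonneg _) (abs_nonneg _) (abs_nonneg _) (up hs.u3) (abs_nonneg _)
      (up hs.u5) hη hK f6)
  have hT : 0 ≤ s * |q * Q.a + p| := by positivity
  have f8 := pair_d hW0.le hz1 hh f3 f7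
  have f9 := pair_e hW hz hWz hT f4 f8
  rcases hok (by
    rw [show W ^ 85 = W ^ 3 * W ^ 82 by ring]
    gcongr) with b | ⟨b1, b2⟩
  · exact (pair_f hW hz hWz hT hY0 f5 f8).not_ge b
  have g1 := pair_g hW hWz hs1 hY0 f9 b2 hk
  have g2 : ∀ y : ℝ, |y| = 1 → |q' * y + p'| ≤ 16 * h + 1 / 5 := fun y hy => by
    refine pair_end hA0 hs0 hy hs.pa hs.pb hs.qa hs.qb
      (pair_k (hc 3) (hc 2) (hc 1) (hc 0) hy.le) ?_ (hR y)
    have a1 : |(q : ℝ)| * |y - Q.b| ≤ |(q : ℝ)| * (3 / 2) :=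
      mul_le_mul_of_nonneg_left (by linarith only [abs_sub y Q.b, hs.qb, hy]) (abs_nonneg _)
    linarith only [pair_lin q p Q.b y, a1, g1, hY]
  have g3 := g2 1 abs_one
  have g4 := g2 (-1) (by simp)
  have g5 : 1 / 20 ≤ h := by
    by_cases hq : q' * 1 + p' = 0
    · have a1 : (1 : ℝ) ≤ |q' * (-1 : ℝ) + p'| := by
        exact_mod_cast Int.one_le_abs (z := q' * (-1) + p') fun e => h0' ⟨by omega, by omega⟩
      linarith only [a1, g4]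
    · have a1 : (1 : ℝ) ≤ |q' * (1 : ℝ) + p'| := by exact_mod_cast Int.one_le_abs hq
      linarith only [a1, g3]
  exact (pair_h hW hz hWz hT g5 (by linarith only [pair_j hx1 g3 g4, g5]) f7).not_ge b1

end Pool.Agent.MP_06f5ad_nt.Q2

end

section

/-!
The sequence of quadratics.
-/

namespace Pool.Agent.MP_06f5ad_nt.Q2

open Filter Topology

/-- The state of the construction at scale `w`. -/
def SeqSt (w : ℕ) (P : QF) : Prop :=
  (2 : ℝ) ^ 100 ≤ w ∧ Gd w 2 P.b P.a (P.n : ℝ)⁻¹ ∧ ∃ (s : ℝ) (O : Tr), Inv (w + 1) s P O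

theorem Seq_abs {W : ℕ} {s : ℝ} {P : QF} {O : Tr} (h : Inv W s P O) :
    (W : ℝ) ^ 20 * |P.a - P.b| ≤ 4 := by
  have h1 := h.dlo
  have h2 := h.dhi
  have h3 : (0 : ℝ) < (W : ℝ) ^ 20 := pow_pos (lt_of_lt_of_le (by norm_num) h.big) 20
  have h4 : 0 < s * (P.b - P.a) := by
    by_contra hc
    push Not at hc
    nlinarith
  have h5 : |P.a - P.b| = s * (P.b - P.a) := by
    rcases h.sgn with rfl | rfl
    · rw [abs_sub_comm, abs_of_pos (by linarith)]; ring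
    · rw [abs_of_pos (by linarith)]; ring
  rwa [h5]

theorem Seq_step {w : ℕ} {P : QF} (h : SeqSt w P) {E : ℝ} (hE : 0 < E) :
    ∃ Q : QF, SeqSt (w + 1) Q ∧ 0 < |P.a - Q.a| ∧ |P.a - Q.a| ≤ E ∧ PairOK w P Q := by
  obtain ⟨hw, hg, s, O, hI⟩ := h
  have hw1 : (1 : ℝ) ≤ w := le_trans (by norm_num) hw
  have hW : (0 : ℝ) < ((w + 1 : ℕ) : ℝ) ^ 20 := by positivity
  obtain ⟨Q, hQ, hle, hgQ, hd⟩ :=
    step hI (E := min E (1 / (4 * ((w + 1 : ℕ) : ℝ) ^ 20))) (lt_min hE (by positivity))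
  have hr : res P.toTr Q.toTr = 1 := by rw [res_symm]; exact hQ.res1
  have he : ((w + 1 : ℕ) : ℝ) ^ 20 * |P.a - Q.a| ≤ 1 / 4 := by
    have h1 : |P.a - Q.a| ≤ 1 / (4 * ((w + 1 : ℕ) : ℝ) ^ 20) := hle.trans (min_le_right _ _)
    rw [le_div_iff₀ (by positivity)] at h1
    linarith
  have hs : Shape w P Q := by
    refine shape (by positivity) (by push_cast; linarith) ?_ hI hQ he
    have := succ_pow hw (k := 20) (by norm_num)
    have e : (((w + 1 : ℕ) : ℝ) + 1) = w + 2 := by push_cast; ring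
    rwa [e]
  have hA : (w : ℝ) ^ 600 ≤ P.A := by
    obtain ⟨H, hH, -, hH2⟩ := hI.ht
    have h1 : (w : ℝ) ^ 600 ≤ (w : ℝ) ^ 700 := pow_le_pow_right₀ hw1 (by norm_num)
    have h2 : (w : ℝ) ^ 700 ≤ ((w + 1 : ℕ) : ℝ) ^ 700 :=
      pow_le_pow_left₀ (by positivity) (by push_cast; linarith) _
    have h3 : ((w + 1 : ℕ) : ℝ) ^ 700 ≤ H ^ 2 * ((w + 1 : ℕ) : ℝ) ^ 700 :=
      le_mul_of_one_le_left (by positivity) (one_le_pow₀ hH)
    exact h1.trans (h2.trans (h3.trans hH2))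
  have hAQ : (P.A : ℝ) ^ 2 * (w : ℝ) ^ 200 ≤ Q.A := by
    obtain ⟨H, hH, hB, hH2⟩ := hQ.ht
    have h1 : (w : ℝ) ^ 200 ≤ (w : ℝ) ^ 700 := pow_le_pow_right₀ hw1 (by norm_num)
    have h2 : (w : ℝ) ^ 700 ≤ ((w + 1 + 1 : ℕ) : ℝ) ^ 700 :=
      pow_le_pow_left₀ (by positivity) (by push_cast; linarith) _
    have h3 : (P.A : ℝ) ^ 2 ≤ H ^ 2 :=
      pow_le_pow_left₀ P.Apos.le ((le_abs_self _).trans hB.1) _
    exact (mul_le_mul h3 (h1.trans h2) (by positivity) (by positivity)).trans hH2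
  refine ⟨Q, ⟨hI.big, hgQ, -s, P.toTr, hQ⟩, ?_, hle.trans (min_le_left _ _),
    pair P Q hw hr hs hA hAQ (gd_next P Q hw hr hs hA hAQ hd hg)⟩
  refine abs_pos.2 fun h0 => ?_
  have := eta_eq P Q hr
  rw [h0] at this
  simp at this

theorem exists_seq : ∃ (P : ℕ → QF) (K : ℕ → ℝ), Tendsto K atTop atTop ∧
    (∀ m, PairOK (K m) (P m) (P (m + 1))) ∧ (∀ m, 0 < |(P m).a - (P (m + 1)).a|) ∧
    (∀ m, |(P (m + 1)).a - (P (m + 2)).a| ≤ |(P m).a - (P (m + 1)).a| / 8) ∧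
    (∀ m, |(P m).a - (P (m + 1)).a| * ((P m).A : ℝ) ^ m ≤ 1 / (m + 1)) ∧
    (∀ m, 4 * |(P m).a - (P (m + 1)).a| ≤ |(P m).a - (P m).b|) ∧
    Tendsto (fun m => |(P m).a - (P m).b|) atTop (𝓝 0) := by
  obtain ⟨W, P₀, O₀, h₀⟩ := init
  obtain ⟨P₁, h₁, -, hg₁, -⟩ := step h₀ one_pos
  have hs₁ : SeqSt W P₁ := ⟨h₀.big, hg₁, _, _, h₁⟩
  have key : ∀ (m : ℕ) (x : QF × ℝ), SeqSt (W + m) x.1 ∧ 0 < x.2 → ∃ y : QF × ℝ,
      (SeqSt (W + (m + 1)) y.1 ∧ 0 < y.2) ∧ y.2 = |x.1.a - y.1.a| ∧ y.2 ≤ x.2 / 8 ∧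
        y.2 * (x.1.A : ℝ) ^ m ≤ 1 / (m + 1) ∧ 4 * y.2 ≤ |x.1.a - x.1.b| ∧
        PairOK ((W + m : ℕ) : ℝ) x.1 y.1 := by
    rintro m ⟨P, η⟩ ⟨hP, hη⟩
    have hA : (0 : ℝ) < (P.A : ℝ) ^ m := pow_pos P.Apos m
    have hab : 0 < |P.a - P.b| := abs_pos.2 (sub_ne_zero.2 P.a_ne_b)
    obtain ⟨Q, hQ, h0, hle, hp⟩ := Seq_step hP
      (E := min (η / 8) (min (1 / (m + 1) / (P.A : ℝ) ^ m) (|P.a - P.b| / 4)))
      (lt_min (by positivity) (lt_min (by positivity) (by positivity)))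
    simp only [le_min_iff] at hle
    refine ⟨(Q, |P.a - Q.a|), ⟨hQ, h0⟩, rfl, hle.1, ?_, ?_, hp⟩
    · exact (le_div_iff₀ hA).1 hle.2.1
    · have := hle.2.2
      simp only
      linarith
  choose f hf using key
  let x : ∀ m : ℕ, {x : QF × ℝ // SeqSt (W + m) x.1 ∧ 0 < x.2} := fun m =>
    Nat.rec (motive := fun m => {x : QF × ℝ // SeqSt (W + m) x.1 ∧ 0 < x.2})
      ⟨(P₁, 1), hs₁, one_pos⟩ (fun m y => ⟨f m y.1 y.2, (hf m y.1 y.2).1⟩) m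
  have hx : ∀ m, (x (m + 1)).1.2 = |(x m).1.1.a - (x (m + 1)).1.1.a| ∧
      (x (m + 1)).1.2 ≤ (x m).1.2 / 8 ∧
      (x (m + 1)).1.2 * ((x m).1.1.A : ℝ) ^ m ≤ 1 / (m + 1) ∧
      4 * (x (m + 1)).1.2 ≤ |(x m).1.1.a - (x m).1.1.b| ∧
      PairOK ((W + m : ℕ) : ℝ) (x m).1.1 (x (m + 1)).1.1 := fun m => (hf m (x m).1 (x m).2).2
  have hK : Tendsto (fun m : ℕ => ((W + m : ℕ) : ℝ)) atTop atTop :=
    tendsto_natCast_atTop_atTop.comp
      (tendsto_atTop_mono (fun m => Nat.le_add_left m W) tendsto_id)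
  refine ⟨fun m => (x m).1.1, fun m => ((W + m : ℕ) : ℝ), hK, fun m => (hx m).2.2.2.2,
    fun m => ?_, fun m => ?_, fun m => ?_, fun m => ?_, ?_⟩
  · rw [← (hx m).1]; exact (x (m + 1)).2.2
  · rw [← (hx m).1, ← (hx (m + 1)).1]; exact (hx (m + 1)).2.1
  · rw [← (hx m).1]; exact (hx m).2.2.1
  · rw [← (hx m).1]; exact (hx m).2.2.2.1
  · have h4 : Tendsto (fun m : ℕ => 4 / ((W + m : ℕ) : ℝ)) atTop (𝓝 0) :=
      tendsto_const_nhds.div_atTop hK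
    refine squeeze_zero (fun m => abs_nonneg _) (fun m => ?_) h4
    obtain ⟨hw, -, s, O, hI⟩ := (x m).2.1
    have hw1 : (1 : ℝ) ≤ ((W + m : ℕ) : ℝ) := le_trans (by norm_num) hw
    have h1 := Seq_abs hI
    have h2 : ((W + m : ℕ) : ℝ) ≤ ((W + m + 1 : ℕ) : ℝ) ^ 20 :=
      le_trans (by push_cast; linarith)
        (le_self_pow₀ (by push_cast at hw1 ⊢; linarith) (by norm_num))
    rw [le_div_iff₀ (by linarith)]
    nlinarith [abs_nonneg ((x m).1.1.a - (x m).1.1.b)]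

end Pool.Agent.MP_06f5ad_nt.Q2

end

section

/-!
The counterexample.
-/

namespace Pool.Agent.MP_06f5ad_nt.Q2

open Filter Topology

open Polynomial

theorem Final_cubic {R : ℤ[X]} (h3 : R.natDegree = 3) :
    R = C (R.coeff 3) * X ^ 3 + C (R.coeff 2) * X ^ 2 + C (R.coeff 1) * X + C (R.coeff 0) := by
  conv_lhs => rw [R.as_sum_range_C_mul_X_pow, h3]
  simp only [Finset.sum_range_succ, Finset.range_zero, Finset.sum_empty]
  ring

theorem Final_cross {p : ℕ → Prop} (m₀ : ℕ) (h0 : ¬ p m₀) (h1 : ∃ m, m₀ ≤ m ∧ p m) :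
    ∃ m, m₀ ≤ m ∧ ¬ p m ∧ p (m + 1) := by
  by_contra hc
  obtain ⟨m, hm, hp⟩ := h1
  have : ∀ k, m₀ ≤ k → ¬ p k := by
    intro k hk
    induction k, hk using Nat.le_induction with
    | base => exact h0
    | succ k hk ih => exact fun h => hc ⟨k, hk, ih, h⟩
  exact this m hm hp

theorem Final_coeff (R : ℤ[X]) (i : ℕ) : |((R.coeff i : ℤ) : ℝ)| ≤ R.supNorm := by
  have := R.le_supNorm i
  rwa [Int.norm_eq_abs] at this

theorem not_fac {R : ℤ[X]} (hR : Irreducible R) (h3 : R.natDegree = 3) {P : Tr} (hA : P.A ≠ 0) :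
    ¬ Fac P (fun i => R.coeff i) := by
  rintro ⟨q, p, e3, e2, e1, e0⟩
  simp only at e3 e2 e1 e0
  have hR0 : R ≠ 0 := hR.ne_zero
  have hl : R.coeff 3 ≠ 0 := by
    rw [← h3]
    exact leadingCoeff_ne_zero.mpr hR0
  have hq : q ≠ 0 := by
    rintro rfl
    exact hl (by simpa using e3)
  have hfac : R = (C P.A * X ^ 2 + C (2 * P.B) * X + C P.C) * (C q * X + C p) := by
    conv_lhs => rw [Final_cubic h3, e3, e2, e1, e0]
    simp only [map_add, map_mul]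
    ring
  rcases hR.isUnit_or_isUnit hfac with h | h
  · have := natDegree_eq_zero_of_isUnit h
    rw [natDegree_quadratic hA] at this
    exact absurd this (by norm_num)
  · have := natDegree_eq_zero_of_isUnit h
    rw [natDegree_linear hq] at this
    exact absurd this (by norm_num)

theorem finite_bdd (B : ℝ) : Set.Finite {α : ℝ | ∃ R : ℤ[X], R.natDegree = 3 ∧
    aeval α R = 0 ∧ R.supNorm ≤ B} := by
  classical
  have hU : (Set.Icc (-⌈B⌉) ⌈B⌉ : Set ℤ).Finite := Set.finite_Icc _ _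
  refine (bUnion_roots_finite (algebraMap ℤ ℝ) 3 hU).subset ?_
  rintro α ⟨R, h3, hα, hB⟩
  have hR0 : R ≠ 0 := by
    rintro rfl
    simp at h3
  simp only [Set.mem_iUnion]
  refine ⟨R, ⟨h3.le, fun i => ?_⟩, ?_⟩
  · have h1 := (Final_coeff R i).trans (hB.trans (Int.le_ceil B))
    rw [← Int.cast_abs, Int.cast_le] at h1
    exact abs_le.mp h1
  · rw [Finset.mem_coe, Multiset.mem_toFinset, mem_roots_map_of_injective
      (algebraMap ℤ ℝ).injective_int hR0]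
    exact hα

theorem cubic_counter : ∃ ζ : ℝ, Transcendental ℚ ζ ∧ ∀ c : ℝ, 0 < c →
    Set.Finite {α : ℝ | ∃ R : ℤ[X], Irreducible R ∧ R.natDegree = 3 ∧ 0 < R.leadingCoeff ∧
      aeval α R = 0 ∧ |ζ - α| ≤ c / R.supNorm ^ 4} := by
  obtain ⟨P, K, hK, hP, hpos, hdec, hsm, hab, hb0⟩ := exists_seq
  obtain ⟨ζ, hζ, hlim⟩ := exists_lim (a := fun m => (P m).a) hdec
  have hA : ∀ m, (1 : ℝ) ≤ (P m).A := fun m => by exact_mod_cast (P m).pos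
  have hη : ∀ m : ℕ, |(P m).a - (P (m + 1)).a| ≤ 1 / ((m : ℝ) + 1) := fun m =>
    (le_mul_of_one_le_right (abs_nonneg _) (one_le_pow₀ (hA m))).trans (hsm m)
  have hη0 : Tendsto (fun m : ℕ => |(P m).a - (P (m + 1)).a|) atTop (𝓝 0) :=
    squeeze_zero (fun _ => abs_nonneg _) hη tendsto_one_div_add_atTop_nhds_zero_nat
  refine ⟨ζ, transc hζ ?_ ?_ ?_ ?_, fun c hc => ?_⟩
  · have h1 : Tendsto (fun m => (P m).a - (P m).b) atTop (𝓝 0) :=
      (tendsto_zero_iff_abs_tendsto_zero _).mpr hb0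
    have h2 := hζ.sub h1
    simpa using h2
  · intro m hm
    have h1 := (hlim m).2.2
    have h2 := hpos m
    rw [← hm] at h1
    simp only [sub_self, abs_zero, mul_zero] at h1
    linarith
  · intro m hm
    have h1 := (hlim m).2.1
    have h2 := hpos m
    have h3 := hab m
    rw [← hm, abs_sub_comm] at h1
    linarith
  · intro m
    have h1 := (hlim m).2.1
    have h2 := hsm m
    have h3 : (0 : ℝ) ≤ ((P m).A : ℝ) ^ m := pow_nonneg (by linarith [hA m]) _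
    calc |ζ - (P m).a| * ((P m).A : ℝ) ^ m
        ≤ 2 * |(P m).a - (P (m + 1)).a| * ((P m).A : ℝ) ^ m := mul_le_mul_of_nonneg_right h1 h3
      _ = 2 * (|(P m).a - (P (m + 1)).a| * ((P m).A : ℝ) ^ m) := by ring
      _ ≤ 2 * (1 / ((m : ℝ) + 1)) := by linarith
      _ = 2 / ((m : ℝ) + 1) := by ring
  · obtain ⟨m₀, hm₀⟩ := eventually_atTop.mp (hK.eventually_ge_atTop (9 * c))
    refine (finite_bdd (4 * c / |(P m₀).a - (P (m₀ + 1)).a|)).subset ?_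
    rintro α ⟨R, hR, h3, hl, hα, hclose⟩
    refine ⟨R, h3, hα, ?_⟩
    have hX1 : (1 : ℝ) ≤ R.supNorm := by
      have h1 := Final_coeff R R.natDegree
      have h2 : (1 : ℝ) ≤ ((R.coeff R.natDegree : ℤ) : ℝ) := by exact_mod_cast hl
      exact h2.trans ((le_abs_self _).trans h1)
    set X₀ := R.supNorm with hX₀
    have hX0 : 0 < X₀ := by linarith
    have hX4 : 0 < X₀ ^ 4 := by positivity
    by_cases hcase : X₀ ^ 4 * |(P m₀).a - (P (m₀ + 1)).a| < 4 * c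
    · rw [le_div_iff₀ (hpos m₀)]
      have h1 : X₀ ≤ X₀ ^ 4 := le_self_pow₀ hX1 (by norm_num)
      have h2 := mul_le_mul_of_nonneg_right h1 (hpos m₀).le
      linarith
    · exfalso
      have hev : ∀ᶠ m : ℕ in atTop, X₀ ^ 4 * |(P m).a - (P (m + 1)).a| < 4 * c := by
        have h1 := hη0.const_mul (X₀ ^ 4)
        rw [mul_zero] at h1
        exact h1.eventually_lt_const (by linarith)
      obtain ⟨m, hm, hlo, hhi⟩ := Final_cross
        (p := fun m => X₀ ^ 4 * |(P m).a - (P (m + 1)).a| < 4 * c) m₀ hcase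
        ((eventually_ge_atTop m₀).and hev).exists
      have hlo' : 4 * c ≤ X₀ ^ 4 * |(P m).a - (P (m + 1)).a| := not_lt.mp hlo
      have hhi' : X₀ ^ 4 * |(P (m + 1)).a - (P (m + 2)).a| < 4 * c := hhi
      have htri : |α - (P (m + 1)).a| ≤ |ζ - α| + |ζ - (P (m + 1)).a| := by
        have e : α - (P (m + 1)).a = (ζ - (P (m + 1)).a) - (ζ - α) := by ring
        rw [e]
        have := abs_sub (ζ - (P (m + 1)).a) (ζ - α)
        linarith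
      have h1 := (hlim m).1
      have h2 := hdec m
      have h4 : |ζ - α| * X₀ ^ 4 ≤ c := by rwa [le_div_iff₀ hX4] at hclose
      have h5 : |ζ - α| ≤ |(P m).a - (P (m + 1)).a| / 4 := by
        by_contra hcon
        have := mul_lt_mul_of_pos_right (not_le.mp hcon) hX4
        linarith
      have h6 : |α - (P (m + 1)).a| ≤ |(P m).a - (P (m + 1)).a| / 2 := by
        linarith
      have h7 : |α - (P (m + 1)).a| * X₀ ^ 4 ≤ K m := by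
        have h8 := hm₀ m hm
        have h9 : |α - (P (m + 1)).a| ≤ |ζ - α| + 2 * |(P (m + 1)).a - (P (m + 2)).a| := by
          linarith
        have h10 := mul_le_mul_of_nonneg_right h9 hX4.le
        nlinarith
      have hroot : ((R.coeff 3 : ℤ) : ℝ) * α ^ 3 + (R.coeff 2 : ℤ) * α ^ 2 +
          (R.coeff 1 : ℤ) * α + (R.coeff 0 : ℤ) = 0 := by
        rw [Final_cubic h3] at hα
        simpa using hα
      rcases hP m (fun i => R.coeff i) X₀ α hX0 (Final_coeff R) hroot h6 h7 with h | h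
      · exact not_fac hR h3 (P m).pos.ne' h
      · exact not_fac hR h3 (P (m + 1)).pos.ne' h

end Pool.Agent.MP_06f5ad_nt.Q2

end
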