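import Mathlib

section

/-!
Definitions for the counterexample to Q2 in degree three.
-/

namespace Pool.Agent.MP_06f5ad_nt.Q2

open Filter

/-- The integer quadratic `A x ^ 2 + 2 B x + C`. -/
structure Tr where
  A : ℤ
  B : ℤ
  C : ℤ

/-- The reduced discriminant. -/
def Tr.n (P : Tr) : ℤ := P.B ^ 2 - P.A * P.C

/-- The value at a real point. -/
def Tr.ev (P : Tr) (x : ℝ) : ℝ := P.A * x ^ 2 + 2 * P.B * x + P.C

/-- The discriminant is `2` or `3` modulo `5`; in particular it is not a square. -/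
def Tr.NS (P : Tr) : Prop := 5 ∣ P.n ^ 2 + 1

/-- The resultant. -/
def res (P Q : Tr) : ℤ :=
  (P.A * Q.C - Q.A * P.C) ^ 2 - 4 * (P.A * Q.B - Q.A * P.B) * (P.B * Q.C - Q.B * P.C)

/-- An irreducible integer quadratic with its two real roots `a`, `b`. -/
structure QF extends Tr where
  a : ℝ
  b : ℝ
  pos : 0 < A
  sum : (A : ℝ) * (a + b) = -2 * B
  prod : (A : ℝ) * (a * b) = C
  ns : toTr.NS

/-- The signed square root of the discriminant. -/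
noncomputable def QF.r (P : QF) : ℝ := P.A * (P.a - P.b) / 2

/-- The pointwise condition on the two values `X`, `Y` of a linear form. -/
def Ok (W : ℝ) (l : ℕ) (X Y : ℝ) : Prop :=
  W ^ l * X ≤ W ^ 85 → W ^ 25 ≤ W ^ l * X * Y ^ 3 ∨ (1 ≤ W ^ (55 + l) * X ∧ W ^ 24 * Y ≤ W ^ l)

/-- The pair of points `x`, `y` is good at scale `σ` and level `l`. -/
def Gd (W : ℝ) (l : ℕ) (x y σ : ℝ) : Prop :=
  ∀ q p : ℤ, (q ≠ 0 ∨ p ≠ 0) → Ok W l (σ * |q * x + p|) (|q * y + p| / σ)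

/-- A lower bound with exponent three. -/
def Dio (x κ : ℝ) : Prop := ∀ q p : ℤ, q ≠ 0 → κ ≤ |q * x + p| * |(q : ℝ)| ^ 3

/-- Badly approximable. -/
def BA (x : ℝ) : Prop := ∃ c : ℝ, 0 < c ∧ ∀ q p : ℤ, q ≠ 0 → c ≤ |q * x + p| * |(q : ℝ)|

/-- The points `x k` tend quickly to a badly approximable point `x₀`. -/
structure Conv (T x : ℕ → ℝ) (x₀ : ℝ) : Prop where
  top : Tendsto T atTop atTop
  close : ∃ C : ℝ, ∀ᶠ k in atTop, |x k - x₀| * T k ^ 2 ≤ C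
  ba : BA x₀
  low : ∃ c : ℝ, 0 < c ∧ ∀ᶠ k in atTop, ∀ q p : ℤ, q ≠ 0 →
    c ≤ T k * (|q * x k + p| * |(q : ℝ)|)

/-- The coefficients are bounded by `H`. -/
def Tr.Bd (P : Tr) (H : ℝ) : Prop := |(P.A : ℝ)| ≤ H ∧ |(P.B : ℝ)| ≤ H ∧ |(P.C : ℝ)| ≤ H

/-- The invariant of the construction: `P` is the current quadratic, `O` the previous one. -/
structure Inv (W : ℕ) (s : ℝ) (P : QF) (O : Tr) : Prop where
  big : (2 : ℝ) ^ 100 ≤ W
  sgn : s = 1 ∨ s = -1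
  nsO : O.NS
  res1 : res P.toTr O = 1
  ht : ∃ H : ℝ, 1 ≤ H ∧ O.Bd H ∧ H ^ 2 * (W : ℝ) ^ 700 ≤ P.A
  evO : 1 ≤ (W : ℝ) ^ 41 * |O.ev P.b|
  loc : |P.a| + 1 / (W : ℝ) ≤ 1 / 3
  dlo : 2 ≤ (W : ℝ) ^ 20 * (s * (P.b - P.a))
  dhi : (W : ℝ) ^ 20 * (s * (P.b - P.a)) ≤ 4
  rat : ∃ j : ℤ, (W : ℝ) ^ 250 * |P.b - (1 + W * j) / (W : ℝ) ^ 22| ≤ 1
  dio : Dio P.a (1 / W)

/-- All five distances between the roots of `P` and `Q` are of the size `W ^ (-20)`. -/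
structure Shape (W : ℝ) (P Q : QF) : Prop where
  pa : |P.a| ≤ 1 / 2
  pb : |P.b| ≤ 1 / 2
  qa : |Q.a| ≤ 1 / 2
  qb : |Q.b| ≤ 1 / 2
  l1 : 1 / 2 ≤ W ^ 20 * |P.a - P.b|
  u1 : W ^ 20 * |P.a - P.b| ≤ 10
  l2 : 1 / 2 ≤ W ^ 20 * |Q.a - Q.b|
  u2 : W ^ 20 * |Q.a - Q.b| ≤ 10
  l3 : 1 / 2 ≤ W ^ 20 * |P.a - Q.b|
  u3 : W ^ 20 * |P.a - Q.b| ≤ 10
  l4 : 1 / 2 ≤ W ^ 20 * |P.b - Q.a|
  u4 : W ^ 20 * |P.b - Q.a| ≤ 10
  l5 : 1 / 2 ≤ W ^ 20 * |P.b - Q.b|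
  u5 : W ^ 20 * |P.b - Q.b| ≤ 10

/-- The integer cubic with coefficients `c 3, c 2, c 1, c 0` is `P` times a linear form. -/
def Fac (P : Tr) (c : ℕ → ℤ) : Prop :=
  ∃ q p : ℤ, c 3 = P.A * q ∧ c 2 = P.A * p + 2 * P.B * q ∧ c 1 = 2 * P.B * p + P.C * q ∧
    c 0 = P.C * p

/-- Every integer cubic with a root close to `Q.a` is divisible by `P` or by `Q`. -/
def PairOK (K : ℝ) (P Q : QF) : Prop :=
  ∀ (c : ℕ → ℤ) (X x : ℝ), 0 < X → (∀ i, |(c i : ℝ)| ≤ X) →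
    (c 3 : ℝ) * x ^ 3 + c 2 * x ^ 2 + c 1 * x + c 0 = 0 →
    |x - Q.a| ≤ |P.a - Q.a| / 2 → |x - Q.a| * X ^ 4 ≤ K → Fac P.toTr c ∨ Fac Q.toTr c

end Pool.Agent.MP_06f5ad_nt.Q2

end

section

/-!
Algebra of pairs of quadratics.
-/

namespace Pool.Agent.MP_06f5ad_nt.Q2

theorem Tr.NS.sq {P : Tr} (h : P.NS) {k q : ℤ} (hk : k ^ 2 = P.n * q ^ 2) : q = 0 := by
  by_contra hq
  obtain ⟨j, rfl⟩ : q ∣ k := (Int.pow_dvd_pow_iff two_ne_zero).1 ⟨P.n, by rw [hk]; ring⟩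
  have h1 : P.n = j ^ 2 := by
    have : q ^ 2 * (P.n - j ^ 2) = 0 := by linear_combination -hk
    have := (mul_eq_zero.1 this).resolve_left (pow_ne_zero 2 hq)
    linarith
  unfold Tr.NS at h
  rw [h1] at h
  have h5 : j % 5 = 0 ∨ j % 5 = 1 ∨ j % 5 = 2 ∨ j % 5 = 3 ∨ j % 5 = 4 := by omega
  have h6 := Int.emod_eq_zero_of_dvd h
  rcases h5 with h5 | h5 | h5 | h5 | h5 <;>
    simp [pow_succ, Int.add_emod, Int.mul_emod, h5] at h6

namespace QF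

variable (P : QF)

theorem Apos : (0 : ℝ) < P.A := by exact_mod_cast P.pos

theorem one_le_A : (1 : ℝ) ≤ P.A := by exact_mod_cast P.pos

theorem B_eq : (P.B : ℝ) = -(P.A * (P.a + P.b)) / 2 := by have := P.sum; linarith

theorem C_eq : (P.C : ℝ) = P.A * (P.a * P.b) := P.prod.symm

theorem ev_eq (x : ℝ) : P.ev x = P.A * (x - P.a) * (x - P.b) := by
  unfold Tr.ev; rw [P.B_eq, P.C_eq]; ring

theorem r_sq : P.r ^ 2 = P.n := by
  unfold r Tr.n; push_cast; rw [P.B_eq, P.C_eq]; ring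

theorem n_eq : (P.n : ℝ) = P.A ^ 2 * (P.a - P.b) ^ 2 / 4 := by
  rw [← P.r_sq]; unfold r; ring

theorem r_a : P.A * P.a + P.B = P.r := by unfold r; rw [P.B_eq]; ring

theorem r_b : P.A * P.b + P.B = -P.r := by unfold r; rw [P.B_eq]; ring

theorem n_ne : P.n ≠ 0 := fun h => one_ne_zero (P.ns.sq (k := 0) (q := 1) (by simp [h]))

theorem r_ne : P.r ≠ 0 := fun h => P.n_ne (by
  have := P.r_sq
  rw [h] at this
  exact_mod_cast (by linarith : (P.n : ℝ) = 0))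

theorem a_ne_b : P.a ≠ P.b := fun h => P.r_ne (by unfold r; rw [h]; ring)

theorem n_pos : 0 < P.n := by
  have : (0 : ℝ) < P.n := by rw [← P.r_sq]; exact sq_pos_of_ne_zero P.r_ne
  exact_mod_cast this

theorem one_le_n : (1 : ℝ) ≤ P.n := by exact_mod_cast P.n_pos

theorem res_eq (Q : Tr) : (res P.toTr Q : ℝ) = (P.A * Q.ev P.a) * (P.A * Q.ev P.b) := by
  unfold res Tr.ev; push_cast; rw [P.B_eq, P.C_eq]; ring

/-- The norm bound. -/
theorem norm {q p : ℤ} (h : q ≠ 0 ∨ p ≠ 0) :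
    1 ≤ P.A * (|q * P.a + p| * |q * P.b + p|) := by
  have e : ((P.C * q ^ 2 - 2 * P.B * p * q + P.A * p ^ 2 : ℤ) : ℝ) =
      P.A * ((q * P.a + p) * (q * P.b + p)) := by
    push_cast; rw [P.B_eq, P.C_eq]; ring
  have h0 : P.C * q ^ 2 - 2 * P.B * p * q + P.A * p ^ 2 ≠ 0 := by
    intro h0
    have hq : q = 0 := P.ns.sq (k := P.A * p - P.B * q) (by
      unfold Tr.n; linear_combination P.A * h0)
    subst hq
    have hp : p ≠ 0 := by simpa using h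
    have : P.A * p ^ 2 = 0 := by simpa using h0
    exact (mul_ne_zero P.pos.ne' (pow_ne_zero 2 hp)) this
  have h1 : (1 : ℝ) ≤ |((P.C * q ^ 2 - 2 * P.B * p * q + P.A * p ^ 2 : ℤ) : ℝ)| := by
    exact_mod_cast Int.one_le_abs h0
  rwa [e, abs_mul, abs_mul, abs_of_pos P.Apos] at h1

theorem lin_a_ne {q p : ℤ} (h : q ≠ 0 ∨ p ≠ 0) : q * P.a + p ≠ 0 := fun e => by
  have := P.norm h
  rw [e] at this
  norm_num at this

theorem lin_b_ne {q p : ℤ} (h : q ≠ 0 ∨ p ≠ 0) : q * P.b + p ≠ 0 := fun e => by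
  have := P.norm h
  rw [e] at this
  norm_num at this

end QF

theorem res_symm (P Q : Tr) : res P Q = res Q P := by unfold res; ring

/-- The map `u + v D` attached to `O`. -/
theorem hmap {O : Tr} {u v : ℤ} (hd : u ^ 2 - O.n * v ^ 2 ≠ 0) {q p : ℤ} (h : q ≠ 0 ∨ p ≠ 0) :
    ∃ q' p' : ℤ, (q' ≠ 0 ∨ p' ≠ 0) ∧ ∀ x : ℝ,
      q' * x + p' = (u + v * (O.A * x + O.B)) * (q * x + p) - v * q * O.ev x := by
  refine ⟨u * q + v * (O.A * p - O.B * q), u * p + v * (O.B * p - O.C * q), ?_, fun x => ?_⟩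
  · by_contra hc
    push Not at hc
    obtain ⟨h1, h2⟩ := hc
    have e1 : (u ^ 2 - O.n * v ^ 2) * q = 0 := by
      unfold Tr.n; linear_combination (u + v * O.B) * h1 - v * O.A * h2
    have e2 : (u ^ 2 - O.n * v ^ 2) * p = 0 := by
      unfold Tr.n; linear_combination (u - v * O.B) * h2 + v * O.C * h1
    rcases h with h | h
    · exact h ((mul_eq_zero.1 e1).resolve_left hd)
    · exact h ((mul_eq_zero.1 e2).resolve_left hd)
  · unfold Tr.ev; push_cast; ring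

/-- The action of a unit. -/
theorem QF.unit (P : QF) {U V : ℤ} (hU : U ^ 2 - P.n * V ^ 2 = 1) {q p : ℤ}
    (h : q ≠ 0 ∨ p ≠ 0) : ∃ q' p' : ℤ, (q' ≠ 0 ∨ p' ≠ 0) ∧
      q' * P.a + p' = (U + V * P.r) * (q * P.a + p) ∧
      q' * P.b + p' = (U - V * P.r) * (q * P.b + p) := by
  obtain ⟨q', p', h0, h1⟩ := hmap (O := P.toTr) (u := U) (v := V) (by rw [hU]; exact one_ne_zero) h
  refine ⟨q', p', h0, ?_, ?_⟩
  · rw [h1, P.r_a, P.ev_eq]; ring
  · rw [h1, P.r_b, P.ev_eq]; ring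

/-- The reflection attached to a pair with resultant one. -/
theorem QF.refl (P : QF) {O : Tr} (hr : res P.toTr O = 1) {q p : ℤ}
    (h : q ≠ 0 ∨ p ≠ 0) : ∃ q' p' : ℤ, (q' ≠ 0 ∨ p' ≠ 0) ∧
      q' * P.a + p' = P.A * O.ev P.a * (q * P.b + p) ∧
      q' * P.b + p' = P.A * O.ev P.b * (q * P.a + p) := by
  have e1 : ((2 * (P.A * O.B - O.A * P.B) * p - (P.A * O.C - O.A * P.C) * q : ℤ) : ℝ) * P.a +
      (((P.A * O.C - O.A * P.C) * p + 2 * (O.B * P.C - P.B * O.C) * q : ℤ) : ℝ) =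
      P.A * O.ev P.a * (q * P.b + p) := by
    unfold Tr.ev; push_cast; rw [P.B_eq, P.C_eq]; ring
  have e2 : ((2 * (P.A * O.B - O.A * P.B) * p - (P.A * O.C - O.A * P.C) * q : ℤ) : ℝ) * P.b +
      (((P.A * O.C - O.A * P.C) * p + 2 * (O.B * P.C - P.B * O.C) * q : ℤ) : ℝ) =
      P.A * O.ev P.b * (q * P.a + p) := by
    unfold Tr.ev; push_cast; rw [P.B_eq, P.C_eq]; ring
  refine ⟨_, _, ?_, e1, e2⟩
  by_contra hc
  push Not at hc
  rw [hc.1, hc.2] at e1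
  have h2 := P.res_eq O
  rw [hr] at h2
  have h3 : P.A * O.ev P.a ≠ 0 := fun e => by rw [e] at h2; simp at h2
  exact mul_ne_zero h3 (P.lin_b_ne h) (by simpa using e1.symm)

/-- Every integer cubic is a combination of two quadratics with resultant one. -/
theorem sylvester {P Q : Tr} (hr : res P Q = 1) (c : ℕ → ℤ) : ∃ q p q' p' : ℤ,
    c 3 = P.A * q + Q.A * q' ∧ c 2 = P.A * p + 2 * P.B * q + (Q.A * p' + 2 * Q.B * q') ∧
      c 1 = 2 * P.B * p + P.C * q + (2 * Q.B * p' + Q.C * q') ∧ c 0 = P.C * p + Q.C * p' := by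
  let M : Matrix (Fin 4) (Fin 4) ℤ :=
    !![P.A, 0, Q.A, 0; 2 * P.B, P.A, 2 * Q.B, Q.A; P.C, 2 * P.B, Q.C, 2 * Q.B; 0, P.C, 0, Q.C]
  have hd : M.det = 1 := by
    rw [← hr]
    simp [M, Matrix.det_succ_row_zero, Fin.sum_univ_succ, Fin.succAbove, res]
    ring
  have h := congrArg (fun N => N.mulVec ![c 3, c 2, c 1, c 0]) (Matrix.mul_adjugate M)
  simp only [hd, one_smul, Matrix.one_mulVec, ← Matrix.mulVec_mulVec] at h
  set w := M.adjugate.mulVec ![c 3, c 2, c 1, c 0]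
  have h0 := congrFun h 0
  have h1 := congrFun h 1
  have h2 := congrFun h 2
  have h3 := congrFun h 3
  simp [M, Matrix.mulVec, dotProduct, Fin.sum_univ_succ] at h0 h1 h2 h3
  exact ⟨w 0, w 1, w 2, w 3, by linarith, by linarith, by linarith, by linarith⟩

/-- The new quadratic `e (U O - 2 V G + k P)`. -/
def St (P O : Tr) (e U V k : ℤ) : Tr where
  A := e * (U * O.A - 2 * V * (P.A * O.B - O.A * P.B) + k * P.A)
  B := e * (U * O.B - V * (P.A * O.C - O.A * P.C) + k * P.B)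
  C := e * (U * O.C - 2 * V * (P.B * O.C - O.B * P.C) + k * P.C)

theorem St_res (P O : Tr) (e U V k : ℤ) :
    res P (St P O e U V k) = e ^ 2 * (U ^ 2 - P.n * (2 * V) ^ 2) * res P O := by
  unfold res St Tr.n; ring

theorem St_n (P O : Tr) (e U V k : ℤ) :
    (St P O e U V k).n = e ^ 2 * (U ^ 2 * O.n + k ^ 2 * P.n +
      U * k * (2 * P.B * O.B - P.A * O.C - O.A * P.C) + V ^ 2 * res P O) := by
  unfold res St Tr.n; ring

theorem St_unit {P O : Tr} (hr : res P O = 1) {e U w u v : ℤ} (he : e ^ 2 = 1)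
    (hU : U ^ 2 - P.n * (2 * (v * w)) ^ 2 = 1) (hu : u ^ 2 - O.n * v ^ 2 = 1) :
    ∃ U' : ℤ, U' ^ 2 - (St P O e U (v * w) (-2 * w * u)).n * v ^ 2 = 1 := by
  refine ⟨U * u - v ^ 2 * w * (2 * P.B * O.B - P.A * O.C - O.A * P.C), ?_⟩
  have hd : res P O = (2 * P.B * O.B - P.A * O.C - O.A * P.C) ^ 2 - 4 * P.n * O.n := by
    unfold res Tr.n; ring
  rw [St_n, he, hr]
  rw [hr] at hd
  linear_combination hU + (U ^ 2 - 4 * w ^ 2 * v ^ 2 * P.n) * hu - v ^ 4 * w ^ 2 * hd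

theorem St_ns {P O : Tr} (hO : O.NS) {e U V k : ℤ} (he : e ^ 2 = 1)
    (hU : U ^ 2 - P.n * (2 * V) ^ 2 = 1) (hV : 5 ∣ V) (hk : 5 ∣ k) : (St P O e U V k).NS := by
  obtain ⟨V, rfl⟩ := hV
  obtain ⟨k, rfl⟩ := hk
  obtain ⟨t, ht⟩ := hO
  have : ∃ g : ℤ, (St P O e U (5 * V) (5 * k)).n = O.n + 5 * g := by
    refine ⟨20 * P.n * V ^ 2 * O.n + 5 * k ^ 2 * P.n +
      U * k * (2 * P.B * O.B - P.A * O.C - O.A * P.C) + 5 * V ^ 2 * res P O, ?_⟩
    rw [St_n, he]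
    linear_combination O.n * hU
  obtain ⟨g, hg⟩ := this
  exact ⟨t + 2 * O.n * g + 5 * g ^ 2, by rw [hg]; linear_combination ht⟩

theorem res_disc (P O : Tr) :
    res P O = (2 * P.B * O.B - P.A * O.C - O.A * P.C) ^ 2 - 4 * P.n * O.n := by
  unfold res Tr.n; ring

end Pool.Agent.MP_06f5ad_nt.Q2

end

section

/-!
Units, their independence and their alignment.
-/

namespace Pool.Agent.MP_06f5ad_nt.Q2

open Filter Topology

/-- The recursion for the powers of a unit. -/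
def pellSeq (n U₀ V₀ : ℤ) : ℕ → ℤ × ℤ
  | 0 => (1, 0)
  | k + 1 => ((pellSeq n U₀ V₀ k).1 * U₀ + n * (pellSeq n U₀ V₀ k).2 * V₀,
      (pellSeq n U₀ V₀ k).1 * V₀ + (pellSeq n U₀ V₀ k).2 * U₀)

theorem pell_base (P : QF) {M : ℤ} (hM : M ≠ 0) : ∃ U₀ V₀ : ℤ, U₀ ^ 2 - P.n * V₀ ^ 2 = 1 ∧
    M ∣ V₀ ∧ 1 < (U₀ : ℝ) + V₀ * P.r := by
  have h0 : 0 < P.n * M ^ 2 := mul_pos P.n_pos (by positivity)
  have hns : ¬IsSquare (P.n * M ^ 2) := by
    rintro ⟨k, hk⟩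
    exact hM (P.ns.sq (k := k) (q := M) (by rw [hk]; ring))
  obtain ⟨x, y, hxy, hy⟩ := Pell.exists_of_not_isSquare h0 hns
  have hx : 1 ≤ |x| := by
    refine Int.one_le_abs fun h => ?_
    rw [h] at hxy
    have : 0 ≤ P.n * M ^ 2 * y ^ 2 := by positivity
    linarith
  have hx' : (1 : ℝ) ≤ ((|x| : ℤ) : ℝ) := by exact_mod_cast hx
  have hne : ((y * M : ℤ) : ℝ) * P.r ≠ 0 :=
    mul_ne_zero (by exact_mod_cast mul_ne_zero hy hM) P.r_ne
  rcases lt_or_gt_of_ne hne with h | h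
  · refine ⟨|x|, -(y * M), by rw [sq_abs]; linear_combination hxy, (dvd_mul_left M y).neg_right, ?_⟩
    rw [Int.cast_neg]
    linarith
  · exact ⟨|x|, y * M, by rw [sq_abs]; linear_combination hxy, dvd_mul_left M y, by linarith⟩

/-- Powers of a unit congruent to a rational integer modulo `M`. -/
theorem pell (P : QF) {M : ℤ} (hM : M ≠ 0) : ∃ (ε : ℝ) (U V : ℕ → ℤ), 1 < ε ∧
    ∀ k, U k ^ 2 - P.n * V k ^ 2 = 1 ∧ M ∣ V k ∧ (U k : ℝ) + V k * P.r = ε ^ k := by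
  obtain ⟨U₀, V₀, h1, h2, h3⟩ := pell_base P hM
  refine ⟨U₀ + V₀ * P.r, fun k => (pellSeq P.n U₀ V₀ k).1, fun k => (pellSeq P.n U₀ V₀ k).2, h3,
    fun k => ?_⟩
  induction k with
  | zero => simp [pellSeq]
  | succ k ih =>
    obtain ⟨i1, i2, i3⟩ := ih
    simp only [pellSeq] at i1 i2 i3 ⊢
    refine ⟨?_, ?_, ?_⟩
    · linear_combination (U₀ ^ 2 - P.n * V₀ ^ 2) * i1 + h1
    · exact dvd_add (h2.mul_left _) (i2.mul_right _)
    · rw [pow_succ, ← i3]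
      push_cast
      rw [← P.r_sq]
      ring

/-- The two quadratic fields are different. -/
theorem indep (P Q : QF) (hr : res P.toTr Q.toTr = 1) {U V u v : ℤ}
    (hU : U ^ 2 - P.n * V ^ 2 = 1) (hu : u ^ 2 - Q.n * v ^ 2 = 1)
    (h : (U : ℝ) + V * P.r = u + v * Q.r) : v = 0 := by
  have hU' : ((U : ℝ) + V * P.r) * (U - V * P.r) = 1 := by
    have : (U : ℝ) ^ 2 - P.n * V ^ 2 = 1 := by exact_mod_cast hU
    rw [← P.r_sq] at this
    linear_combination this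
  have hu' : ((u : ℝ) + v * Q.r) * (u - v * Q.r) = 1 := by
    have : (u : ℝ) ^ 2 - Q.n * v ^ 2 = 1 := by exact_mod_cast hu
    rw [← Q.r_sq] at this
    linear_combination this
  have h2 : (U : ℝ) - V * P.r = u - v * Q.r := by
    linear_combination (u - v * Q.r) * hU' - (U - V * P.r) * hu' -
      (U - V * P.r) * (u - v * Q.r) * h
  have h3 : (V : ℝ) * P.r = v * Q.r := by linear_combination (1 / 2 : ℝ) * h - (1 / 2 : ℝ) * h2
  have h4 : P.n * V ^ 2 = Q.n * v ^ 2 := by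
    have : (P.n : ℝ) * V ^ 2 = Q.n * v ^ 2 := by
      rw [← P.r_sq, ← Q.r_sq]
      linear_combination (V * P.r + v * Q.r) * h3
    exact_mod_cast this
  rw [res_disc] at hr
  set m := 2 * P.B * Q.B - P.A * Q.C - Q.A * P.C
  by_contra hv
  have h5 : (2 * P.n * V) ^ 2 = (m ^ 2 - 1) * v ^ 2 := by
    linear_combination 4 * P.n * h4 - v ^ 2 * hr
  obtain ⟨j, hj⟩ : v ∣ 2 * P.n * V :=
    (Int.pow_dvd_pow_iff two_ne_zero).1 ⟨m ^ 2 - 1, by rw [h5]; ring⟩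
  have h6 : m ^ 2 - 1 = j ^ 2 := by
    have : v ^ 2 * (m ^ 2 - 1 - j ^ 2) = 0 := by
      rw [hj] at h5
      linear_combination -h5
    have := (mul_eq_zero.1 this).resolve_left (pow_ne_zero 2 hv)
    linarith
  have h7 : (m - j) * (m + j) = 1 := by linear_combination h6
  have hj0 : j = 0 := by
    rcases Int.eq_one_or_neg_one_of_mul_eq_one' h7 with ⟨a, b⟩ | ⟨a, b⟩ <;> linarith
  have h8 : 0 < P.n * Q.n := mul_pos P.n_pos Q.n_pos
  rw [hj0] at h6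
  nlinarith

theorem pell_align {a b L t : ℝ} (ha : 0 < a) (hb : 0 < b) {l₀ k₀ : ℕ}
    (h0 : l₀ * a - k₀ * b ≠ 0) (h1 : |l₀ * a - k₀ * b| ≤ L) (J : ℕ) :
    ∃ k : ℕ, J ≤ k ∧ ∃ l : ℕ, t ≤ l * a - k * b ∧ l * a - k * b ≤ t + L := by
  set θ := l₀ * a - k₀ * b with hθ
  rcases lt_or_gt_of_ne h0 with h | h
  · rw [abs_of_neg h] at h1
    obtain ⟨l₁, hl⟩ := exists_nat_ge ((t + L + J * b) / a)
    rw [div_le_iff₀ ha] at hl
    have hθ' : 0 < -θ := by linarith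
    set x := (l₁ * a - J * b - t - L) / -θ with hx
    have hx0 : 0 ≤ x := div_nonneg (by linarith) hθ'.le
    have e : x * -θ = l₁ * a - J * b - t - L := by rw [hx]; field_simp
    have c1 := Nat.le_ceil x
    have c2 := (Nat.ceil_lt_add_one hx0).le
    have c3 := mul_le_mul_of_nonneg_right c1 hθ'.le
    have c4 := mul_le_mul_of_nonneg_right c2 hθ'.le
    refine ⟨J + ⌈x⌉₊ * k₀, Nat.le_add_right _ _, l₁ + ⌈x⌉₊ * l₀, ?_, ?_⟩
    · push_cast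
      have : (l₁ + ⌈x⌉₊ * l₀ : ℝ) * a - (J + ⌈x⌉₊ * k₀) * b = l₁ * a - J * b + ⌈x⌉₊ * θ := by
        rw [hθ]; ring
      rw [this]
      nlinarith
    · push_cast
      have : (l₁ + ⌈x⌉₊ * l₀ : ℝ) * a - (J + ⌈x⌉₊ * k₀) * b = l₁ * a - J * b + ⌈x⌉₊ * θ := by
        rw [hθ]; ring
      rw [this]
      nlinarith
  · rw [abs_of_pos h] at h1
    obtain ⟨k₁, hk⟩ := exists_nat_ge (-t / b)
    rw [div_le_iff₀ hb] at hk
    have hJ : (0 : ℝ) ≤ J * b := by positivity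
    set x := (t + (J + k₁) * b) / θ with hx
    have hx0 : 0 ≤ x := div_nonneg (by linarith) h.le
    have e : x * θ = t + (J + k₁) * b := by rw [hx]; field_simp
    have c1 := Nat.le_ceil x
    have c2 := (Nat.ceil_lt_add_one hx0).le
    have c3 := mul_le_mul_of_nonneg_right c1 h.le
    have c4 := mul_le_mul_of_nonneg_right c2 h.le
    refine ⟨J + k₁ + ⌈x⌉₊ * k₀, by omega, ⌈x⌉₊ * l₀, ?_, ?_⟩
    · push_cast
      have : (⌈x⌉₊ * l₀ : ℝ) * a - (J + k₁ + ⌈x⌉₊ * k₀) * b = ⌈x⌉₊ * θ - (J + k₁) * b := by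
        rw [hθ]; ring
      rw [this]
      linarith
    · push_cast
      have : (⌈x⌉₊ * l₀ : ℝ) * a - (J + k₁ + ⌈x⌉₊ * k₀) * b = ⌈x⌉₊ * θ - (J + k₁) * b := by
        rw [hθ]; ring
      rw [this]
      linarith

/-- Powers of independent numbers can be aligned. -/
theorem align {e₁ e₂ c : ℝ} (h₁ : 1 < e₁) (h₂ : 1 < e₂)
    (h : ∀ l k : ℕ, 0 < k → e₁ ^ l ≠ e₂ ^ k) (hc : 0 < c) :
    ∃ᶠ k in atTop, ∃ l : ℕ, c * e₂ ^ k ≤ e₁ ^ l ∧ e₁ ^ l ≤ 2 * c * e₂ ^ k := by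
  have p₁ : 0 < e₁ := by linarith
  have p₂ : 0 < e₂ := by linarith
  have ha : 0 < Real.log e₁ := Real.log_pos h₁
  have hb : 0 < Real.log e₂ := Real.log_pos h₂
  have hL : 0 < Real.log 2 := Real.log_pos one_lt_two
  set a := Real.log e₁ with hae
  set b := Real.log e₂ with hbe
  obtain ⟨n, hn⟩ := exists_nat_ge (a / Real.log 2)
  rw [div_le_iff₀ hL] at hn
  obtain ⟨k₀, hk0, -, hk⟩ := Real.exists_nat_abs_mul_sub_round_le (b / a) (n := n + 1)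
    (Nat.succ_pos n)
  have hr : 0 ≤ round ((k₀ : ℝ) * (b / a)) := by
    rw [round_eq]
    exact Int.floor_nonneg.2 (by positivity)
  obtain ⟨l₀, hl₀⟩ := Int.eq_ofNat_of_zero_le hr
  rw [hl₀] at hk
  have h0 : l₀ * a - k₀ * b ≠ 0 := by
    intro h0
    refine h l₀ k₀ hk0 (Real.log_injOn_pos (Set.mem_Ioi.2 (pow_pos p₁ _))
      (Set.mem_Ioi.2 (pow_pos p₂ _)) ?_)
    rw [Real.log_pow, Real.log_pow]
    linarith
  have h1 : |l₀ * a - k₀ * b| ≤ Real.log 2 := by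
    have e : (l₀ : ℝ) * a - k₀ * b = -(k₀ * (b / a) - ((l₀ : ℤ) : ℝ)) * a := by
      push_cast
      field_simp
      ring
    rw [e, abs_mul, abs_neg, abs_of_pos ha]
    have h2 : (0 : ℝ) < ((n + 1 : ℕ) : ℝ) + 1 := by positivity
    rw [le_div_iff₀ h2] at hk
    push_cast at hk h2 ⊢
    have h3 := abs_nonneg ((k₀ : ℝ) * (b / a) - l₀)
    have h4 := mul_le_mul_of_nonneg_left hn h3
    nlinarith
  rw [frequently_atTop]
  intro J
  obtain ⟨k, hk, l, i1, i2⟩ := pell_align (t := Real.log c) ha hb h0 h1 J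
  refine ⟨k, hk, l, ?_, ?_⟩
  · rw [← Real.log_le_log_iff (by positivity) (by positivity),
      Real.log_mul hc.ne' (by positivity), Real.log_pow, Real.log_pow]
    linarith
  · rw [← Real.log_le_log_iff (by positivity) (by positivity),
      Real.log_mul (by positivity) (by positivity), Real.log_mul two_ne_zero hc.ne', Real.log_pow,
      Real.log_pow]
    linarith

end Pool.Agent.MP_06f5ad_nt.Q2

end

section

/-!
Passing Diophantine bounds to nearby points.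
-/

namespace Pool.Agent.MP_06f5ad_nt.Q2

open Filter Topology

theorem Approx_one_le {q : ℤ} (hq : q ≠ 0) : (1 : ℝ) ≤ |(q : ℝ)| := by
  exact_mod_cast Int.one_le_abs hq

theorem Approx_tri (q p x y : ℝ) : |q * y + p| ≤ |q * x + p| + |q| * |x - y| := by
  rw [← abs_mul]
  have : q * y + p = (q * x + p) - q * (x - y) := by ring
  rw [this]
  exact abs_sub _ _

theorem Approx_ba {A a b : ℝ} (hA : 1 ≤ A)
    (h : ∀ q p : ℤ, q ≠ 0 → 1 ≤ A * (|q * a + p| * |q * b + p|)) : BA a := by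
  have hd : 0 ≤ |a - b| := abs_nonneg _
  have hpos : 0 < A * (1 + |a - b|) := by positivity
  refine ⟨1 / (A * (1 + |a - b|)), by positivity, fun q p hq => ?_⟩
  have h1 := Approx_one_le hq
  have h2 := h q p hq
  have h3 := Approx_tri q p a b
  set X := |q * a + p|
  set Y := |q * b + p|
  set Q := |(q : ℝ)|
  have hX : 0 ≤ X := abs_nonneg _
  rw [div_le_iff₀ hpos]
  by_cases hc : 1 ≤ X * Q
  · have : 1 ≤ A * (1 + |a - b|) := by nlinarith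
    nlinarith
  · have h4 : X ≤ Q := by nlinarith
    have h5 : Y ≤ Q * (1 + |a - b|) := by linarith
    have h6 : X * Y ≤ X * (Q * (1 + |a - b|)) := mul_le_mul_of_nonneg_left h5 hX
    have h7 := mul_le_mul_of_nonneg_left h6 (by linarith : 0 ≤ A)
    nlinarith

theorem QF.ba_a (P : QF) : BA P.a :=
  Approx_ba P.one_le_A fun _ _ hq => P.norm (.inl hq)

theorem QF.ba_b (P : QF) : BA P.b :=
  Approx_ba (b := P.a) P.one_le_A fun _ _ hq => by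
    rw [mul_comm |_|]; exact P.norm (.inl hq)

theorem BA.dio {x : ℝ} (h : BA x) : ∃ κ : ℝ, 0 < κ ∧ Dio x κ := by
  obtain ⟨c, hc, h⟩ := h
  refine ⟨c, hc, fun q p hq => (h q p hq).trans ?_⟩
  exact mul_le_mul_of_nonneg_left (le_self_pow₀ (Approx_one_le hq) (by norm_num)) (abs_nonneg _)

theorem Dio.mono {x κ κ' : ℝ} (h : Dio x κ) (hκ : κ' ≤ κ) : Dio x κ' :=
  fun q p hq => hκ.trans (h q p hq)

theorem Conv.tendsto {T x : ℕ → ℝ} {x₀ : ℝ} (h : Conv T x x₀) : Tendsto x atTop (𝓝 x₀) := by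
  obtain ⟨C, hC⟩ := h.close
  rw [tendsto_iff_dist_tendsto_zero]
  have h1 : Tendsto (fun k => C / T k ^ 2) atTop (𝓝 0) :=
    tendsto_const_nhds.div_atTop ((tendsto_pow_atTop two_ne_zero).comp h.top)
  refine squeeze_zero' (Eventually.of_forall fun _ => dist_nonneg) ?_ h1
  filter_upwards [hC, h.top.eventually_gt_atTop 0] with k hk h0
  rw [Real.dist_eq, le_div_iff₀ (by positivity)]
  exact hk

theorem Conv.far {T x : ℕ → ℝ} {x₀ : ℝ} (h : Conv T x x₀) (Λ : ℝ) : ∃ Q₀ : ℝ,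
    ∀ᶠ k in atTop, ∀ q p : ℤ, Q₀ ≤ |(q : ℝ)| → Λ ≤ |q * x k + p| * |(q : ℝ)| ^ 3 := by
  obtain ⟨C₀, hC⟩ := h.close
  obtain ⟨c, hc, hba⟩ := h.ba
  obtain ⟨c', hc', hlow⟩ := h.low
  obtain ⟨C, hC1, hC2⟩ : ∃ C : ℝ, 0 < C ∧ C₀ ≤ C :=
    ⟨max 1 C₀, lt_max_of_lt_left one_pos, le_max_right _ _⟩
  refine ⟨max 1 (2 * Λ / c), ?_⟩
  filter_upwards [hC, hlow, h.top.eventually_gt_atTop 0,
    h.top.eventually_ge_atTop (2 * C * Λ / (c' * c))] with k hk hl h0 hT q p hq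
  have hQ1 : 1 ≤ |(q : ℝ)| := (le_max_left _ _).trans hq
  have hQ2 : 2 * Λ ≤ |(q : ℝ)| * c := (div_le_iff₀ hc).1 ((le_max_right _ _).trans hq)
  have hq0 : q ≠ 0 := by
    rintro rfl
    norm_num at hQ1
  have h1 := hba q p hq0
  have h2 := hl q p hq0
  have h3 := Approx_tri q p (x k) x₀
  have hT' : 2 * C * Λ ≤ T k * (c' * c) := (div_le_iff₀ (mul_pos hc' hc)).1 hT
  set L := |q * x k + p|
  set L₀ := |q * x₀ + p|
  set Q := |(q : ℝ)|
  set e := |x k - x₀|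
  set t := T k
  have hL : 0 ≤ L := abs_nonneg _
  have he : 0 ≤ e := abs_nonneg _
  have ht2 : 0 < t ^ 2 := by positivity
  by_cases hcase : Q ^ 2 * C ≤ c * t ^ 2 / 2
  · have h4 : Q ^ 2 * e ≤ c / 2 := by
      refine le_of_mul_le_mul_right ?_ ht2
      have : Q ^ 2 * (e * t ^ 2) ≤ Q ^ 2 * C :=
        mul_le_mul_of_nonneg_left (hk.trans hC2) (sq_nonneg _)
      linarith
    have h5 : c / 2 ≤ L * Q := by
      have := mul_le_mul_of_nonneg_right h3 (by linarith : 0 ≤ Q)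
      nlinarith
    have h6 : c / 2 * Q ^ 2 ≤ L * Q * Q ^ 2 := mul_le_mul_of_nonneg_right h5 (sq_nonneg _)
    have h7 : c * Q ≤ c * Q ^ 2 := mul_le_mul_of_nonneg_left (by nlinarith) hc.le
    nlinarith
  · push Not at hcase
    have h4 : c' * Q ^ 2 ≤ t * (L * Q) * Q ^ 2 := mul_le_mul_of_nonneg_right h2 (sq_nonneg _)
    have h5 : c' * (c * t ^ 2 / 2) ≤ c' * (Q ^ 2 * C) := mul_le_mul_of_nonneg_left hcase.le hc'.le
    have h6 := mul_le_mul_of_nonneg_right h4 hC1.le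
    have h7 := mul_le_mul_of_nonneg_right hT' h0.le
    refine le_of_mul_le_mul_right ?_ (mul_pos hC1 h0)
    nlinarith

theorem Conv.dio {T x : ℕ → ℝ} {x₀ κ κ' : ℝ} (h : Conv T x x₀) (hκ : Dio x₀ κ) (hlt : κ' < κ) :
    ∀ᶠ k in atTop, Dio (x k) κ' := by
  obtain ⟨Q₀, hQ⟩ := h.far κ'
  have h1 : Tendsto (fun k => |x k - x₀| * Q₀ ^ 4) atTop (𝓝 (|x₀ - x₀| * Q₀ ^ 4)) :=
    ((h.tendsto.sub_const x₀).abs).mul_const _
  rw [sub_self, abs_zero, zero_mul] at h1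
  filter_upwards [hQ, h1.eventually (gt_mem_nhds (sub_pos.2 hlt))] with k hk hs q p hq
  by_cases hc : Q₀ ≤ |(q : ℝ)|
  · exact hk q p hc
  · push Not at hc
    have h2 := hκ q p hq
    have h3 := Approx_tri q p (x k) x₀
    have h4 : |(q : ℝ)| ^ 4 ≤ Q₀ ^ 4 := pow_le_pow_left₀ (abs_nonneg _) hc.le 4
    have h5 := mul_le_mul_of_nonneg_left h4 (abs_nonneg (x k - x₀))
    have h6 := mul_le_mul_of_nonneg_right h3 (by positivity : 0 ≤ |(q : ℝ)| ^ 3)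
    nlinarith

end Pool.Agent.MP_06f5ad_nt.Q2

end

section

/-!
The family of new quadratics.
-/

namespace Pool.Agent.MP_06f5ad_nt.Q2

open Filter Topology

theorem Gs_lip {f : ℝ → ℝ} (h : DifferentiableAt ℝ f 0) :
    ∃ C : ℝ, ∀ᶠ τ in 𝓝 (0 : ℝ), |f τ - f 0| ≤ C * |τ| := by
  obtain ⟨C, hC⟩ := h.isBigO_sub.bound
  exact ⟨C, hC.mono fun τ h => by simpa using h⟩

/-- Roots of a perturbed quadratic. -/
theorem roots {a x₀ y₀ : ℝ} (b₂ b₁ b₀ : ℝ) (ha : a ≠ 0) (hxy : x₀ ≠ y₀) :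
    ∃ (x y : ℝ → ℝ) (C : ℝ), ∀ᶠ τ in 𝓝 (0 : ℝ), |x τ - x₀| ≤ C * |τ| ∧ |y τ - y₀| ≤ C * |τ| ∧
      (a + τ * b₂) * (x τ + y τ) = a * (x₀ + y₀) - τ * b₁ ∧
      (a + τ * b₂) * (x τ * y τ) = a * (x₀ * y₀) + τ * b₀ := by
  set s : ℝ → ℝ := fun τ => (a * (x₀ + y₀) - τ * b₁) / (a + τ * b₂) with hs
  set p : ℝ → ℝ := fun τ => (a * (x₀ * y₀) + τ * b₀) / (a + τ * b₂) with hp
  set D : ℝ → ℝ := fun τ => s τ ^ 2 - 4 * p τ with hD
  set g : ℝ := (x₀ - y₀) / |x₀ - y₀| with hg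
  have hd : x₀ - y₀ ≠ 0 := sub_ne_zero.2 hxy
  have hd' : |x₀ - y₀| ≠ 0 := abs_ne_zero.2 hd
  have g2 : g ^ 2 = 1 := by rw [hg, div_pow, sq_abs, div_self (pow_ne_zero 2 hd)]
  have s0 : s 0 = x₀ + y₀ := by simp only [hs, zero_mul, add_zero, sub_zero]; field_simp
  have p0 : p 0 = x₀ * y₀ := by simp only [hp, zero_mul, add_zero]; field_simp
  have D0 : D 0 = (x₀ - y₀) ^ 2 := by simp only [hD]; rw [s0, p0]; ring
  have r0 : g * √(D 0) = x₀ - y₀ := by rw [D0, Real.sqrt_sq_eq_abs, hg, div_mul_cancel₀ _ hd']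
  have a0 : a + 0 * b₂ ≠ 0 := by simpa using ha
  have ds : DifferentiableAt ℝ s 0 := by
    simp only [hs]; exact DifferentiableAt.div (by fun_prop) (by fun_prop) a0
  have dp : DifferentiableAt ℝ p 0 := by
    simp only [hp]; exact DifferentiableAt.div (by fun_prop) (by fun_prop) a0
  have dD : DifferentiableAt ℝ D 0 := (ds.pow 2).sub (dp.const_mul 4)
  have Dpos : 0 < D 0 := by rw [D0]; positivity
  have dr : DifferentiableAt ℝ (fun τ => g * √(D τ)) 0 := (dD.sqrt Dpos.ne').const_mul g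
  obtain ⟨C₁, h₁⟩ := Gs_lip (f := fun τ => (s τ + g * √(D τ)) / 2) ((ds.add dr).div_const 2)
  obtain ⟨C₂, h₂⟩ := Gs_lip (f := fun τ => (s τ - g * √(D τ)) / 2) ((ds.sub dr).div_const 2)
  have h₃ : ∀ᶠ τ in 𝓝 (0 : ℝ), a + τ * b₂ ≠ 0 :=
    (show ContinuousAt (fun τ => a + τ * b₂) 0 by fun_prop).eventually_ne a0
  have h₄ : ∀ᶠ τ in 𝓝 (0 : ℝ), 0 < D τ := dD.continuousAt.eventually (lt_mem_nhds Dpos)
  refine ⟨fun τ => (s τ + g * √(D τ)) / 2, fun τ => (s τ - g * √(D τ)) / 2, max C₁ C₂, ?_⟩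
  filter_upwards [h₁, h₂, h₃, h₄] with τ k₁ k₂ k₃ k₄
  rw [s0, r0] at k₁ k₂
  refine ⟨?_, ?_, ?_, ?_⟩
  · rw [show (x₀ + y₀ + (x₀ - y₀)) / 2 = x₀ by ring] at k₁
    exact k₁.trans (mul_le_mul_of_nonneg_right (le_max_left _ _) (abs_nonneg _))
  · rw [show (x₀ + y₀ - (x₀ - y₀)) / 2 = y₀ by ring] at k₂
    exact k₂.trans (mul_le_mul_of_nonneg_right (le_max_right _ _) (abs_nonneg _))
  · rw [show (s τ + g * √(D τ)) / 2 + (s τ - g * √(D τ)) / 2 = s τ by ring]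
    exact mul_div_cancel₀ _ k₃
  · have h5 := Real.sq_sqrt k₄.le
    have h6 : (s τ + g * √(D τ)) / 2 * ((s τ - g * √(D τ)) / 2) = p τ := by
      have h7 : D τ = s τ ^ 2 - 4 * p τ := rfl
      linear_combination (-(√(D τ)) ^ 2 / 4) * g2 - h5 / 4 - h7 / 4
    rw [h6]
    exact mul_div_cancel₀ _ k₃

theorem Gs_ne {O : Tr} (hO : O.NS) (u : ℤ) {v : ℤ} (hv : v ≠ 0) : u ^ 2 - O.n * v ^ 2 ≠ 0 :=
  fun h => hv (hO.sq (k := u) (by linarith))

/-- The norm bound at the limit of the second root. -/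
theorem low_y (P : QF) {O : Tr} (hO : O.NS) {u v : ℤ} (hv : v ≠ 0) {φ y : ℝ}
    (hφ : φ = O.A * P.b + O.B + u / v) (hφ0 : φ ≠ 0) (hy : y = P.b - O.ev P.b / φ)
    {q p : ℤ} (hq : q ≠ 0) :
    1 ≤ P.A * (v : ℝ) ^ 2 * (|φ| * |q * y + p|) *
      (|O.A * P.a + O.B + u / v| * |q * P.a + p| + |(q : ℝ)| * |O.ev P.a|) := by
  obtain ⟨q', p', h0, h1⟩ := hmap (Gs_ne hO u hv) (p := p) (Or.inl hq)
  have hv' : (v : ℝ) ≠ 0 := by exact_mod_cast hv
  have h2 := P.norm h0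
  have e1 : q' * P.b + p' = v * (φ * (q * y + p)) := by
    have e : φ * (q * y + p) = φ * (q * P.b + p) - q * O.ev P.b := by
      rw [hy]; field_simp; ring
    rw [h1, e, hφ]; field_simp; ring
  have e2 : q' * P.a + p' = v * ((O.A * P.a + O.B + u / v) * (q * P.a + p) - q * O.ev P.a) := by
    rw [h1]; field_simp; ring
  have h3 : |(O.A * P.a + O.B + u / v) * (q * P.a + p) - q * O.ev P.a| ≤
      |O.A * P.a + O.B + u / v| * |q * P.a + p| + |(q : ℝ)| * |O.ev P.a| := by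
    rw [← abs_mul, ← abs_mul]; exact abs_sub _ _
  rw [e1, e2, abs_mul, abs_mul, abs_mul] at h2
  have h4 := mul_le_mul_of_nonneg_left h3
    (show 0 ≤ P.A * (v : ℝ) ^ 2 * (|φ| * |q * y + p|) by have := P.Apos; positivity)
  refine le_trans (h2.trans (le_of_eq ?_)) h4
  rw [← sq_abs (v : ℝ)]; ring

theorem Gs_low {N T X q : ℝ} (hN : 0 < N) (hT : 1 ≤ T) (hq : 1 ≤ q)
    (h : X ≤ 1 → 1 ≤ N * (T * (X * q))) : min 1 (1 / N) ≤ T * (X * q) := by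
  rcases le_total X 1 with h1 | h1
  · exact (min_le_right _ _).trans (by rw [div_le_iff₀ hN]; linarith [h h1])
  · exact (min_le_left _ _).trans (one_le_mul_of_one_le_of_one_le hT
      (one_le_mul_of_one_le_of_one_le h1 hq))

theorem ba_y (P : QF) {O : Tr} (hO : O.NS) {u v : ℤ} (hv : v ≠ 0) {φ y : ℝ}
    (hφ : φ = O.A * P.b + O.B + u / v) (hφ0 : φ ≠ 0) (hy : y = P.b - O.ev P.b / φ) : BA y := by
  have hA := P.Apos
  set ψ := |O.A * P.a + O.B + u / v| with hψ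
  set N : ℝ := P.A * (v : ℝ) ^ 2 * |φ| * (ψ * (1 + |y - P.a|) + |O.ev P.a|) + 1 with hN
  have hN0 : 0 < N := by positivity
  refine ⟨min 1 (1 / N), by positivity, fun q p hq => ?_⟩
  have hq1 := Approx_one_le hq
  have := Gs_low (T := 1) (X := |q * y + p|) hN0 le_rfl hq1 fun h1 => by
    have h2 := low_y P hO hv hφ hφ0 hy (p := p) hq
    have h3 := Approx_tri q p y P.a
    have h4 : |q * P.a + p| ≤ |(q : ℝ)| * (1 + |y - P.a|) := by linarith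
    have h5 := mul_le_mul_of_nonneg_left h4 (show 0 ≤ ψ by positivity)
    have h6 : ψ * |q * P.a + p| + |(q : ℝ)| * |O.ev P.a| ≤
        |(q : ℝ)| * (ψ * (1 + |y - P.a|) + |O.ev P.a|) := by linarith
    have h7 := mul_le_mul_of_nonneg_left h6
      (show 0 ≤ P.A * (v : ℝ) ^ 2 * (|φ| * |q * y + p|) by positivity)
    have h8 : 0 ≤ |q * y + p| * |(q : ℝ)| := by positivity
    rw [hN]
    linarith
  rwa [one_mul] at this

theorem Gs_conv {T x z A : ℕ → ℝ} {x₀ C α D : ℝ} (hT : Tendsto T atTop atTop) (hb : BA x₀)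
    (hα : 0 < α) (hD : 0 ≤ D)
    (h : ∀ᶠ k in atTop, |x k - x₀| * T k ^ 2 ≤ C ∧ A k ≤ α * T k ∧ |x k - z k| ≤ D ∧
      ∀ q p : ℤ, q ≠ 0 → 1 ≤ A k * (|q * x k + p| * |q * z k + p|)) : Conv T x x₀ := by
  refine ⟨hT, ⟨C, h.mono fun k h => h.1⟩, hb, min 1 (1 / (α * (1 + D))), by positivity, ?_⟩
  filter_upwards [h, hT.eventually_ge_atTop 1] with k ⟨_, h2, h3, h4⟩ h5 q p hq
  have hq1 := Approx_one_le hq
  refine Gs_low (by positivity) h5 hq1 fun h1 => ?_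
  have h6 := Approx_tri q p (x k) (z k)
  have h7 := mul_le_mul_of_nonneg_left h3 (abs_nonneg (q : ℝ))
  have h8 : |q * z k + p| ≤ |(q : ℝ)| * (1 + D) := by linarith
  calc (1 : ℝ) ≤ A k * (|q * x k + p| * |q * z k + p|) := h4 q p hq
    _ ≤ α * T k * (|q * x k + p| * |q * z k + p|) :=
      mul_le_mul_of_nonneg_right h2 (by positivity)
    _ ≤ α * T k * (|q * x k + p| * (|(q : ℝ)| * (1 + D))) := by gcongr
    _ = _ := by ring

/-- The real coefficients of the new quadratic. -/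
theorem Gs_coef (P : QF) (O : Tr) {u v : ℤ} (hv : v ≠ 0) {φ y : ℝ}
    (hφ : φ = O.A * P.b + O.B + u / v) (hφ0 : φ ≠ 0) (hy : y = P.b - O.ev P.b / φ) :
    ∃ b₂ b₁ b₀ : ℝ, ∀ (e U w : ℤ) (T : ℝ), 0 < T → U ^ 2 - P.n * (2 * (v * w)) ^ 2 = 1 →
      (U : ℝ) + (2 * (v * w) : ℤ) * P.r = T →
      ((St P.toTr O e U (v * w) (-2 * w * u)).A : ℝ) =
        e * (T / 2) * (-(P.A * φ / P.r) + (T ^ 2)⁻¹ * b₂) ∧
      -2 * ((St P.toTr O e U (v * w) (-2 * w * u)).B : ℝ) =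
        e * (T / 2) * (-(P.A * φ / P.r) * (P.a + y) - (T ^ 2)⁻¹ * b₁) ∧
      ((St P.toTr O e U (v * w) (-2 * w * u)).C : ℝ) =
        e * (T / 2) * (-(P.A * φ / P.r) * (P.a * y) + (T ^ 2)⁻¹ * b₀) := by
  have hv' : (v : ℝ) ≠ 0 := by exact_mod_cast hv
  have hr := P.r_ne
  set μ : ℝ := u / v with hμ
  have hu : (u : ℝ) = μ * v := by rw [hμ]; field_simp
  refine ⟨O.A + (P.A * O.B - O.A * P.B + μ * P.A) / P.r,
    2 * O.B + (P.A * O.C - O.A * P.C + 2 * μ * P.B) / P.r,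
    O.C + (P.B * O.C - O.B * P.C + μ * P.C) / P.r, fun e U w T hT hU hS => ?_⟩
  have hU' : (U : ℝ) ^ 2 - P.r ^ 2 * (2 * (v * w)) ^ 2 = 1 := by
    rw [P.r_sq]; exact_mod_cast hU
  push_cast at hS
  have h1 : (U : ℝ) - 2 * (v * w) * P.r = T⁻¹ := by
    refine eq_inv_of_mul_eq_one_left ?_
    rw [← hS]; linear_combination hU'
  have eU : (U : ℝ) = (T + T⁻¹) / 2 := by linarith
  have eV : (v : ℝ) * w = (T - T⁻¹) / (4 * P.r) := by field_simp; field_simp at h1; nlinarith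
  have f2 : -(P.A * φ / P.r) = O.A - (P.A * O.B - O.A * P.B + μ * P.A) / P.r := by
    have := P.r_b
    rw [hφ]; field_simp; linear_combination (-(O.A : ℝ)) * this
  have ey : φ * y = φ * P.b - O.ev P.b := by rw [hy]; field_simp
  have f1 : -(P.A * φ / P.r) * (P.a + y) =
      -(2 * O.B - (P.A * O.C - O.A * P.C + 2 * μ * P.B) / P.r) := by
    have : -(P.A * φ / P.r) * (P.a + y) = -(P.A * (φ * P.a + φ * y) / P.r) := by ring
    rw [this, ey, hφ]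
    field_simp
    unfold Tr.ev QF.r
    rw [P.B_eq, P.C_eq]; ring
  have f0 : -(P.A * φ / P.r) * (P.a * y) = O.C - (P.B * O.C - O.B * P.C + μ * P.C) / P.r := by
    have : -(P.A * φ / P.r) * (P.a * y) = -(P.A * P.a * (φ * y) / P.r) := by ring
    rw [this, ey, hφ]
    field_simp
    unfold Tr.ev QF.r
    rw [P.B_eq, P.C_eq]; ring
  have ek : (w : ℝ) * u = μ * (v * w) := by rw [hu]; ring
  rw [f1, f0, f2]
  simp only [St]
  push_cast
  refine ⟨?_, ?_, ?_⟩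
  · rw [mul_assoc (-2 : ℝ), ek, eV, eU]; field_simp; ring
  · rw [mul_assoc (-2 : ℝ) (w : ℝ), ek, eV, eU]; field_simp; ring
  · rw [mul_assoc (-2 : ℝ), ek, eV, eU]; field_simp; ring

/-- The family of new quadratics attached to the rational number `u / v`. -/
theorem gs (P : QF) {O : Tr} (hO : O.NS) (hr : res P.toTr O = 1) {u v : ℤ} (hv : v ≠ 0) {φ y : ℝ}
    (hφ : φ = O.A * P.b + O.B + u / v) (hφ0 : φ ≠ 0) (hy : y = P.b - O.ev P.b / φ)
    (hya : y ≠ P.a) : ∃ (F : ℕ → QF) (T : ℕ → ℝ),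
      Conv T (fun k => (F k).a) P.a ∧ Conv T (fun k => (F k).b) y ∧
      Tendsto (fun k => ((F k).A : ℝ)) atTop atTop ∧
      ∀ᶠ k in atTop, res P.toTr (F k).toTr = 1 ∧
        (u ^ 2 - O.n * v ^ 2 = 1 → ∃ U' : ℤ, U' ^ 2 - (F k).n * v ^ 2 = 1) := by
  obtain ⟨b₂, b₁, b₀, hb⟩ := Gs_coef P O hv hφ hφ0 hy
  set a : ℝ := -(P.A * φ / P.r) with ha
  have ha0 : a ≠ 0 := neg_ne_zero.2 (div_ne_zero (mul_ne_zero P.Apos.ne' hφ0) P.r_ne)
  have hap : 0 < |a| := abs_pos.2 ha0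
  obtain ⟨e, he, hea⟩ : ∃ e : ℤ, e ^ 2 = 1 ∧ e * a = |a| := by
    rcases le_total 0 a with h | h
    · exact ⟨1, by norm_num, by simp [abs_of_nonneg h]⟩
    · exact ⟨-1, by norm_num, by simp [abs_of_nonpos h]⟩
  have he1 : |(e : ℝ)| = 1 := by
    have : (e : ℝ) ^ 2 = 1 := by exact_mod_cast he
    exact (sq_eq_sq₀ (abs_nonneg _) zero_le_one).1 (by rw [sq_abs, this]; norm_num)
  obtain ⟨x, z, C, hxz⟩ := roots b₂ b₁ b₀ ha0 hya.symm
  obtain ⟨ε, U, V, hε, hp⟩ := pell P (M := 10 * v) (mul_ne_zero (by norm_num) hv)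
  have hT : Tendsto (fun k : ℕ => ε ^ k) atTop atTop := tendsto_pow_atTop_atTop_of_one_lt hε
  have hτ : Tendsto (fun k : ℕ => ((ε ^ k) ^ 2)⁻¹) atTop (𝓝 0) :=
    ((tendsto_pow_atTop two_ne_zero).comp hT).inv_tendsto_atTop
  have hs : ∀ c d : ℝ, 0 < d → ∀ᶠ k : ℕ in atTop, c * ((ε ^ k) ^ 2)⁻¹ ≤ d := fun c d hd => by
    have := hτ.const_mul c
    rw [mul_zero] at this
    exact this.eventually (ge_mem_nhds hd)
  have key : ∀ᶠ k : ℕ in atTop, ∃ Q : QF, |Q.a - P.a| * (ε ^ k) ^ 2 ≤ C ∧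
      |Q.b - y| * (ε ^ k) ^ 2 ≤ C ∧ |Q.a - Q.b| ≤ |P.a - y| + 2 ∧ |a| / 4 * ε ^ k ≤ Q.A ∧
      Q.A ≤ |a| * ε ^ k ∧ res P.toTr Q.toTr = 1 ∧
      (u ^ 2 - O.n * v ^ 2 = 1 → ∃ U' : ℤ, U' ^ 2 - Q.n * v ^ 2 = 1) := by
    filter_upwards [hτ.eventually hxz, hs |b₂| (|a| / 2) (by positivity), hs C 1 one_pos]
      with k ⟨k1, k2, k3, k4⟩ k5 k6
    obtain ⟨p1, ⟨w, p2⟩, p3⟩ := hp k
    have hT0 : 0 < ε ^ k := by positivity
    have hV : V k = 2 * (v * (5 * w)) := by rw [p2]; ring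
    rw [hV] at p1 p3
    obtain ⟨c2, c1, c0⟩ := hb e (U k) (5 * w) (ε ^ k) hT0 p1 p3
    set τ := ((ε ^ k) ^ 2)⁻¹ with hτd
    have hτ0 : 0 < τ := by positivity
    rw [abs_of_pos hτ0] at k1 k2
    have m1 : |e * (τ * b₂)| ≤ |a| / 2 := by
      rw [abs_mul, he1, one_mul, abs_mul, abs_of_pos hτ0]; linarith
    rw [abs_le] at m1
    have c3 : ((St P.toTr O e (U k) (v * (5 * w)) (-2 * (5 * w) * u)).A : ℝ) =
        ε ^ k / 2 * (|a| + e * (τ * b₂)) := by rw [c2, ← hea]; ring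
    have l1 : |a| / 4 * ε ^ k ≤ (St P.toTr O e (U k) (v * (5 * w)) (-2 * (5 * w) * u)).A := by
      rw [c3]; nlinarith
    have l2 : (St P.toTr O e (U k) (v * (5 * w)) (-2 * (5 * w) * u)).A ≤ |a| * ε ^ k := by
      rw [c3]; nlinarith
    refine ⟨⟨St P.toTr O e (U k) (v * (5 * w)) (-2 * (5 * w) * u), x τ, z τ, ?_, ?_, ?_, ?_⟩,
      ?_, ?_, ?_, l1, l2, ?_, fun hu => St_unit hr he p1 hu⟩
    · exact_mod_cast lt_of_lt_of_le (show (0 : ℝ) < |a| / 4 * ε ^ k by positivity) l1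
    · rw [c1, c2, mul_assoc, k3]
    · rw [c0, c2, mul_assoc, k4]
    · exact St_ns hO he p1 ⟨v * w, by ring⟩ ⟨-2 * w * u, by ring⟩
    · exact (le_div_iff₀ (by positivity)).1 k1
    · exact (le_div_iff₀ (by positivity)).1 k2
    · have h1 := abs_sub_le (x τ) P.a (z τ)
      have h2 := abs_sub_le P.a y (z τ)
      rw [abs_sub_comm y] at h2
      show |x τ - z τ| ≤ _
      linarith
    · show res P.toTr (St _ _ _ _ _ _) = 1
      rw [St_res, he, p1, hr]; norm_num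
  obtain ⟨F, hF⟩ := key.choice
  refine ⟨F, fun k => ε ^ k, ?_, ?_, ?_, hF.mono fun k h => h.2.2.2.2.2⟩
  · refine Gs_conv (z := fun k => (F k).b) (A := fun k => (F k).A) (C := C) hT P.ba_a hap
      (show 0 ≤ |P.a - y| + 2 by positivity) (hF.mono fun k h => ?_)
    exact ⟨h.1, h.2.2.2.2.1, h.2.2.1, fun q p hq => (F k).norm (Or.inl hq)⟩
  · refine Gs_conv (z := fun k => (F k).a) (A := fun k => (F k).A) (C := C) hT
      (ba_y P hO hv hφ hφ0 hy) hap (show 0 ≤ |P.a - y| + 2 by positivity) (hF.mono fun k h => ?_)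
    refine ⟨h.2.1, h.2.2.2.2.1, by rw [abs_sub_comm]; exact h.2.2.1, fun q p hq => ?_⟩
    rw [mul_comm |q * (F k).b + p|]
    exact (F k).norm (Or.inl hq)
  · exact tendsto_atTop_mono' _ (hF.mono fun k h => h.2.2.2.1)
      (hT.const_mul_atTop (by positivity))

end Pool.Agent.MP_06f5ad_nt.Q2

end

section

/-!
Transfer of goodness, first part.
-/

namespace Pool.Agent.MP_06f5ad_nt.Q2

open Filter Topology

theorem Trans_pow {W : ℝ} (hW : 0 ≤ W) (k : ℕ) : (W + 2) ^ k * (W - 2 * k) ≤ W ^ (k + 1) := by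
  induction k with
  | zero => simp
  | succ k ih =>
    have h0 : 0 ≤ (W + 2) ^ k := by positivity
    have hk : (0 : ℝ) ≤ k := Nat.cast_nonneg k
    have h1 : (W + 2) * (W - 2 * ((k + 1 : ℕ) : ℝ)) ≤ W * (W - 2 * k) := by
      push_cast
      nlinarith
    calc (W + 2) ^ (k + 1) * (W - 2 * ((k + 1 : ℕ) : ℝ))
        = (W + 2) ^ k * ((W + 2) * (W - 2 * ((k + 1 : ℕ) : ℝ))) := by ring
      _ ≤ (W + 2) ^ k * (W * (W - 2 * k)) := mul_le_mul_of_nonneg_left h1 h0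
      _ = W * ((W + 2) ^ k * (W - 2 * k)) := by ring
      _ ≤ W * W ^ (k + 1) := mul_le_mul_of_nonneg_left ih hW
      _ = W ^ (k + 1 + 1) := by ring

theorem succ_pow {W : ℝ} (hW : 2 ^ 100 ≤ W) {k : ℕ} (hk : k ≤ 1000) :
    (W + 2) ^ k ≤ 2 * W ^ k := by
  have hb : (4000 : ℝ) ≤ W := le_trans (by norm_num) hW
  have hW0 : 0 < W := by linarith
  have hk' : (k : ℝ) ≤ 1000 := by exact_mod_cast hk
  have h := Trans_pow hW0.le k
  have h0 : 0 ≤ (W + 2) ^ k := by positivity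
  have h2 : (W + 2) ^ k * (W / 2) ≤ (W + 2) ^ k * (W - 2 * k) :=
    mul_le_mul_of_nonneg_left (by linarith) h0
  have h3 : (W + 2) ^ k * W ≤ (2 * W ^ k) * W := by
    have : W ^ (k + 1) = W ^ k * W := pow_succ W k
    linarith
  exact le_of_mul_le_mul_right h3 hW0

theorem ok_trans {W X Y X' Y' : ℝ} {l : ℕ} (hW : 2 ^ 100 ≤ W) (hX : 0 ≤ X) (hY : 0 ≤ Y)
    (hX' : 0 ≤ X') (hY' : 0 ≤ Y') (h : Ok W l X Y) (h1 : X ≤ 10 ^ 5 * X')
    (h2 : W ^ 25 * Y ≤ 10 ^ 5 * (W ^ 25 * Y' + 1)) (h3 : W ^ 25 * Y' ≤ 10 ^ 5 * (W ^ 25 * Y) + 1) :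
    Ok W (l + 1) X' Y' := by
  have hb : (10 ^ 21 : ℝ) ≤ W := le_trans (by norm_num) hW
  have hW1 : 1 ≤ W := by linarith
  have hW0 : 0 < W := by linarith
  have hl : 1 ≤ W ^ l := one_le_pow₀ hW1
  have hl0 : 0 ≤ W ^ l := by linarith
  intro hs
  have ha : W ^ l * X ≤ W ^ (l + 1) * X' := by
    calc W ^ l * X ≤ W ^ l * (10 ^ 5 * X') := mul_le_mul_of_nonneg_left h1 hl0
      _ ≤ W ^ l * (W * X') :=
          mul_le_mul_of_nonneg_left (mul_le_mul_of_nonneg_right (by linarith) hX') hl0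
      _ = W ^ (l + 1) * X' := by ring
  have hs' : W ^ l * X ≤ W ^ 85 := ha.trans hs
  rcases h hs' with hc | ⟨hc, hd⟩
  · left
    have hY3 : 0 ≤ Y ^ 3 := by positivity
    have e1 : W ^ 25 * 1 ≤ W ^ 25 * (W ^ 20 * Y) ^ 3 := by
      calc W ^ 25 * 1 = W ^ 25 := by ring
        _ ≤ W ^ l * X * Y ^ 3 := hc
        _ ≤ W ^ 85 * Y ^ 3 := mul_le_mul_of_nonneg_right hs' hY3
        _ = W ^ 25 * (W ^ 20 * Y) ^ 3 := by ring
    have e2 : 1 ≤ (W ^ 20 * Y) ^ 3 := le_of_mul_le_mul_left e1 (by positivity)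
    have e3 : 1 ≤ W ^ 20 * Y := by
      by_contra hn
      have := pow_lt_one₀ (by positivity : 0 ≤ W ^ 20 * Y) (not_le.1 hn) (by norm_num : 3 ≠ 0)
      linarith
    have e4 : W ≤ W ^ 25 * Y := by
      calc W = W ^ 1 * 1 := by ring
        _ ≤ W ^ 5 * (W ^ 20 * Y) :=
            mul_le_mul (pow_le_pow_right₀ hW1 (by norm_num)) e3 zero_le_one (by positivity)
        _ = W ^ 25 * Y := by ring
    have e5 : W ^ 25 * Y ≤ W ^ 25 * (2 * 10 ^ 5 * Y') := by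
      have : W ^ 25 * (2 * 10 ^ 5 * Y') = 2 * (10 ^ 5 * (W ^ 25 * Y')) := by ring
      linarith
    have e6 : Y ≤ 2 * 10 ^ 5 * Y' := le_of_mul_le_mul_left e5 (by positivity)
    have e7 : Y ^ 3 ≤ (2 * 10 ^ 5 * Y') ^ 3 := pow_le_pow_left₀ hY e6 3
    have e8 : 0 ≤ W ^ l * X' * Y' ^ 3 := by positivity
    calc W ^ 25 ≤ W ^ l * X * Y ^ 3 := hc
      _ ≤ W ^ l * (10 ^ 5 * X') * (2 * 10 ^ 5 * Y') ^ 3 :=
          mul_le_mul (mul_le_mul_of_nonneg_left h1 hl0) e7 hY3 (by positivity)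
      _ = 8 * 10 ^ 20 * (W ^ l * X' * Y' ^ 3) := by ring
      _ ≤ W * (W ^ l * X' * Y' ^ 3) := mul_le_mul_of_nonneg_right (by linarith) e8
      _ = W ^ (l + 1) * X' * Y' ^ 3 := by ring
  · right
    refine ⟨?_, ?_⟩
    · calc 1 ≤ W ^ (55 + l) * X := hc
        _ = W ^ 55 * (W ^ l * X) := by ring
        _ ≤ W ^ 55 * (W ^ (l + 1) * X') := mul_le_mul_of_nonneg_left ha (by positivity)
        _ = W ^ (55 + (l + 1)) * X' := by ring
    · have e1 : W ^ 25 * Y ≤ W * W ^ l := by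
        calc W ^ 25 * Y = W * (W ^ 24 * Y) := by ring
          _ ≤ W * W ^ l := mul_le_mul_of_nonneg_left hd hW0.le
      have e2 : 1 ≤ W * W ^ l := one_le_mul_of_one_le_of_one_le hW1 hl
      have e3 : W * (W ^ 24 * Y') ≤ W * W ^ (l + 1) := by
        calc W * (W ^ 24 * Y') = W ^ 25 * Y' := by ring
          _ ≤ (10 ^ 5 + 1) * (W * W ^ l) := by linarith
          _ ≤ W * (W * W ^ l) := mul_le_mul_of_nonneg_right (by linarith) (by linarith)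
          _ = W * W ^ (l + 1) := by ring
      exact le_of_mul_le_mul_left e3 hW0

theorem gd_swap {W x y σ lam : ℝ} {l : ℕ} (hσ : 0 < σ) (hl : 0 < lam)
    (h : ∀ q p : ℤ, (q ≠ 0 ∨ p ≠ 0) → ∃ q' p' : ℤ, (q' ≠ 0 ∨ p' ≠ 0) ∧
      |q' * x + p'| = lam * |q * y + p| ∧ lam * |q' * y + p'| = |q * x + p|)
    (hg : Gd W l x y σ) : Gd W l y x (σ * lam) := by
  intro q p hqp
  obtain ⟨q', p', hne, e1, e2⟩ := h q p hqp
  have h0 := hg q' p' hne
  have a1 : σ * lam * |q * y + p| = σ * |q' * x + p'| := by rw [e1]; ring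
  have a2 : |q * x + p| / (σ * lam) = |q' * y + p'| / σ := by
    rw [← e2]
    field_simp
  rw [a1, a2]
  exact h0

/-- The case where the linear form vanishes at the rational point. -/
theorem Trans_zero {w σ d δ I La Lb : ℝ} (hw : 4 ≤ w) (hI : 1 ≤ I) (hd : 2 ≤ w ^ 20 * d)
    (hδ0 : 0 ≤ δ) (hδ : w ^ 250 * δ ≤ 1) (h5 : w ^ 56 ≤ σ) (h6 : σ ≤ 2 * w ^ 56)
    (hLa : I * w ^ 22 * (d - δ) ≤ La) (hLb : Lb = I * w ^ 22 * δ) (hs : σ⁻¹ * La ≤ w ^ 85) :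
    1 ≤ w ^ 55 * (σ⁻¹ * La) ∧ w ^ 24 * (Lb / σ⁻¹) ≤ 1 := by
  have hw1 : 1 ≤ w := by linarith
  have hw0 : 0 < w := by linarith
  have hσ : 0 < σ := lt_of_lt_of_le (by positivity) h5
  have e1 : w ^ 20 * δ ≤ 1 :=
    le_trans (mul_le_mul_of_nonneg_right (pow_le_pow_right₀ hw1 (by norm_num)) hδ0) hδ
  have e2 : I * w ^ 2 ≤ La := by
    calc I * w ^ 2 = I * w ^ 2 * 1 := by ring
      _ ≤ I * w ^ 2 * (w ^ 20 * d - w ^ 20 * δ) :=
          mul_le_mul_of_nonneg_left (by linarith) (by positivity)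
      _ = I * w ^ 22 * (d - δ) := by ring
      _ ≤ La := hLa
  have e3 : La ≤ σ * w ^ 85 := (inv_mul_le_iff₀ hσ).1 hs
  have e4 : I ≤ 2 * w ^ 139 := by
    have : I * w ^ 2 ≤ 2 * w ^ 139 * w ^ 2 := by
      calc I * w ^ 2 ≤ σ * w ^ 85 := e2.trans e3
        _ ≤ 2 * w ^ 56 * w ^ 85 := mul_le_mul_of_nonneg_right h6 (by positivity)
        _ = 2 * w ^ 139 * w ^ 2 := by ring
    exact le_of_mul_le_mul_right this (by positivity)
  constructor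
  · have : w ^ 55 * (σ⁻¹ * La) = σ⁻¹ * (w ^ 55 * La) := by ring
    rw [this, le_inv_mul_iff₀ hσ]
    calc σ * 1 = σ := by ring
      _ ≤ 2 * w ^ 56 := h6
      _ ≤ w * w ^ 56 := mul_le_mul_of_nonneg_right (by linarith) (by positivity)
      _ = w ^ 55 * (1 * w ^ 2) := by ring
      _ ≤ w ^ 55 * (I * w ^ 2) :=
          mul_le_mul_of_nonneg_left (mul_le_mul_of_nonneg_right hI (by positivity))
            (by positivity)
      _ ≤ w ^ 55 * La := mul_le_mul_of_nonneg_left e2 (by positivity)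
  · rw [div_inv_eq_mul, hLb]
    calc w ^ 24 * (I * w ^ 22 * δ * σ) = w ^ 46 * δ * (I * σ) := by ring
      _ ≤ w ^ 46 * δ * (2 * w ^ 139 * (2 * w ^ 56)) :=
          mul_le_mul_of_nonneg_left (mul_le_mul e4 h6 hσ.le (by positivity)) (by positivity)
      _ = 4 * (w ^ 241 * δ) := by ring
      _ ≤ w * (w ^ 241 * δ) :=
          mul_le_mul_of_nonneg_right hw (mul_nonneg (pow_nonneg hw0.le _) hδ0)
      _ = w ^ 242 * δ := by ring
      _ ≤ w ^ 250 * δ := mul_le_mul_of_nonneg_right (pow_le_pow_right₀ hw1 (by norm_num)) hδ0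
      _ ≤ 1 := hδ

/-- The case where the linear form does not vanish at the rational point. -/
theorem Trans_ne {w σ d δ Q La Lb : ℝ} (hw : 8 ≤ w) (hQ : 1 ≤ Q) (hd : 2 ≤ w ^ 20 * d)
    (hδ0 : 0 ≤ δ) (hδ : w ^ 250 * δ ≤ 1) (h5 : w ^ 56 ≤ σ) (h6 : σ ≤ 2 * w ^ 56)
    (hLa0 : 0 ≤ La) (hLb0 : 0 ≤ Lb) (htri : Q * d ≤ La + Lb)
    (hLb : 1 ≤ w ^ 22 * Lb + w ^ 22 * (Q * δ)) (hdio : 1 / w ≤ La * Q ^ 3)
    (hs : σ⁻¹ * La ≤ w ^ 85) : w ^ 25 ≤ σ⁻¹ * La * (Lb / σ⁻¹) ^ 3 := by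
  have hw1 : 1 ≤ w := by linarith
  have hw0 : 0 < w := by linarith
  have hσ : 0 < σ := lt_of_lt_of_le (by positivity) h5
  have e0 : σ⁻¹ * La * (Lb / σ⁻¹) ^ 3 = σ ^ 2 * (La * Lb ^ 3) := by
    field_simp
  have e1 : w ^ 112 ≤ σ ^ 2 := by
    calc w ^ 112 = (w ^ 56) ^ 2 := by ring
      _ ≤ σ ^ 2 := pow_le_pow_left₀ (by positivity) h5 2
  have e2 : 2 * Q ≤ w ^ 20 * La + w ^ 20 * Lb := by
    calc 2 * Q ≤ w ^ 20 * d * Q := mul_le_mul_of_nonneg_right hd (by linarith)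
      _ = w ^ 20 * (Q * d) := by ring
      _ ≤ w ^ 20 * (La + Lb) := mul_le_mul_of_nonneg_left htri (by positivity)
      _ = _ := by ring
  have e3 : La ≤ σ * w ^ 85 := (inv_mul_le_iff₀ hσ).1 hs
  rw [e0]
  refine le_trans ?_ (mul_le_mul_of_nonneg_right e1 (by positivity))
  by_cases hc : Q ≤ w ^ 20 * La
  · have f1 : Q ≤ 2 * w ^ 161 := by
      calc Q ≤ w ^ 20 * La := hc
        _ ≤ w ^ 20 * (2 * w ^ 56 * w ^ 85) :=
            mul_le_mul_of_nonneg_left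
              (e3.trans (mul_le_mul_of_nonneg_right h6 (by positivity))) (by positivity)
        _ = 2 * w ^ 161 := by ring
    have f2 : 2 * (w ^ 22 * (Q * δ)) ≤ 1 := by
      calc 2 * (w ^ 22 * (Q * δ)) = 2 * w ^ 22 * δ * Q := by ring
        _ ≤ 2 * w ^ 22 * δ * (2 * w ^ 161) := mul_le_mul_of_nonneg_left f1 (by positivity)
        _ = 4 * (w ^ 183 * δ) := by ring
        _ ≤ w * (w ^ 183 * δ) :=
            mul_le_mul_of_nonneg_right (by linarith) (mul_nonneg (pow_nonneg hw0.le _) hδ0)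
        _ = w ^ 184 * δ := by ring
        _ ≤ w ^ 250 * δ := mul_le_mul_of_nonneg_right (pow_le_pow_right₀ hw1 (by norm_num)) hδ0
        _ ≤ 1 := hδ
    have f3 : 1 / 2 ≤ w ^ 22 * Lb := by linarith
    have f4 : (1 / 2) ^ 3 ≤ (w ^ 22 * Lb) ^ 3 := pow_le_pow_left₀ (by norm_num) f3 3
    have f5 : 1 * (1 / 2) ^ 3 ≤ w ^ 20 * La * (w ^ 22 * Lb) ^ 3 :=
      mul_le_mul (hQ.trans hc) f4 (by norm_num) (by positivity)
    calc w ^ 25 = w ^ 25 * 8 * (1 * (1 / 2) ^ 3) := by ring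
      _ ≤ w ^ 25 * w * (w ^ 20 * La * (w ^ 22 * Lb) ^ 3) :=
          mul_le_mul (mul_le_mul_of_nonneg_left hw (by positivity)) f5 (by norm_num)
            (by positivity)
      _ = w ^ 112 * (La * Lb ^ 3) := by ring
  · have f1 : Q ≤ w ^ 20 * Lb := by linarith
    have f2 : Q ^ 3 ≤ (w ^ 20 * Lb) ^ 3 := pow_le_pow_left₀ (by linarith) f1 3
    have f3 : 1 / w ≤ La * (w ^ 20 * Lb) ^ 3 := hdio.trans (mul_le_mul_of_nonneg_left f2 hLa0)
    calc w ^ 25 ≤ w ^ 51 := pow_le_pow_right₀ hw1 (by norm_num)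
      _ = w ^ 52 * (1 / w) := by field_simp
      _ ≤ w ^ 52 * (La * (w ^ 20 * Lb) ^ 3) := mul_le_mul_of_nonneg_left f3 (by positivity)
      _ = w ^ 112 * (La * Lb ^ 3) := by ring

theorem Trans_one_le {q : ℤ} (hq : q ≠ 0) : (1 : ℝ) ≤ |(q : ℝ)| := by
  exact_mod_cast Int.one_le_abs hq

/-- Goodness at the small scale. -/
theorem fresh {W : ℕ} {a b σ : ℝ} {j : ℤ} (hW : (2 : ℝ) ^ 100 ≤ W)
    (h1 : 2 ≤ (W : ℝ) ^ 20 * |a - b|) (h2 : (W : ℝ) ^ 20 * |a - b| ≤ 4)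
    (h3 : (W : ℝ) ^ 250 * |b - (1 + W * j) / (W : ℝ) ^ 22| ≤ 1) (h4 : Dio a (1 / W))
    (h5 : (W : ℝ) ^ 56 ≤ σ) (h6 : σ ≤ 2 * (W : ℝ) ^ 56) : Gd W 0 a b σ⁻¹ := by
  have hw : (8 : ℝ) ≤ W := le_trans (by norm_num) hW
  have hw1 : (1 : ℝ) ≤ W := by linarith
  have hw0 : (0 : ℝ) < W := by linarith
  have hσ : 0 < σ := lt_of_lt_of_le (by positivity) h5
  set δ : ℝ := b - (1 + W * j) / (W : ℝ) ^ 22 with hδ
  intro q p hqp hs
  rw [pow_zero, one_mul] at hs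
  simp only [pow_zero, one_mul, add_zero]
  by_cases hD : q * (1 + W * j) + p * (W : ℤ) ^ 22 = 0
  · right
    have hco : IsCoprime ((W : ℤ) ^ 22) (1 + W * j) :=
      IsCoprime.pow_left ⟨-j, 1, by ring⟩
    have hdv : (W : ℤ) ^ 22 ∣ q := hco.dvd_of_dvd_mul_right ⟨-p, by linarith⟩
    obtain ⟨i, hi⟩ := hdv
    have hWz : (W : ℤ) ^ 22 ≠ 0 := by
      have : (W : ℤ) ≠ 0 := by exact_mod_cast hw0.ne'
      positivity
    have hp : p = -((1 + W * j) * i) := by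
      apply mul_left_cancel₀ hWz
      rw [hi] at hD
      linarith
    have hi0 : i ≠ 0 := by
      rintro rfl
      rcases hqp with h | h
      · exact h (by simpa using hi)
      · exact h (by simpa using hp)
    have ea : (q : ℝ) * a + p = i * (W : ℝ) ^ 22 * ((a - b) + δ) := by
      rw [hi, hp, hδ]
      push_cast
      field_simp
      ring
    have eb : (q : ℝ) * b + p = i * (W : ℝ) ^ 22 * δ := by
      rw [hi, hp, hδ]
      push_cast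
      field_simp
      ring
    refine Trans_zero (by linarith) (Trans_one_le hi0) h1 (abs_nonneg δ) h3 h5 h6 ?_ ?_ hs
    · rw [ea, abs_mul, abs_mul, abs_of_pos (by positivity : (0 : ℝ) < (W : ℝ) ^ 22)]
      refine mul_le_mul_of_nonneg_left ?_ (by positivity)
      have := abs_sub (a - b + δ) δ
      rw [add_sub_cancel_right] at this
      linarith
    · rw [eb, abs_mul, abs_mul, abs_of_pos (by positivity : (0 : ℝ) < (W : ℝ) ^ 22)]
  · left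
    by_cases hq : q = 0
    · have hp : p ≠ 0 := hqp.resolve_left (fun h => h hq)
      have hp1 := Trans_one_le hp
      subst hq
      simp only [Int.cast_zero, zero_mul, zero_add]
      have e0 : σ⁻¹ * |(p : ℝ)| * (|(p : ℝ)| / σ⁻¹) ^ 3 = σ ^ 2 * |(p : ℝ)| ^ 4 := by
        field_simp
      rw [e0]
      calc (W : ℝ) ^ 25 ≤ (W : ℝ) ^ 112 := pow_le_pow_right₀ hw1 (by norm_num)
        _ = ((W : ℝ) ^ 56) ^ 2 * 1 := by ring
        _ ≤ σ ^ 2 * |(p : ℝ)| ^ 4 :=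
            mul_le_mul (pow_le_pow_left₀ (by positivity) h5 2) (one_le_pow₀ hp1) zero_le_one
              (by positivity)
    · refine Trans_ne hw (Trans_one_le hq) h1 (abs_nonneg δ) h3 h5 h6 (abs_nonneg _)
        (abs_nonneg _) ?_ ?_ (h4 q p hq) hs
      · have := abs_sub ((q : ℝ) * a + p) (q * b + p)
        rw [← abs_mul, show (q : ℝ) * (a - b) = q * a + p - (q * b + p) by ring]
        exact this
      · have hD1 := Trans_one_le hD
        have e : ((q * (1 + W * j) + p * (W : ℤ) ^ 22 : ℤ) : ℝ) =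
            (W : ℝ) ^ 22 * (q * b + p) - (W : ℝ) ^ 22 * (q * δ) := by
          rw [hδ]
          push_cast
          field_simp
          ring
        rw [e] at hD1
        have := abs_sub ((W : ℝ) ^ 22 * (q * b + p)) ((W : ℝ) ^ 22 * (q * δ))
        rw [abs_mul, abs_mul, abs_mul,
          abs_of_pos (by positivity : (0 : ℝ) < (W : ℝ) ^ 22)] at this
        linarith

end Pool.Agent.MP_06f5ad_nt.Q2

end

section

/-!
Choice of the auxiliary quadratic.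
-/

namespace Pool.Agent.MP_06f5ad_nt.Q2

open Filter Topology

theorem StepA_one {W : ℝ} (hW : 2 ^ 100 ≤ W) : 1 ≤ W := le_trans (by norm_num) hW

theorem StepA_big {W : ℝ} (hW : 2 ^ 100 ≤ W) {k : ℕ} (hk : k ≠ 0) : 1000 ≤ W ^ k :=
  le_trans (le_trans (by norm_num) hW) (le_self_pow₀ (StepA_one hW) hk)

theorem StepA_sgn {s : ℝ} (hs : s = 1 ∨ s = -1) (x : ℝ) : |s * x| = |x| := by
  rcases hs with rfl | rfl <;> simp

theorem StepA_mu {U V R e f c : ℝ} (hU : 1 ≤ U) (hV : 1 ≤ V) (hR : 1000 ≤ R) (he0 : 0 ≤ e)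
    (he : U * V * R * e ≤ 1 / 2) (hf : 1 ≤ V * (f + e)) (hc : c ≤ 1) :
    0 < f ∧ U * (c * e / f) ≤ 1 / 8 ∧ e ≤ 1 := by
  have h1 : 0 ≤ U * V * e := by positivity
  have h2 : U * V * e ≤ 1 / 2000 := by nlinarith
  have h3 : V * e ≤ U * V * e := by nlinarith [mul_nonneg (by linarith : 0 ≤ V) he0]
  have h4 : 1 / 2 ≤ V * f := by nlinarith
  have h5 : 0 < f := by
    by_contra h
    push Not at h
    nlinarith
  refine ⟨h5, ?_, by nlinarith⟩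
  rw [← mul_div_assoc, div_le_iff₀ h5]
  have h6 : U * (c * e) ≤ U * e := by nlinarith [mul_nonneg (by linarith : 0 ≤ U) he0]
  have h7 : V * (U * e) ≤ V * (1 / 8 * f) := by nlinarith
  have h8 := le_of_mul_le_mul_left h7 (by linarith)
  linarith

theorem StepA_ev {O : Tr} {H x : ℝ} (hB : O.Bd H) (hx : |x| ≤ 1 / 2) : |O.ev x| ≤ 3 * H := by
  obtain ⟨h1, h2, h3⟩ := hB
  have hH : 0 ≤ H := (abs_nonneg _).trans h1
  have h4 : |(O.A : ℝ) * x ^ 2| ≤ H * 1 := by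
    rw [abs_mul, abs_pow]
    exact mul_le_mul h1 (pow_le_one₀ (abs_nonneg _) (by linarith)) (by positivity) hH
  have h5 : |2 * (O.B : ℝ) * x| ≤ 2 * H * (1 / 2) := by
    rw [abs_mul, abs_mul, abs_two]
    exact mul_le_mul (by linarith) hx (abs_nonneg _) (by linarith)
  have h6 := abs_add_three ((O.A : ℝ) * x ^ 2) (2 * (O.B : ℝ) * x) (O.C : ℝ)
  unfold Tr.ev
  linarith

theorem StepA_fin {A H Z N R L La Q f f' E : ℝ} (hH : 1 ≤ H) (hZ : 1 ≤ Z) (hA0 : 0 < A)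
    (hN : 0 ≤ N) (hR : 1000 ≤ R) (hA : H ^ 2 * (N * Z ^ 2 * R) ≤ 2 * A) (hL : 0 ≤ L)
    (hQ : 1 ≤ Q) (hLa0 : 0 ≤ La) (hLa : La ≤ 2 * Q) (hf : f ≤ 4 * (H * Z)) (hf0 : 0 ≤ f')
    (hf' : f' ≤ 5 * (H * Z)) (hE0 : 0 ≤ E) (hE : E ≤ 3 * H)
    (h : 1 ≤ A * N * (f * L) * (f' * La + Q * E)) : 8 / A ^ 2 ≤ L * Q ^ 3 := by
  have hHZ : H ≤ H * Z := le_mul_of_one_le_right (by linarith) hZ
  have h1 : f' * La ≤ 5 * (H * Z) * (2 * Q) := mul_le_mul hf' hLa hLa0 (by linarith)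
  have h2 : Q * E ≤ Q * (3 * (H * Z)) := mul_le_mul_of_nonneg_left (by linarith) (by linarith)
  have h3 : f' * La + Q * E ≤ 13 * (H * Z) * Q := by linarith
  have h4 : f * L ≤ 4 * (H * Z) * L := mul_le_mul_of_nonneg_right hf hL
  have h5 : A * N * (f * L) * (f' * La + Q * E) ≤
      A * N * (4 * (H * Z) * L) * (13 * (H * Z) * Q) :=
    mul_le_mul (mul_le_mul_of_nonneg_left h4 (by positivity)) h3 (by positivity) (by positivity)
  have h6 : 0 ≤ A * (L * Q) := by positivity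
  have h7 : R ≤ 52 * (H ^ 2 * (N * Z ^ 2 * R)) * (A * (L * Q)) := by
    have := mul_le_mul_of_nonneg_left (h.trans h5) (by linarith : 0 ≤ R)
    linarith
  have h8 : 52 * (H ^ 2 * (N * Z ^ 2 * R)) * (A * (L * Q)) ≤ 52 * (2 * A) * (A * (L * Q)) :=
    mul_le_mul_of_nonneg_right (by linarith) h6
  have h9 : L * Q ≤ L * Q ^ 3 := mul_le_mul_of_nonneg_left (le_self_pow₀ hQ (by norm_num)) hL
  have h10 : A ^ 2 * (L * Q) ≤ A ^ 2 * (L * Q ^ 3) :=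
    mul_le_mul_of_nonneg_left h9 (by positivity)
  rw [div_le_iff₀ (by positivity)]
  nlinarith

theorem StepA_abs {W : ℕ} {s : ℝ} {P : QF} {O : Tr} (h : Inv W s P O) :
    |P.a| ≤ 1 / 2 ∧ |P.b| ≤ 1 / 2 := by
  have h1 : (0 : ℝ) ≤ 1 / (W : ℝ) := by positivity
  have h2 := h.loc
  have h3 := StepA_big h.big (k := 20) (by norm_num)
  have h4 := h.dlo
  have h5 := h.dhi
  generalize (W : ℝ) ^ 20 = Z at h3 h4 h5
  have h6 : |s * (P.b - P.a)| ≤ 1 / 6 := by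
    rw [abs_le]
    constructor <;> nlinarith
  rw [StepA_sgn h.sgn] at h6
  have h7 := abs_sub_abs_le_abs_sub P.b P.a
  constructor <;> linarith

theorem StepA_rng {Z z d : ℝ} (hz : 0 ≤ z) (h1 : z ≤ Z) (h2 : Z ≤ 2 * z) (h3 : 2 ≤ Z * d)
    (h4 : Z * d ≤ 4) : 1 ≤ z * d ∧ z * d ≤ 4 := by
  have hd : 0 ≤ d := by
    by_contra h
    push Not at h
    nlinarith
  constructor <;> nlinarith

theorem StepA_two {s z x : ℝ} (hs : s = 1 ∨ s = -1) (hz : 0 ≤ z) (h1 : 1 / 2 ≤ z * (s * x))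
    (h2 : z * (s * x) ≤ 10) : 1 / 2 ≤ z * |x| ∧ z * |x| ≤ 10 := by
  have : z * |x| = z * (s * x) := by
    rw [← StepA_sgn hs x, ← abs_of_nonneg hz, ← abs_mul, abs_of_nonneg hz,
      abs_of_nonneg (by linarith)]
  rw [this]
  exact ⟨h1, h2⟩

theorem target {W : ℕ} (hW : (2 : ℝ) ^ 100 ≤ W) (a : ℝ) {s : ℝ} (hs : s = 1 ∨ s = -1) :
    ∃ j : ℤ, |(W : ℝ) ^ 20 * (s * ((1 + W * j) / (W : ℝ) ^ 22 - a)) - 3| ≤ 1 / (W : ℝ) := by
  have hW0 : (0 : ℝ) < W := lt_of_lt_of_le one_pos (StepA_one hW)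
  refine ⟨round ((W : ℝ) ^ 21 * a + 3 * s * W - 1 / W), ?_⟩
  have h1 := abs_sub_round ((W : ℝ) ^ 21 * a + 3 * s * W - 1 / W)
  generalize (round ((W : ℝ) ^ 21 * a + 3 * s * W - 1 / W) : ℝ) = j at h1 ⊢
  have h2 : (W : ℝ) ^ 20 * (s * ((1 + W * j) / (W : ℝ) ^ 22 - a)) - 3 =
      s * (-((W : ℝ) ^ 21 * a + 3 * s * W - 1 / W - j) / W) := by
    rcases hs with rfl | rfl <;> field_simp <;> ring
  rw [h2, StepA_sgn hs, abs_div, abs_neg, abs_of_pos hW0]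
  exact div_le_div_of_nonneg_right (by linarith) hW0.le

theorem choose_mu {W : ℕ} (hW : (2 : ℝ) ^ 100 ≤ W) (t : ℝ) {b x π : ℝ}
    (hπ : 1 ≤ (W : ℝ) ^ 42 * |π|) (h1 : |b - x| ≤ 1) (h2 : b ≠ x) :
    ∃ u : ℤ, t + u / (((W : ℤ) ^ 300 : ℤ) : ℝ) ≠ 0 ∧
      (W : ℝ) ^ 250 * |b - π / (t + u / (((W : ℤ) ^ 300 : ℤ) : ℝ)) - x| ≤ 1 / 8 ∧
      |t + u / (((W : ℤ) ^ 300 : ℤ) : ℝ) - π / (b - x)| ≤ 1 := by
  have hW1 := StepA_one hW
  have hN : (((W : ℤ) ^ 300 : ℤ) : ℝ) = (W : ℝ) ^ 250 * (W : ℝ) ^ 42 * (W : ℝ) ^ 8 := by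
    push_cast
    ring
  have hU : (1 : ℝ) ≤ (W : ℝ) ^ 250 := one_le_pow₀ hW1
  have hV : (1 : ℝ) ≤ (W : ℝ) ^ 42 := one_le_pow₀ hW1
  have hR := StepA_big hW (k := 8) (by norm_num)
  rw [hN]
  generalize (W : ℝ) ^ 250 = U at *
  generalize (W : ℝ) ^ 42 = V at *
  generalize (W : ℝ) ^ 8 = R at *
  have hd : b - x ≠ 0 := sub_ne_zero.2 h2
  have hN0 : 0 < U * V * R := by positivity
  refine ⟨round (U * V * R * (π / (b - x) - t)), ?_⟩
  have h3 := abs_sub_round (U * V * R * (π / (b - x) - t))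
  generalize (round (U * V * R * (π / (b - x) - t)) : ℝ) = u at h3 ⊢
  set φ := t + u / (U * V * R) with hφ
  have h4 : U * V * R * |φ - π / (b - x)| ≤ 1 / 2 := by
    have h5 : -(U * V * R * (φ - π / (b - x))) = U * V * R * (π / (b - x) - t) - u := by
      rw [hφ]
      field_simp
      ring
    rwa [← h5, abs_neg, abs_mul, abs_of_pos hN0] at h3
  have h5 : |π| ≤ |φ| + |φ - π / (b - x)| := by
    have h6 : |π| ≤ |π / (b - x)| := by
      rw [abs_div, le_div_iff₀ (abs_pos.2 hd)]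
      exact mul_le_of_le_one_right (abs_nonneg _) h1
    have h7 := abs_sub φ (φ - π / (b - x))
    rw [sub_sub_cancel] at h7
    linarith
  obtain ⟨h8, h9, h10⟩ := StepA_mu hU hV hR (abs_nonneg _) h4
    (hπ.trans (mul_le_mul_of_nonneg_left h5 (by linarith))) h1
  have h11 : φ ≠ 0 := abs_pos.1 h8
  refine ⟨h11, ?_, h10⟩
  have h12 : b - π / φ - x = (b - x) * (φ - π / (b - x)) / φ := by
    field_simp
    ring
  rwa [h12, abs_div, abs_mul]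

theorem dio_y (P : QF) {O : Tr} (hO : O.NS) {W : ℕ} (hW : (2 : ℝ) ^ 100 ≤ W) {u : ℤ}
    {φ y x H : ℝ} (hφ : φ = O.A * P.b + O.B + u / (((W : ℤ) ^ 300 : ℤ) : ℝ)) (hφ0 : φ ≠ 0)
    (hy : y = P.b - O.ev P.b / φ) (hH : 1 ≤ H) (hB : O.Bd H)
    (hA : H ^ 2 * (W : ℝ) ^ 700 ≤ 2 * P.A) (ha : |P.a| ≤ 1 / 2) (hb : |P.b| ≤ 1 / 2)
    (hy1 : |y| ≤ 1 / 2) (hx : 1 ≤ (W : ℝ) ^ 20 * |P.b - x|) (hφ1 : |φ - O.ev P.b / (P.b - x)| ≤ 1) :
    Dio y (8 / (P.A : ℝ) ^ 2) := by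
  intro q p hq
  have hW1 := StepA_one hW
  have hv : ((W : ℤ) ^ 300 : ℤ) ≠ 0 := pow_ne_zero _ (by
    have : (W : ℝ) ≠ 0 := by linarith
    exact_mod_cast this)
  have hQ := Approx_one_le hq
  have hlow := low_y P hO hv hφ hφ0 hy (p := p) hq
  have hN : ((((W : ℤ) ^ 300 : ℤ) : ℝ)) ^ 2 = (W : ℝ) ^ 600 := by
    push_cast
    ring
  have hA' : H ^ 2 * ((W : ℝ) ^ 600 * ((W : ℝ) ^ 20) ^ 2 * (W : ℝ) ^ 60) ≤ 2 * P.A := by
    rwa [show (W : ℝ) ^ 600 * ((W : ℝ) ^ 20) ^ 2 * (W : ℝ) ^ 60 = (W : ℝ) ^ 700 by ring]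
  have hφ' : O.A * P.a + O.B + u / (((W : ℤ) ^ 300 : ℤ) : ℝ) = φ + O.A * (P.a - P.b) := by
    rw [hφ]
    ring
  rw [hN, hφ'] at hlow
  have hZ : (1 : ℝ) ≤ (W : ℝ) ^ 20 := one_le_pow₀ hW1
  have hN0 : (0 : ℝ) ≤ (W : ℝ) ^ 600 := by positivity
  have hR := StepA_big hW (k := 60) (by norm_num)
  have hT := StepA_big hW (k := 700) (by norm_num)
  clear hφ hN hφ' hv
  generalize (W : ℝ) ^ 20 = Z at *
  generalize (W : ℝ) ^ 600 = N at *
  generalize (W : ℝ) ^ 60 = R at *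
  generalize (W : ℝ) ^ 700 = T at *
  by_cases hc : 1 ≤ |q * y + p|
  · have h1 : (1 : ℝ) ≤ H ^ 2 := one_le_pow₀ hH
    have h2 : (3 : ℝ) ≤ P.A := by nlinarith
    have h3 : 8 / (P.A : ℝ) ^ 2 ≤ 1 := by
      rw [div_le_one (by positivity)]
      nlinarith
    exact h3.trans (one_le_mul_of_one_le_of_one_le hc (one_le_pow₀ hQ))
  · push Not at hc
    have h1 : |y - P.a| ≤ 1 := by linarith [abs_sub y P.a]
    have h2 : |q * P.a + p| ≤ 2 * |(q : ℝ)| := by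
      have h3 := Approx_tri q p y P.a
      have h4 := mul_le_mul_of_nonneg_left h1 (abs_nonneg (q : ℝ))
      linarith
    have hHZ : H ≤ H * Z := le_mul_of_one_le_right (by linarith) hZ
    have h5 : |O.ev P.b / (P.b - x)| ≤ 3 * (H * Z) := by
      have h6 : 0 < |P.b - x| := by
        by_contra h
        push Not at h
        nlinarith
      rw [abs_div, div_le_iff₀ h6]
      have h7 := StepA_ev hB hb
      have h8 := mul_le_mul_of_nonneg_left hx (by linarith : 0 ≤ 3 * H)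
      linarith
    have h6 : |φ| ≤ 4 * (H * Z) := by
      have := abs_sub_abs_le_abs_sub φ (O.ev P.b / (P.b - x))
      linarith
    have h7 : |φ + O.A * (P.a - P.b)| ≤ 5 * (H * Z) := by
      have h8 : |(O.A : ℝ) * (P.a - P.b)| ≤ H * 1 := by
        rw [abs_mul]
        exact mul_le_mul hB.1 (by linarith [abs_sub P.a P.b]) (abs_nonneg _) (by linarith)
      have := abs_add_le φ (O.A * (P.a - P.b))
      linarith
    exact StepA_fin hH hZ P.Apos hN0 hR hA' (abs_nonneg _) hQ (abs_nonneg _) h2 h6 (abs_nonneg _)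
      h7 (abs_nonneg _) (StepA_ev hB ha) hlow

/-- The invariant holds for the late members of a family. -/
theorem inv_ev (P : QF) {W : ℕ} {s H κ y : ℝ} {j : ℤ} {F : ℕ → QF} {T : ℕ → ℝ}
    (hW : (2 : ℝ) ^ 100 ≤ W) (hs : s = 1 ∨ s = -1) (hH : 1 ≤ H) (hB : P.Bd H)
    (loc : |P.a| + 1 / (W : ℝ) < 1 / 3) (hd : Dio P.a κ) (hκ : 1 / (W : ℝ) < κ)
    (hx : Conv T (fun k => (F k).a) P.a) (hy : Tendsto (fun k => (F k).b) atTop (𝓝 y))
    (hA : Tendsto (fun k => ((F k).A : ℝ)) atTop atTop)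
    (hres : ∀ᶠ k in atTop, res P.toTr (F k).toTr = 1)
    (rat : (W : ℝ) ^ 250 * |y - (1 + W * j) / (W : ℝ) ^ 22| ≤ 1 / 2)
    (tgt : |(W : ℝ) ^ 20 * (s * ((1 + W * j) / (W : ℝ) ^ 22 - P.a)) - 3| ≤ 1 / (W : ℝ))
    (hb : 1 ≤ (W : ℝ) ^ 20 * |y - P.b|) : ∀ᶠ k in atTop, Inv W s (F k) P.toTr := by
  have hW1 := StepA_one hW
  have hW0 : (0 : ℝ) < W := by linarith
  have hZ0 : (0 : ℝ) < (W : ℝ) ^ 20 := by positivity
  have hlim : 2.5 ≤ (W : ℝ) ^ 20 * (s * (y - P.a)) ∧ (W : ℝ) ^ 20 * (s * (y - P.a)) ≤ 3.5 := by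
    generalize (1 + W * j) / (W : ℝ) ^ 22 = x at rat tgt
    have h1 : 1 / (W : ℝ) ≤ 1 / 4 :=
      one_div_le_one_div_of_le (by norm_num) (le_trans (by norm_num) hW)
    have h2 : |(W : ℝ) ^ 20 * (s * (y - x))| ≤ 1 / 4 := by
      rw [abs_mul, abs_of_pos hZ0, StepA_sgn hs]
      have h3 := StepA_big hW (k := 230) (by norm_num)
      have h4 : (W : ℝ) ^ 250 * |y - x| = (W : ℝ) ^ 230 * ((W : ℝ) ^ 20 * |y - x|) := by ring
      have h5 : 0 ≤ (W : ℝ) ^ 20 * |y - x| := by positivity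
      rw [h4] at rat
      generalize (W : ℝ) ^ 20 * |y - x| = c at *
      generalize (W : ℝ) ^ 230 = R at *
      nlinarith
    have h3 : (W : ℝ) ^ 20 * (s * (y - P.a)) =
        (W : ℝ) ^ 20 * (s * (y - x)) + (W : ℝ) ^ 20 * (s * (x - P.a)) := by ring
    rw [abs_le] at h2 tgt
    rw [h3]
    constructor <;> linarith [h2.1, h2.2, tgt.1, tgt.2]
  have ha := hx.tendsto
  have t1 : Tendsto (fun k => |(F k).a| + 1 / (W : ℝ)) atTop (𝓝 (|P.a| + 1 / (W : ℝ))) :=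
    ha.abs.add_const _
  have t2 : Tendsto (fun k => (W : ℝ) ^ 20 * (s * ((F k).b - (F k).a))) atTop
      (𝓝 ((W : ℝ) ^ 20 * (s * (y - P.a)))) := ((hy.sub ha).const_mul _).const_mul _
  have t3 : Tendsto (fun k => (W : ℝ) ^ 250 * |(F k).b - (1 + W * j) / (W : ℝ) ^ 22|) atTop
      (𝓝 ((W : ℝ) ^ 250 * |y - (1 + W * j) / (W : ℝ) ^ 22|)) :=
    (hy.sub_const _).abs.const_mul _
  have t4 : Tendsto (fun k => (W : ℝ) ^ 20 * (s * ((F k).b - P.a))) atTop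
      (𝓝 ((W : ℝ) ^ 20 * (s * (y - P.a)))) := ((hy.sub_const _).const_mul _).const_mul _
  have t5 : Tendsto (fun k => (W : ℝ) ^ 20 * |(F k).b - P.b|) atTop
      (𝓝 ((W : ℝ) ^ 20 * |y - P.b|)) := (hy.sub_const _).abs.const_mul _
  filter_upwards [hres, hA.eventually_ge_atTop (H ^ 2 * (W : ℝ) ^ 700),
    t1.eventually (ge_mem_nhds loc),
    t2.eventually (le_mem_nhds (lt_of_lt_of_le (by norm_num : (2 : ℝ) < 2.5) hlim.1)),
    t2.eventually (ge_mem_nhds (lt_of_le_of_lt hlim.2 (by norm_num : (3.5 : ℝ) < 4))),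
    t3.eventually (ge_mem_nhds (lt_of_le_of_lt rat (by norm_num : (1 / 2 : ℝ) < 1))),
    t4.eventually (le_mem_nhds (lt_of_lt_of_le (by norm_num : (2 : ℝ) < 2.5) hlim.1)),
    t5.eventually (le_mem_nhds (lt_of_lt_of_le (by norm_num : (1 / 2 : ℝ) < 1) hb)),
    hx.dio hd hκ] with k e1 e2 e3 e4 e5 e6 e7 e8 e9
  refine ⟨hW, hs, P.ns, (res_symm _ _).trans e1, ⟨H, hH, hB, e2⟩, ?_, e3, e4, e5, ⟨j, e6⟩, e9⟩
  have h1 : 2 ≤ (W : ℝ) ^ 20 * |(F k).b - P.a| := by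
    rw [← StepA_sgn hs]
    exact e7.trans (mul_le_mul_of_nonneg_left (le_abs_self _) hZ0.le)
  have h2 : (2 : ℝ) * (1 / 2) ≤ ((W : ℝ) ^ 20 * |(F k).b - P.a|) *
      ((W : ℝ) ^ 20 * |(F k).b - P.b|) := mul_le_mul h1 e8 (by norm_num) (by linarith)
  have h3 : (W : ℝ) ^ 41 * |P.ev (F k).b| = (W * P.A) * (((W : ℝ) ^ 20 * |(F k).b - P.a|) *
      ((W : ℝ) ^ 20 * |(F k).b - P.b|)) := by
    rw [P.ev_eq, abs_mul, abs_mul, abs_of_pos P.Apos]
    ring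
  rw [h3]
  exact one_le_mul_of_one_le_of_one_le (one_le_mul_of_one_le_of_one_le hW1 P.one_le_A)
    (by linarith)

theorem shape {W : ℕ} {w s : ℝ} {P Q : QF} {O : Tr} (hw0 : 0 ≤ w) (hw : w ≤ W)
    (hw2 : ((W : ℝ) + 1) ^ 20 ≤ 2 * w ^ 20) (h : Inv W s P O) (h' : Inv (W + 1) (-s) Q P.toTr)
    (he : (W : ℝ) ^ 20 * |P.a - Q.a| ≤ 1 / 4) : Shape w P Q := by
  have hs := h.sgn
  have hz : 0 ≤ w ^ 20 := by positivity
  have h1 : w ^ 20 ≤ (W : ℝ) ^ 20 := pow_le_pow_left₀ hw0 hw 20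
  have h2 : (W : ℝ) ^ 20 ≤ ((W : ℝ) + 1) ^ 20 :=
    pow_le_pow_left₀ (Nat.cast_nonneg _) (by linarith) 20
  have h3 := h'.dlo
  have h4 := h'.dhi
  push_cast at h3 h4
  obtain ⟨d1, d2⟩ := StepA_rng hz h1 (h2.trans hw2) h.dlo h.dhi
  obtain ⟨d3, d4⟩ := StepA_rng hz (h1.trans h2) hw2 h3 h4
  have h5 : |w ^ 20 * (s * (P.a - Q.a))| ≤ 1 / 4 := by
    rw [abs_mul, abs_of_nonneg hz, StepA_sgn hs]
    exact (mul_le_mul_of_nonneg_right h1 (abs_nonneg _)).trans he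
  obtain ⟨d5, d6⟩ := abs_le.1 h5
  have a1 := StepA_abs h
  have a2 := StepA_abs h'
  have key : ∀ z : ℝ, 0 ≤ z → 1 ≤ z * (s * (P.b - P.a)) → z * (s * (P.b - P.a)) ≤ 4 →
      1 ≤ z * (-s * (Q.b - Q.a)) → z * (-s * (Q.b - Q.a)) ≤ 4 →
      -(1 / 4) ≤ z * (s * (P.a - Q.a)) → z * (s * (P.a - Q.a)) ≤ 1 / 4 →
      (1 / 2 ≤ z * |P.a - P.b| ∧ z * |P.a - P.b| ≤ 10) ∧
      (1 / 2 ≤ z * |Q.a - Q.b| ∧ z * |Q.a - Q.b| ≤ 10) ∧
      (1 / 2 ≤ z * |P.a - Q.b| ∧ z * |P.a - Q.b| ≤ 10) ∧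
      (1 / 2 ≤ z * |P.b - Q.a| ∧ z * |P.b - Q.a| ≤ 10) ∧
      (1 / 2 ≤ z * |P.b - Q.b| ∧ z * |P.b - Q.b| ≤ 10) := by
    intro z hz d1 d2 d3 d4 d5 d6
    rw [abs_sub_comm P.a P.b]
    exact ⟨StepA_two hs hz (by linarith) (by linarith), StepA_two hs hz (by linarith) (by linarith),
      StepA_two hs hz (by linarith) (by linarith), StepA_two hs hz (by linarith) (by linarith),
      StepA_two hs hz (by linarith) (by linarith)⟩
  obtain ⟨k1, k2, k3, k4, k5⟩ := key _ hz d1 d2 d3 d4 d5 d6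
  exact ⟨a1.1, a1.2, a2.1, a2.2, k1.1, k1.2, k2.1, k2.2, k3.1, k3.2, k4.1, k4.2, k5.1, k5.2⟩

end Pool.Agent.MP_06f5ad_nt.Q2

end

section

/-!
The family of limits attached to the units of the auxiliary quadratic.
-/

namespace Pool.Agent.MP_06f5ad_nt.Q2

open Filter Topology

theorem StepB_basic {T U V r D φ : ℝ} (hr : r ≠ 0) (h1 : U ^ 2 - r ^ 2 * V ^ 2 = 1)
    (h2 : U + V * r = T) (hT : 2 ≤ T) (hT' : 8 * |r| ≤ T * |D|) (hφ : φ = D + r + -U / V) :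
    (U - V * r) * T = 1 ∧ V ≠ 0 ∧ T ≤ 4 * (|V| * |r|) ∧ 2 * (|V| * |r|) ≤ T ∧ |D| / 2 ≤ |φ| ∧
      |φ| ≤ 2 * |D| ∧ T * V * (φ - D) = -1 := by
  have hw : (U - V * r) * T = 1 := by rw [← h2]; linear_combination h1
  obtain ⟨w, hwd⟩ : ∃ w, w = U - V * r := ⟨_, rfl⟩
  rw [← hwd] at hw
  have w0 : 0 < w := by
    by_contra k
    nlinarith
  have w1 : w ≤ 1 := by nlinarith
  have e1 : V * r = (T - w) / 2 := by linarith
  have e2 : |V| * |r| = (T - w) / 2 := by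
    rw [← abs_mul, e1, abs_of_pos (by linarith)]
  have hV : V ≠ 0 := by
    rintro rfl
    linarith
  have hV' := abs_pos.2 hV
  have hr' := abs_pos.2 hr
  have e3 : V * (φ - D) = -w := by
    rw [hφ, hwd]
    field_simp
    ring
  have e4 : 2 ≤ |V| * |D| := by
    refine le_of_mul_le_mul_right ?_ hr'
    have := mul_le_mul_of_nonneg_right (show T ≤ 4 * (|V| * |r|) by linarith) (abs_nonneg D)
    nlinarith
  have e5 : |φ - D| ≤ |D| / 2 := by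
    refine le_of_mul_le_mul_left ?_ hV'
    rw [← abs_mul, e3, abs_neg, abs_of_pos w0]
    linarith
  have e6 := abs_sub_abs_le_abs_sub φ D
  have e7 := abs_sub_abs_le_abs_sub D φ
  rw [abs_sub_comm] at e7
  have := abs_nonneg D
  refine ⟨hwd ▸ hw, hV, by linarith, by linarith, by linarith, by linarith, ?_⟩
  rw [mul_assoc, e3]
  linarith

theorem StepB_fin {C t q : ℝ} (hC : 0 ≤ C) (ht : 0 ≤ t) (hq : 1 ≤ q) (h : 1 ≤ C * (t * (t + q))) :
    1 / (2 * (C + 1)) ≤ t * q := by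
  rw [div_le_iff₀ (by positivity)]
  rcases le_total t 1 with k | k
  · have h1 : t * (t + q) ≤ t * (2 * q) := mul_le_mul_of_nonneg_left (by linarith) ht
    have h2 := mul_le_mul_of_nonneg_left h1 hC
    have h3 : 0 ≤ t * q := by positivity
    nlinarith
  · have h1 : 1 ≤ t * q := by nlinarith
    nlinarith

theorem StepB_interp {q' p' a x x' E : ℝ} (h1 : |q' * x + p'| ≤ E) (h2 : |q' * x' + p'| ≤ E) :
    |x - x'| * |q' * a + p'| ≤ (|a - x'| + |a - x|) * E := by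
  have e : (x - x') * (q' * a + p') = (a - x') * (q' * x + p') - (a - x) * (q' * x' + p') := by
    ring
  rw [← abs_mul, e, add_mul]
  refine (abs_sub _ _).trans (add_le_add ?_ ?_) <;> rw [abs_mul]
  · exact mul_le_mul_of_nonneg_left h1 (abs_nonneg _)
  · exact mul_le_mul_of_nonneg_left h2 (abs_nonneg _)

theorem StepB_core (P Q : QF) (hD : P.b ≠ Q.a) : ∃ T₀ C c : ℝ, 0 < c ∧ ∀ (T φ y : ℝ) (U V : ℤ),
    T₀ ≤ T → U ^ 2 - Q.n * V ^ 2 = 1 → (U : ℝ) + V * Q.r = T →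
    φ = Q.A * P.b + Q.B + ((-U : ℤ) : ℝ) / V → y = P.b - Q.ev P.b / φ →
    (V ≠ 0 ∧ φ ≠ 0 ∧ T ≤ 4 * (|(V : ℝ)| * |Q.r|) ∧ 2 * (|(V : ℝ)| * |Q.r|) ≤ T) ∧
      |y - Q.b| * T ^ 2 ≤ C ∧ ∀ q p : ℤ, q ≠ 0 → c ≤ T * (|q * y + p| * |(q : ℝ)|) := by
  obtain ⟨D, hDd⟩ : ∃ D, D = Q.A * (P.b - Q.a) := ⟨_, rfl⟩
  have hD0 : 0 < |D| := abs_pos.2 (hDd ▸ mul_ne_zero Q.Apos.ne' (sub_ne_zero.2 hD))
  have hr0 : 0 < |Q.r| := abs_pos.2 Q.r_ne
  have hd0 : 0 < |Q.a - Q.b| := abs_pos.2 (sub_ne_zero.2 Q.a_ne_b)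
  obtain ⟨C, hC⟩ : ∃ C, C = 8 * |Q.r| * |P.b - Q.b| / |D| := ⟨_, rfl⟩
  have hC0 : 0 ≤ C := by rw [hC]; positivity
  obtain ⟨M, hM⟩ : ∃ M, M = 1 + C + |Q.a - Q.b| := ⟨_, rfl⟩
  have hM0 : 0 ≤ M := by rw [hM]; positivity
  obtain ⟨K, hK⟩ : ∃ K, K = (|P.a - Q.b| + |P.a - Q.a|) * M / |Q.a - Q.b| := ⟨_, rfl⟩
  have hK0 : 0 ≤ K := by rw [hK]; positivity
  have hA := P.Apos
  refine ⟨max 2 (8 * |Q.r| / |D|), C, 1 / (2 * (P.A * K * (|D| / |Q.r|) + 1)), by positivity,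
    fun T φ y U V hT h1 h2 hφ hy => ?_⟩
  have hT2 : 2 ≤ T := (le_max_left _ _).trans hT
  have hT0 : 0 < T := by linarith
  have h1' : (U : ℝ) ^ 2 - Q.r ^ 2 * V ^ 2 = 1 := by rw [Q.r_sq]; exact_mod_cast h1
  obtain ⟨b1, b2, b3, b4, b5, b6, b7⟩ := StepB_basic (D := D) (φ := φ) Q.r_ne h1' h2 hT2
    ((div_le_iff₀ hD0).1 ((le_max_right _ _).trans hT))
    (by rw [hφ, hDd, ← Q.r_a]; push_cast; ring)
  have hφ0 : φ ≠ 0 := abs_pos.1 (by linarith)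
  have hV' := abs_pos.2 b2
  have e1 : φ * y = φ * P.b - D * (P.b - Q.b) := by
    rw [hy, Q.ev_eq, hDd]
    field_simp
  have e2 : (y - Q.b) * (T * V * φ) = -(P.b - Q.b) := by
    linear_combination T * V * e1 + (P.b - Q.b) * b7
  have e3 : |y - Q.b| * (T * (|(V : ℝ)| * |φ|)) = |P.b - Q.b| := by
    have := congrArg abs e2
    rwa [abs_neg, abs_mul, abs_mul, abs_mul, abs_of_pos hT0, mul_assoc T] at this
  have hz := abs_nonneg (y - Q.b)
  have c1 : |y - Q.b| * T ^ 2 ≤ C := by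
    rw [hC, le_div_iff₀ hD0, ← e3]
    have k1 : T * |D| ≤ 4 * (|(V : ℝ)| * |Q.r|) * (2 * |φ|) :=
      mul_le_mul b3 (by linarith) hD0.le (by positivity)
    have k2 := mul_le_mul_of_nonneg_left k1 (mul_nonneg hz hT0.le)
    linarith
  refine ⟨⟨by exact_mod_cast b2, hφ0, b3, b4⟩, c1, fun q p hq => ?_⟩
  obtain ⟨q', p', h0, hL⟩ := hmap (O := Q.toTr) (u := -U) (v := V)
    (by rw [neg_sq, h1]; exact one_ne_zero) (p := p) (.inl hq)
  have hq1 := Approx_one_le hq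
  obtain ⟨t, ht⟩ : ∃ t, t = T * |q * y + p| := ⟨_, rfl⟩
  have hLy := abs_nonneg (q * y + p)
  have ht0 : 0 ≤ t := by rw [ht]; positivity
  have c2 : |y - Q.b| * T ≤ C := by
    refine le_trans (mul_le_mul_of_nonneg_left ?_ hz) c1
    nlinarith
  have c3 : |y - Q.b| ≤ C := le_trans (le_mul_of_one_le_right hz (by linarith)) c2
  have l1 : |q' * Q.b + p'| ≤ M * (t + |(q : ℝ)|) := by
    have k1 : q' * Q.b + p' = -(T * (q * Q.b + p)) := by
      rw [hL, Q.r_b, Q.ev_eq, ← h2]; push_cast; ring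
    have k2 := mul_le_mul_of_nonneg_left (Approx_tri q p y Q.b) hT0.le
    have k3 := mul_le_mul_of_nonneg_left c2 (abs_nonneg (q : ℝ))
    have k4 : 0 ≤ C * t + |Q.a - Q.b| * (t + |(q : ℝ)|) := by positivity
    rw [k1, abs_neg, abs_mul, abs_of_pos hT0, hM]
    linarith
  have l2 : |q' * Q.a + p'| ≤ M * (t + |(q : ℝ)|) := by
    have k1 : T * (q' * Q.a + p') = -(q * Q.a + p) := by
      rw [hL, Q.r_a, Q.ev_eq]; push_cast; linear_combination -(q * Q.a + p) * b1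
    have k2 : T * |q' * Q.a + p'| = |q * Q.a + p| := by
      rw [← abs_neg (q * Q.a + p), ← k1, abs_mul, abs_of_pos hT0]
    have k3 : |q' * Q.a + p'| ≤ T * |q' * Q.a + p'| :=
      le_mul_of_one_le_left (abs_nonneg _) (by linarith)
    have k4 := Approx_tri q p y Q.a
    have k5 : |y - Q.a| ≤ C + |Q.a - Q.b| := by
      have := abs_sub_le y Q.b Q.a
      rw [abs_sub_comm Q.b] at this
      linarith
    have k6 := mul_le_mul_of_nonneg_left k5 (abs_nonneg (q : ℝ))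
    have k7 : |q * y + p| ≤ t := ht ▸ le_mul_of_one_le_left hLy (by linarith)
    have k8 : 0 ≤ C * t + |Q.a - Q.b| * t := by positivity
    rw [hM]
    linarith
  have l3 : |q' * P.a + p'| ≤ K * (t + |(q : ℝ)|) := by
    have := StepB_interp (a := P.a) l2 l1
    rw [hK, div_mul_eq_mul_div, le_div_iff₀ hd0]
    linarith
  have l4 : |q' * P.b + p'| ≤ |D| / |Q.r| * t := by
    have k0 : (V : ℝ) * φ = -U + V * (Q.A * P.b + Q.B) := by
      rw [hφ]; push_cast; field_simp; ring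
    have k1 : q' * P.b + p' = V * φ * (q * y + p) := by
      rw [hL, Q.ev_eq]; push_cast
      linear_combination -(q * P.b + p) * k0 - V * q * e1 + V * q * (P.b - Q.b) * hDd
    have k2 : 2 * (|(V : ℝ)| * |Q.r|) * |φ| ≤ T * (2 * |D|) :=
      mul_le_mul b4 b6 (abs_nonneg _) hT0.le
    have k3 := mul_le_mul_of_nonneg_right k2 hLy
    rw [k1, abs_mul, abs_mul, div_mul_eq_mul_div, le_div_iff₀ hr0, ht]
    linarith
  have l5 := mul_le_mul_of_nonneg_left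
    (mul_le_mul l3 l4 (abs_nonneg _) ((abs_nonneg _).trans l3)) hA.le
  rw [← mul_assoc, ← ht]
  refine StepB_fin (by positivity) ht0 hq1 (((P.norm h0).trans l5).trans_eq ?_)
  ring

theorem bfam (P Q : QF) (hr : res P.toTr Q.toTr = 1) {ε : ℝ} {U V : ℕ → ℤ} (hε : 1 < ε)
    (h : ∀ k, U k ^ 2 - Q.n * V k ^ 2 = 1 ∧ (U k : ℝ) + V k * Q.r = ε ^ k) :
    Conv (fun k => ε ^ k)
      (fun k => P.b - Q.ev P.b / (Q.A * P.b + Q.B + ((-U k : ℤ) : ℝ) / V k)) Q.b ∧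
    ∀ᶠ k in atTop, V k ≠ 0 ∧ Q.A * P.b + Q.B + ((-U k : ℤ) : ℝ) / V k ≠ 0 ∧
      ε ^ k ≤ 4 * (|(V k : ℝ)| * |Q.r|) ∧ 2 * (|(V k : ℝ)| * |Q.r|) ≤ ε ^ k := by
  have hD : P.b ≠ Q.a := fun e => by
    have h2 := P.res_eq Q.toTr
    rw [hr, Q.ev_eq P.b, e] at h2
    simp at h2
  obtain ⟨T₀, C, c, hc, H⟩ := StepB_core P Q hD
  have ht := tendsto_pow_atTop_atTop_of_one_lt hε
  have H' := (ht.eventually_ge_atTop T₀).mono fun k hk =>
    H _ _ _ (U k) (V k) hk (h k).1 (h k).2 rfl rfl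
  exact ⟨⟨ht, ⟨C, H'.mono fun k hk => hk.2.1⟩, Q.ba_b, c, hc, H'.mono fun k hk => hk.2.2⟩,
    H'.mono fun k hk => hk.1⟩

end Pool.Agent.MP_06f5ad_nt.Q2

end

section

/-!
Transfer of goodness, by units and limits.
-/

namespace Pool.Agent.MP_06f5ad_nt.Q2

open Filter Topology

theorem TransB_lin {a b y q p : ℝ} (h1 : |a - b| ≤ 10 * |y - a|)
    (h2 : |y - a| ≤ 10 * |a - b|) :
    |q * y + p| ≤ 10 * |q * b + p| + 11 * |q * a + p| ∧
      |q * b + p| ≤ 10 * |q * y + p| + 11 * |q * a + p| := by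
  have e1 : |q * y + p| ≤ |q| * |y - a| + |q * a + p| := by
    rw [← abs_mul]
    calc |q * y + p| = |q * (y - a) + (q * a + p)| := by ring_nf
      _ ≤ _ := abs_add_le _ _
  have e2 : |q * b + p| ≤ |q| * |a - b| + |q * a + p| := by
    rw [← abs_mul]
    calc |q * b + p| = |(q * a + p) - q * (a - b)| := by ring_nf
      _ ≤ |q * a + p| + |q * (a - b)| := abs_sub _ _
      _ = _ := add_comm _ _
  have e3 : |q| * |a - b| ≤ |q * b + p| + |q * a + p| := by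
    rw [← abs_mul]
    calc |q * (a - b)| = |(q * a + p) - (q * b + p)| := by ring_nf
      _ ≤ |q * a + p| + |q * b + p| := abs_sub _ _
      _ = _ := add_comm _ _
  have e4 : |q| * |y - a| ≤ |q * y + p| + |q * a + p| := by
    rw [← abs_mul]
    calc |q * (y - a)| = |(q * y + p) - (q * a + p)| := by ring_nf
      _ ≤ _ := abs_sub _ _
  have e5 := mul_le_mul_of_nonneg_left h1 (abs_nonneg q)
  have e6 := mul_le_mul_of_nonneg_left h2 (abs_nonneg q)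
  constructor <;> nlinarith

theorem TransB_err {W σ t X : ℝ} (hW : 2 ^ 100 ≤ W) (hσ : 0 < σ) (hσ2 : σ ≤ 2 * W ^ 56)
    (htW : W ^ 200 ≤ t) (hX : W ^ 1 * X ≤ W ^ 85) :
    W ^ 25 * (11 * (X * (σ / t) ^ 2)) ≤ 1 := by
  have hW1 : (1 : ℝ) ≤ W := le_trans (by norm_num) hW
  have hW0 : (0 : ℝ) < W := by linarith
  have ht : 0 < t := lt_of_lt_of_le (by positivity) htW
  have hX1 : X ≤ W ^ 84 := by
    have : W * X ≤ W * W ^ 84 := by
      calc W * X = W ^ 1 * X := by ring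
        _ ≤ W ^ 85 := hX
        _ = _ := by ring
    exact le_of_mul_le_mul_left this hW0
  have h1 : σ / t ≤ 2 / W ^ 144 := by
    rw [div_le_div_iff₀ ht (by positivity)]
    calc σ * W ^ 144 ≤ 2 * W ^ 56 * W ^ 144 := by gcongr
      _ = 2 * W ^ 200 := by ring
      _ ≤ 2 * t := by gcongr
  have h2 : (σ / t) ^ 2 ≤ (2 / W ^ 144) ^ 2 := by gcongr
  have h3 : X * (σ / t) ^ 2 ≤ W ^ 84 * (2 / W ^ 144) ^ 2 :=
    le_trans (mul_le_mul_of_nonneg_right hX1 (by positivity))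
      (mul_le_mul_of_nonneg_left h2 (by positivity))
  have h4 : (44 : ℝ) ≤ W ^ 179 := le_trans (le_trans (by norm_num) hW)
    (le_self_pow₀ hW1 (by norm_num))
  calc W ^ 25 * (11 * (X * (σ / t) ^ 2)) ≤ W ^ 25 * (11 * (W ^ 84 * (2 / W ^ 144) ^ 2)) := by
        gcongr
    _ = 44 / W ^ 179 := by field_simp; norm_num
    _ ≤ 1 := by rw [div_le_one (by positivity)]; exact h4

/-- Moving the scale by a unit and changing the second point. -/
theorem gd_align (P : QF) {W σ t y : ℝ} {U V : ℤ} (hW : 2 ^ 100 ≤ W)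
    (hU : U ^ 2 - P.n * V ^ 2 = 1) (ht : t = U + V * P.r) (hσ : 0 < σ) (hσ2 : σ ≤ 2 * W ^ 56)
    (htW : W ^ 200 ≤ t) (h1 : |P.a - P.b| ≤ 10 * |y - P.a|) (h2 : |y - P.a| ≤ 10 * |P.a - P.b|)
    (hg : Gd W 0 P.a P.b σ⁻¹) : Gd W 1 P.a y (t / σ) := by
  intro q p hqp hX
  have hW0 : (0 : ℝ) < W := lt_of_lt_of_le (by norm_num) hW
  have ht0 : 0 < t := lt_of_lt_of_le (by positivity) htW
  obtain ⟨q', p', h0, ea, eb⟩ := P.unit hU hqp
  have hinv : (U : ℝ) - V * P.r = t⁻¹ := by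
    refine eq_inv_of_mul_eq_one_left ?_
    have e : ((U : ℝ)) ^ 2 - P.n * V ^ 2 = 1 := by exact_mod_cast hU
    rw [ht, ← e, ← P.r_sq]; ring
  have hk := hg q' p' h0
  rw [ea, eb, ← ht, hinv, abs_mul, abs_mul, abs_of_pos ht0, abs_of_pos (inv_pos.2 ht0)] at hk
  obtain ⟨l1, l2⟩ := TransB_lin (q := q) (p := p) h1 h2
  have he := TransB_err hW hσ hσ2 htW hX
  set A := |q * P.a + p|
  set B := |q * P.b + p|
  set Y := |q * y + p|
  have hA : 0 ≤ A := abs_nonneg _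
  have hB : 0 ≤ B := abs_nonneg _
  have hY : 0 ≤ Y := abs_nonneg _
  have hs : 0 < W ^ 25 * (σ / t) := by positivity
  have e1 : W ^ 25 * (11 * (t / σ * A * (σ / t) ^ 2)) = W ^ 25 * (σ / t) * (11 * A) := by
    field_simp
  have e2 : W ^ 25 * (t⁻¹ * B / σ⁻¹) = W ^ 25 * (σ / t) * B := by field_simp
  have e3 : W ^ 25 * (Y / (t / σ)) = W ^ 25 * (σ / t) * Y := by field_simp
  rw [e1] at he
  refine ok_trans (l := 0) hW (by positivity) (by positivity) (by positivity) (by positivity) hk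
    ?_ ?_ ?_ hX
  · have : σ⁻¹ * (t * A) = t / σ * A := by ring
    rw [this]
    have : 0 ≤ t / σ * A := by positivity
    linarith
  · rw [e2, e3]
    have := mul_le_mul_of_nonneg_left l2 hs.le
    have : 0 ≤ W ^ 25 * (σ / t) * Y := by positivity
    nlinarith
  · rw [e2, e3]
    have := mul_le_mul_of_nonneg_left l1 hs.le
    have : 0 ≤ W ^ 25 * (σ / t) * B := by positivity
    nlinarith

theorem TransB_big {W σ σ' d x y q p : ℝ} {l : ℕ} (hW : 2 ^ 100 ≤ W) (hσ : 0 < σ) (hd : 0 < d)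
    (h1 : σ ≤ 1000 * σ') (h2 : σ' ≤ 1000 * σ) (hxy : d / 2 ≤ |x - y|)
    (hq : 4000 * W ^ 85 / (σ * d) ≤ |q|)
    (hf : 64 * 10 ^ 6 * σ ^ 2 * W ^ 25 / d ^ 3 ≤ |q * x + p| * |q| ^ 3) :
    Ok W l (σ' * |q * x + p|) (|q * y + p| / σ') := by
  intro hX
  left
  have hW1 : (1 : ℝ) ≤ W := le_trans (by norm_num) hW
  have hσ' : 0 < σ' := by linarith
  have hl : (1 : ℝ) ≤ W ^ l := one_le_pow₀ hW1
  have e3 : |q| * |x - y| ≤ |q * y + p| + |q * x + p| := by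
    rw [← abs_mul]
    calc |q * (x - y)| = |(q * x + p) - (q * y + p)| := by ring_nf
      _ ≤ |q * x + p| + |q * y + p| := abs_sub _ _
      _ = _ := add_comm _ _
  set A := |q * x + p|
  set Y := |q * y + p|
  set Q := |q|
  have hA : 0 ≤ A := abs_nonneg _
  have hY : 0 ≤ Y := abs_nonneg _
  have hQ : 0 ≤ Q := abs_nonneg _
  have hA1 : σ' * A ≤ W ^ 85 := le_trans (le_mul_of_one_le_left (by positivity) hl) hX
  rw [div_le_iff₀ (by positivity)] at hq hf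
  have hA2 : A ≤ Q * d / 4 := by
    have : σ * A ≤ σ * (Q * d / 4) := by nlinarith
    exact le_of_mul_le_mul_left this hσ
  have hY1 : Q * d / 4 ≤ Y := by nlinarith
  have hY3 : (Q * d / 4) ^ 3 ≤ Y ^ 3 := by gcongr
  have hs2 : σ' ^ 2 ≤ (1000 * σ) ^ 2 := by gcongr
  have key : W ^ 25 * σ' ^ 2 ≤ A * Y ^ 3 :=
    calc W ^ 25 * σ' ^ 2 ≤ W ^ 25 * (1000 * σ) ^ 2 := by gcongr
      _ = 64 * 10 ^ 6 * σ ^ 2 * W ^ 25 / 64 := by ring
      _ ≤ A * Q ^ 3 * d ^ 3 / 64 := by gcongr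
      _ = A * (Q * d / 4) ^ 3 := by ring
      _ ≤ A * Y ^ 3 := by gcongr
  have e : σ' * A * (Y / σ') ^ 3 = A * Y ^ 3 / σ' ^ 2 := by field_simp
  calc W ^ 25 ≤ σ' * A * (Y / σ') ^ 3 := by rw [e, le_div_iff₀ (by positivity)]; exact key
    _ ≤ W ^ l * (σ' * A * (Y / σ') ^ 3) := le_mul_of_one_le_left (by positivity) hl
    _ = _ := by ring

theorem TransB_small {W σ σ' A A' B B' e : ℝ} {l : ℕ} (hW : 2 ^ 100 ≤ W) (hσ : 0 < σ)
    (h1 : σ ≤ 1000 * σ') (h2 : σ' ≤ 1000 * σ) (hA : 0 ≤ A) (hB : 0 ≤ B) (hB' : 0 ≤ B')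
    (hAA : A ≤ 2 * A') (e1 : B ≤ B' + e) (e2 : B' ≤ B + e) (he : 1000 * W ^ 25 * e ≤ σ)
    (h : Ok W l (σ * A) (B / σ)) : Ok W (l + 1) (σ' * A') (B' / σ') := by
  have hW0 : (0 : ℝ) < W := lt_of_lt_of_le (by norm_num) hW
  have hσ' : 0 < σ' := by linarith
  have hA' : 0 ≤ A' := by linarith
  have hw : 0 < W ^ 25 := by positivity
  have f1 : B' / σ ≤ 1000 * (B' / σ') := by
    rw [← mul_div_assoc, div_le_div_iff₀ hσ hσ']; nlinarith
  have f2 : B' / σ' ≤ 1000 * (B' / σ) := by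
    rw [← mul_div_assoc, div_le_div_iff₀ hσ' hσ]; nlinarith
  have f3 : 1000 * (W ^ 25 * (e / σ)) ≤ 1 := by
    have : 1000 * (W ^ 25 * (e / σ)) = 1000 * W ^ 25 * e / σ := by ring
    rw [this, div_le_one hσ]; exact he
  have f4 : B / σ ≤ B' / σ + e / σ := by rw [← add_div]; gcongr
  have f5 : B' / σ ≤ B / σ + e / σ := by rw [← add_div]; gcongr
  have f6 : 0 ≤ B / σ := by positivity
  have f7 : 0 ≤ B' / σ' := by positivity
  refine ok_trans hW (by positivity) (by positivity) (by positivity) (by positivity) h ?_ ?_ ?_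
  · nlinarith [mul_le_mul h1 hAA hA (by positivity), mul_nonneg hσ'.le hA']
  · nlinarith [mul_le_mul_of_nonneg_left f1 hw.le, mul_le_mul_of_nonneg_left f4 hw.le,
      mul_nonneg hw.le f7]
  · nlinarith [mul_le_mul_of_nonneg_left f2 hw.le, mul_le_mul_of_nonneg_left f5 hw.le,
      mul_nonneg hw.le f6]

theorem TransB_near (q p x x' : ℝ) : |q * x + p| ≤ |q * x' + p| + |q| * |x - x'| := by
  rw [← abs_mul]
  calc |q * x + p| = |(q * x' + p) + q * (x - x')| := by ring_nf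
    _ ≤ _ := abs_add_le _ _

/-- Passing to the members of a family. -/
theorem gd_limit {T x y : ℕ → ℝ} {x₀ y₀ σ W : ℝ} {l : ℕ} (hW : 2 ^ 100 ≤ W)
    (hx : Conv T x x₀) (hy : Tendsto y atTop (𝓝 y₀)) (hxy : x₀ ≠ y₀) (hσ : 0 < σ)
    (hg : Gd W l x₀ y₀ σ) : ∀ᶠ k in atTop, ∀ σ' : ℝ, σ ≤ 1000 * σ' → σ' ≤ 1000 * σ →
      Gd W (l + 1) (x k) (y k) σ' := by
  have hW0 : (0 : ℝ) < W := lt_of_lt_of_le (by norm_num) hW
  have hd : 0 < |x₀ - y₀| := abs_pos.2 (sub_ne_zero.2 hxy)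
  set d := |x₀ - y₀| with hdd
  obtain ⟨Q₀, hQ₀⟩ := hx.far (64 * 10 ^ 6 * σ ^ 2 * W ^ 25 / d ^ 3)
  obtain ⟨κ, hκ, hD⟩ := hx.ba.dio
  set Q := max (max Q₀ (4000 * W ^ 85 / (σ * d))) 1 with hQ
  have hQ1 : 1 ≤ Q := le_max_right _ _
  have hQp : 0 < Q := by linarith
  have near : ∀ {z : ℕ → ℝ} {z₀ ε : ℝ}, Tendsto z atTop (𝓝 z₀) → 0 < ε →
      ∀ᶠ k in atTop, |z k - z₀| ≤ ε := fun {z z₀ ε} hz hε => by
    filter_upwards [(Metric.tendsto_nhds.1 hz) ε hε] with k hk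
    rw [Real.dist_eq] at hk
    exact hk.le
  filter_upwards [hQ₀, near hx.tendsto (show 0 < d / 4 by positivity),
    near hx.tendsto (show 0 < κ / (2 * Q ^ 4) by positivity),
    near hy (show 0 < d / 4 by positivity),
    near hy (show 0 < σ / (1000 * W ^ 25 * Q) by positivity)] with k k0 k1 k2 k3 k4
  intro σ' h1 h2 q p hqp
  by_cases hq : Q ≤ |(q : ℝ)|
  · refine TransB_big hW hσ hd h1 h2 ?_
      (le_trans (le_trans (le_max_right _ _) (le_max_left _ _)) hq)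
      (k0 q p (le_trans (le_trans (le_max_left _ _) (le_max_left _ _)) hq))
    have : d ≤ |x k - x₀| + |x k - y k| + |y k - y₀| := by
      calc d = |(-(x k - x₀) + (x k - y k)) + (y k - y₀)| := by rw [hdd]; ring_nf
        _ ≤ |-(x k - x₀) + (x k - y k)| + |y k - y₀| := abs_add_le _ _
        _ ≤ |-(x k - x₀)| + |x k - y k| + |y k - y₀| := by gcongr; exact abs_add_le _ _
        _ = _ := by rw [abs_neg]
    linarith
  · have hq' : |(q : ℝ)| ≤ Q := (not_le.1 hq).le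
    have hq0 : 0 ≤ |(q : ℝ)| := abs_nonneg _
    refine TransB_small (e := |(q : ℝ)| * |y k - y₀|) hW hσ h1 h2 (abs_nonneg _) (abs_nonneg _)
      (abs_nonneg _) ?_ ?_ (TransB_near _ _ _ _) ?_ (hg q p hqp)
    · have n1 := TransB_near q p x₀ (x k)
      rw [abs_sub_comm] at n1
      have n2 : 2 * (|(q : ℝ)| * |x k - x₀|) ≤ |q * x₀ + p| := by
        by_cases h0 : q = 0
        · simp [h0]
        · have n3 := hD q p h0
          have n4 : |q * x₀ + p| * |(q : ℝ)| ^ 3 ≤ |q * x₀ + p| * Q ^ 3 := by gcongr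
          have n5 : |(q : ℝ)| * |x k - x₀| ≤ Q * (κ / (2 * Q ^ 4)) := by gcongr
          have n6 : 2 * (Q * (κ / (2 * Q ^ 4))) = κ / Q ^ 3 := by field_simp
          have n7 : κ / Q ^ 3 ≤ |q * x₀ + p| := by
            rw [div_le_iff₀ (by positivity)]; linarith
          linarith
      linarith
    · have n1 := TransB_near q p y₀ (y k)
      rwa [abs_sub_comm] at n1
    · have n5 : |(q : ℝ)| * |y k - y₀| ≤ Q * (σ / (1000 * W ^ 25 * Q)) := by gcongr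
      calc 1000 * W ^ 25 * (|(q : ℝ)| * |y k - y₀|)
          ≤ 1000 * W ^ 25 * (Q * (σ / (1000 * W ^ 25 * Q))) := by gcongr
        _ = σ := by field_simp

end Pool.Agent.MP_06f5ad_nt.Q2

end

section

/-!
The limit and its transcendence.
-/

namespace Pool.Agent.MP_06f5ad_nt.Q2

open Filter Topology

theorem Transc_geo {a : ℕ → ℝ} (h : ∀ m, |a (m + 1) - a (m + 2)| ≤ |a m - a (m + 1)| / 8)
    (m n : ℕ) : dist (a (n + m)) (a (n + 1 + m)) ≤ |a m - a (m + 1)| * (1 / 8) ^ n := by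
  rw [Real.dist_eq]
  induction n with
  | zero => simp [add_comm]
  | succ n ih =>
    have := h (n + m)
    rw [show n + m + 1 = n + 1 + m by ring, show n + m + 2 = n + 1 + 1 + m by ring] at this
    rw [pow_succ, ← mul_assoc]
    linarith

theorem exists_lim {a : ℕ → ℝ} (h : ∀ m, |a (m + 1) - a (m + 2)| ≤ |a m - a (m + 1)| / 8) :
    ∃ ζ : ℝ, Tendsto a atTop (𝓝 ζ) ∧ ∀ m, |ζ - a (m + 1)| ≤ 2 * |a (m + 1) - a (m + 2)| ∧
      |ζ - a m| ≤ 2 * |a m - a (m + 1)| ∧ |a m - a (m + 1)| ≤ 2 * |ζ - a m| := by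
  have hc : CauchySeq a :=
    cauchySeq_of_le_geometric (1 / 8) _ (by norm_num) fun n => Transc_geo h 0 n
  obtain ⟨ζ, hζ⟩ := cauchySeq_tendsto_of_complete hc
  have key : ∀ m, |ζ - a m| ≤ 8 / 7 * |a m - a (m + 1)| := by
    intro m
    have := dist_le_of_le_geometric_of_tendsto₀ (f := fun n => a (n + m)) (1 / 8) _ (by norm_num)
      (Transc_geo h m) ((tendsto_add_atTop_iff_nat m).2 hζ)
    rw [Real.dist_eq, zero_add, abs_sub_comm] at this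
    exact this.trans_eq (by ring)
  refine ⟨ζ, hζ, fun m => ⟨?_, ?_, ?_⟩⟩
  · have := key (m + 1)
    have := abs_nonneg (a (m + 1) - a (m + 2))
    linarith
  · have := key m
    have := abs_nonneg (a m - a (m + 1))
    linarith
  · have h1 := key (m + 1)
    have h2 := h m
    have h3 := abs_sub_le (a m) ζ (a (m + 1))
    rw [abs_sub_comm (a m) ζ] at h3
    have h4 := abs_nonneg (ζ - a m)
    linarith

theorem Transc_pow (P : QF) (k : ℕ) : ∃ u v : ℤ,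
    ((P.A : ℝ) * P.a) ^ k = u + v * P.r ∧ ((P.A : ℝ) * P.b) ^ k = u - v * P.r := by
  induction k with
  | zero => exact ⟨1, 0, by simp, by simp⟩
  | succ k ih =>
    obtain ⟨u, v, h1, h2⟩ := ih
    refine ⟨v * P.n - u * P.B, u - v * P.B, ?_, ?_⟩
    · rw [pow_succ, h1]
      push_cast
      linear_combination (u + v * P.r) * P.r_a + v * P.r_sq
    · rw [pow_succ, h2]
      push_cast
      linear_combination (u - v * P.r) * P.r_b + v * P.r_sq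

theorem Transc_eval (P : QF) (F : Polynomial ℤ) : ∃ u v : ℤ,
    (P.A : ℝ) ^ F.natDegree * Polynomial.aeval P.a F = u + v * P.r ∧
      (P.A : ℝ) ^ F.natDegree * Polynomial.aeval P.b F = u - v * P.r := by
  choose u v hu hv using Transc_pow P
  have e : ∀ x : ℝ, (P.A : ℝ) ^ F.natDegree * Polynomial.aeval x F =
      ∑ k ∈ Finset.range (F.natDegree + 1),
        (F.coeff k : ℝ) * (P.A : ℝ) ^ (F.natDegree - k) * ((P.A : ℝ) * x) ^ k := by
    intro x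
    rw [Polynomial.aeval_eq_sum_range, Finset.mul_sum]
    refine Finset.sum_congr rfl fun k hk => ?_
    have hk' : k ≤ F.natDegree := Nat.lt_succ_iff.1 (Finset.mem_range.1 hk)
    have : (P.A : ℝ) ^ F.natDegree = (P.A : ℝ) ^ (F.natDegree - k) * (P.A : ℝ) ^ k := by
      rw [← pow_add, Nat.sub_add_cancel hk']
    rw [this, zsmul_eq_mul]
    ring
  refine ⟨∑ k ∈ Finset.range (F.natDegree + 1), F.coeff k * P.A ^ (F.natDegree - k) * u k,
    ∑ k ∈ Finset.range (F.natDegree + 1), F.coeff k * P.A ^ (F.natDegree - k) * v k, ?_, ?_⟩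
  · rw [e]
    push_cast
    rw [Finset.sum_mul, ← Finset.sum_add_distrib]
    exact Finset.sum_congr rfl fun k _ => by rw [hu]; ring
  · rw [e]
    push_cast
    rw [Finset.sum_mul, ← Finset.sum_sub_distrib]
    exact Finset.sum_congr rfl fun k _ => by rw [hv]; ring

theorem Transc_norm (P : QF) (F : Polynomial ℤ) (ha : Polynomial.aeval P.a F ≠ 0)
    (hb : Polynomial.aeval P.b F ≠ 0) :
    1 ≤ (P.A : ℝ) ^ (2 * F.natDegree) * (|Polynomial.aeval P.a F| * |Polynomial.aeval P.b F|) := by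
  obtain ⟨u, v, hu, hv⟩ := Transc_eval P F
  have e : ((u ^ 2 - P.n * v ^ 2 : ℤ) : ℝ) =
      (P.A : ℝ) ^ (2 * F.natDegree) * (Polynomial.aeval P.a F * Polynomial.aeval P.b F) := by
    have : (P.A : ℝ) ^ (2 * F.natDegree) * (Polynomial.aeval P.a F * Polynomial.aeval P.b F) =
        ((P.A : ℝ) ^ F.natDegree * Polynomial.aeval P.a F) *
          ((P.A : ℝ) ^ F.natDegree * Polynomial.aeval P.b F) := by ring
    rw [this, hu, hv]
    push_cast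
    rw [← P.r_sq]
    ring
  have hp : 0 < (P.A : ℝ) ^ (2 * F.natDegree) := pow_pos P.Apos _
  have h0 : u ^ 2 - P.n * v ^ 2 ≠ 0 := by
    intro h0
    rw [h0, Int.cast_zero] at e
    exact mul_ne_zero hp.ne' (mul_ne_zero ha hb) e.symm
  have h1 : (1 : ℝ) ≤ |((u ^ 2 - P.n * v ^ 2 : ℤ) : ℝ)| := by
    exact_mod_cast Int.one_le_abs h0
  rwa [e, abs_mul, abs_mul, abs_of_pos hp] at h1

theorem Transc_ne {G : Polynomial ℝ} (hG : G ≠ 0) {x : ℕ → ℝ} {ζ : ℝ}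
    (hx : Tendsto x atTop (𝓝 ζ)) (h : ∀ m, x m ≠ ζ) : ∀ᶠ m in atTop, G.eval (x m) ≠ 0 := by
  have hf : ({y | G.IsRoot y} \ {ζ}).Finite := (Polynomial.finite_setOfPred_isRoot hG).sdiff
  have hn : ({y | G.IsRoot y} \ {ζ})ᶜ ∈ 𝓝 ζ := hf.isClosed.isOpen_compl.mem_nhds (by simp)
  filter_upwards [hx hn] with m hm h0
  exact hm ⟨h0, h m⟩

theorem transc {P : ℕ → QF} {ζ : ℝ} (ha : Tendsto (fun m => (P m).a) atTop (𝓝 ζ))
    (hb : Tendsto (fun m => (P m).b) atTop (𝓝 ζ)) (h1 : ∀ m, (P m).a ≠ ζ) (h2 : ∀ m, (P m).b ≠ ζ)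
    (h3 : ∀ m, |ζ - (P m).a| * ((P m).A : ℝ) ^ m ≤ 2 / (m + 1)) : Transcendental ℚ ζ := by
  intro halg
  obtain ⟨F, hF, hz⟩ := (IsFractionRing.isAlgebraic_iff ℤ ℚ ℝ).2 halg
  set G := F.map (algebraMap ℤ ℝ) with hGd
  have hG : G ≠ 0 := (Polynomial.map_ne_zero_iff (algebraMap ℤ ℝ).injective_int).2 hF
  have ev : ∀ x : ℝ, Polynomial.aeval x F = G.eval x := fun x => by
    rw [hGd, Polynomial.eval_map_algebraMap]
  obtain ⟨G1, hG1⟩ : Polynomial.X - Polynomial.C ζ ∣ G :=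
    Polynomial.dvd_iff_isRoot.2 (by rw [Polynomial.IsRoot, ← ev, hz])
  have t1 : Tendsto (fun m => 2 * (|G1.eval (P m).a| * |G.eval (P m).b|)) atTop
      (𝓝 (2 * (|G1.eval ζ| * |G.eval ζ|))) :=
    ((((G1.continuous.tendsto ζ).comp ha).abs).mul
      (((G.continuous.tendsto ζ).comp hb).abs)).const_mul 2
  rw [← ev ζ, hz, abs_zero, mul_zero, mul_zero] at t1
  obtain ⟨m, ⟨⟨hma, hmb⟩, hm1⟩, hmd⟩ := ((((Transc_ne hG ha h1).and (Transc_ne hG hb h2)).and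
    (t1.eventually (gt_mem_nhds one_pos))).and (eventually_ge_atTop (2 * F.natDegree))).exists
  have hn := Transc_norm (P m) F (by rwa [ev]) (by rwa [ev])
  rw [ev, ev] at hn
  have e1 : |G.eval (P m).a| = |ζ - (P m).a| * |G1.eval (P m).a| := by
    rw [hG1, abs_sub_comm, ← abs_mul]
    simp
  have e2 : ((P m).A : ℝ) ^ (2 * F.natDegree) ≤ ((P m).A : ℝ) ^ m :=
    pow_le_pow_right₀ (P m).one_le_A hmd
  have e3 : |ζ - (P m).a| * ((P m).A : ℝ) ^ m ≤ 2 := by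
    refine (h3 m).trans (div_le_self (by norm_num) ?_)
    have : (0 : ℝ) ≤ m := Nat.cast_nonneg m
    linarith
  have e4 : |ζ - (P m).a| * ((P m).A : ℝ) ^ (2 * F.natDegree) ≤ 2 :=
    (mul_le_mul_of_nonneg_left e2 (abs_nonneg _)).trans e3
  have e5 := mul_le_mul_of_nonneg_right e4
    (mul_nonneg (abs_nonneg (G1.eval (P m).a)) (abs_nonneg (G.eval (P m).b)))
  rw [e1] at hn
  nlinarith

end Pool.Agent.MP_06f5ad_nt.Q2

end
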